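import Mathlib
import Pool.Agent.Helper29.E2.Sched

/-!
# E-T (MP_12a1af_nt), phase 2: the schedule, elementary facts
-/

namespace Pool.Agent.Helper29.E2

open Pool.Agent.Helper29.ETK

variable {c : ℕ}

lemma Wd_pos (c s : ℕ) : 0 < Wd c s := pow_pos' _ _

lemma Wd_dvd_pow {l s : ℕ} (h : ep c s ≤ l) : Wd c s ∣ CC c ^ l := pow_dvd' c h

lemma ep_le_lg (c s : ℕ) : ep c s ≤ lg c s := by unfold ep; omega

lemma two_ep_le (c s : ℕ) : 2 * ep c s ≤ lg c s := by unfold ep; omega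

lemma un_le (c s : ℕ) : un c s ≤ s := by
  unfold un
  exact Nat.mul_div_le s _

lemma lt_un (c s : ℕ) : s < un c s + Wd c s := by
  unfold un
  have := Nat.lt_mul_div_succ s (Wd_pos c s)
  rw [mul_add, mul_one] at this
  exact this

lemma Wd_dvd_un (c s : ℕ) : Wd c s ∣ un c s := Dvd.intro _ rfl

/-- multiples of the unit width below `s` are `≤ un c s` -/
lemma le_un {s x : ℕ} (hx : Wd c s ∣ x) (h : x ≤ s) : x ≤ un c s := by
  obtain ⟨k, rfl⟩ := hx
  unfold un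
  apply Nat.mul_le_mul_left
  rw [Nat.le_div_iff_mul_le (Wd_pos c s)]
  calc k * Wd c s = Wd c s * k := by ring
    _ ≤ s := h

lemma lg_un (hc : 10 ≤ c) (s : ℕ) : lg c (un c s) = lg c s := by
  rcases Nat.eq_zero_or_pos s with rfl | hs
  · simp [un]
  · apply lg_eq hc
    · exact le_un (Wd_dvd_pow (ep_le_lg c s)) (lg_le c (by omega))
    · exact lt_of_le_of_lt (un_le c s) (lt_lg hc s)

lemma ep_un (hc : 10 ≤ c) (s : ℕ) : ep c (un c s) = ep c s := by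
  unfold ep; rw [lg_un hc]

lemma Wd_un (hc : 10 ≤ c) (s : ℕ) : Wd c (un c s) = Wd c s := by
  unfold Wd; rw [ep_un hc]

lemma j0_un (hc : 10 ≤ c) (s : ℕ) : j0 c (un c s) = j0 c s := by
  unfold j0; rw [ep_un hc]

lemma un_eq_iff {b : ℕ} : un c b = b ↔ Wd c b ∣ b := by
  constructor
  · intro h
    rw [← h]
    conv_lhs => rw [h]
    exact Wd_dvd_un c b
  · intro h
    exact Nat.mul_div_cancel' h

lemma un_un (hc : 10 ≤ c) (s : ℕ) : un c (un c s) = un c s := by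
  rw [un_eq_iff, Wd_un hc]
  exact Wd_dvd_un c s

lemma gl_un (hc : 10 ≤ c) {l s : ℕ} (h : ep c s ≤ l) : gl c l (un c s) = gl c l s := by
  apply gl_eq (dvd_gl c l s)
  · exact le_un ((Wd_dvd_pow h).trans (dvd_gl c l s)) (gl_le c l s)
  · have := un_le c s
    have := lt_gl c l s
    omega

lemma ep_cell' (hc : 10 ≤ c) {l s s' : ℕ} (hs : s ≠ 0) (hl : l ≤ lg c s)
    (h : gl c l s = gl c l s') : ep c s = ep c s' := by
  unfold ep; rw [lg_cell' hc hs hl h]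

lemma Wd_cell' (hc : 10 ≤ c) {l s s' : ℕ} (hs : s ≠ 0) (hl : l ≤ lg c s)
    (h : gl c l s = gl c l s') : Wd c s = Wd c s' := by
  unfold Wd; rw [ep_cell' hc hs hl h]

lemma j0_cell' (hc : 10 ≤ c) {l s s' : ℕ} (hs : s ≠ 0) (hl : l ≤ lg c s)
    (h : gl c l s = gl c l s') : j0 c s = j0 c s' := by
  unfold j0; rw [ep_cell' hc hs hl h]

/-! ### newborn levels -/

lemma le_pow_lg_div (c : ℕ) {s : ℕ} (hs : s ≠ 0) : CC c ^ (2 * ep c s) ≤ s :=
  (pow_le c (two_ep_le c s)).trans (lg_le c hs)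

lemma jn_le_j0 (c s : ℕ) : ep c s ≤ j0 c s := by unfold j0; omega

lemma jn_cell (hc : 10 ≤ c) {s s' : ℕ} (hs : 16 ≤ lg c s)
    (h : gl c (ep c s) s = gl c (ep c s) s') : ep c s' = ep c s ∧ lg c s' = lg c s := by
  have hs0 : s ≠ 0 := by rintro rfl; simp [lg] at hs
  have hlg : lg c s = lg c s' := lg_cell' hc hs0 (ep_le_lg c s) h
  exact ⟨by unfold ep; rw [hlg], hlg.symm⟩

lemma ep_mono {s s' : ℕ} (h : s ≤ s') : ep c s ≤ ep c s' := by
  unfold ep
  exact Nat.div_le_div_right (lg_mono h)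

lemma Wd_dvd_Wd {s s' : ℕ} (h : s ≤ s') : Wd c s ∣ Wd c s' := pow_dvd' c (ep_mono h)

end Pool.Agent.Helper29.E2
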