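import Mathlib
import Pool.Agent.Helper29.E2.Excl

/-!
# E-T (MP_12a1af_nt), phase 2: the change of the states in one slot
-/

namespace Pool.Agent.Helper29.E2

open Pool.Agent.Helper29.ETK

variable {c : ℕ}

lemma fin_of_small (hc : 10 ≤ c) {b t : ℕ} (ht : 8 ≤ epo c t) (h : 8 * b ≤ t) : fin c t b := by
  rcases Nat.lt_or_ge (lg c b) 3 with h3 | h3
  · -- compare with a larger position
    have h1 : CC c ^ 3 ≤ CC c ^ (2 * epo c t + 1 - 1) := pow_le c (by omega)
    have h2 := epo_lower (c := c) (t := t) rfl (by omega)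
    have h4 := pow_pred_le (c := c) hc (l := 2 * epo c t + 1) (by omega)
    have h5 : lg c (CC c ^ 3) = 3 := lg_eq hc (le_refl _)
      (Nat.pow_lt_pow_right (one_lt_CC hc) (by norm_num))
    have hf : fin c t (CC c ^ 3) := by
      by_contra hn
      have := alive hc ht (Ut_le hc (b := CC c ^ 3) (l := lg c (CC c ^ 3) + 1) (by omega)
        (le_refl _)) (gl_le c _ _) hn
      omega
    refine fin_below hc ?_ hf
    have := lt_lg hc b
    exact this.le.trans (pow_le c (by omega))
  · by_contra hn
    have := alive hc ht (Ut_le hc (b := b) (l := lg c b + 1) h3 (le_refl _)) (gl_le c _ _) hn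
    omega

lemma big_of_not_fin (hc : 10 ≤ c) {b t : ℕ} (ht : 8 ≤ epo c t) (h : ¬ fin c t b) :
    t < 8 * b ∧ epo c t ≤ ep c b ∧ 16 ≤ lg c b := by
  have h1 : t < 8 * b := by
    by_contra hn
    exact h (fin_of_small hc ht (by omega))
  exact ⟨h1, ep_ge_of_alive hc ht h1⟩

lemma exE_iff (t : ℕ) (d : Bool) (l b : ℕ) :
    evt c d l b ≤ opp c (cls c (gl c l b)) t ↔ (if d = true then exD c t l b else exU c t l b) := by
  unfold evt exD exU
  split_ifs <;> rfl

/-- no new event: the state does not change -/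
lemma same_of_no_new (hc : 10 ≤ c) {t b : ℕ} (ht : 9 ≤ epo c t) (hb : un c b = b)
    (hb12 : 16 ≤ lg c b) (h : ∀ d l, vld c d l b → ¬ newE c t d l b) :
    lev c (tm c t) b = lev c t b ∧ (isP c (tm c t) b ↔ isP c t b) := by
  have hE := epo_tm hc ht
  have ht0 : 8 ≤ epo c (tm c t) := by omega
  have htt := tm_le c t
  have hU : ∀ l, j0 c b < l → l ≤ lg c b + 1 → (exU c (tm c t) l b ↔ exU c t l b) := by
    intro l h1 h2
    constructor
    · exact exU_mono htt
    · intro h3
      by_contra h4
      refine h false l ⟨hb, hb12, h1, h2, by simp⟩ ⟨?_, ?_⟩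
      · rw [exE_iff]; simpa using h4
      · rw [exE_iff]; simpa using h3
  have hD : ∀ l, j0 c b < l → l ≤ lg c b → (exD c (tm c t) l b ↔ exD c t l b) := by
    intro l h1 h2
    constructor
    · exact exD_mono htt
    · intro h3
      by_contra h4
      refine h true l ⟨hb, hb12, h1, by omega, fun _ => h2⟩ ⟨?_, ?_⟩
      · rw [exE_iff]; simpa using h4
      · rw [exE_iff]; simpa using h3
  have hlev : lev c (tm c t) b = lev c t b := by
    have h1 := lev_mono hc ht0 hb hb12 htt
    have h2 := jn_le_lev (c := c) (tm c t) b hb12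
    have h2' := lev_cases (c := c) t b hb12
    have h3 := lev_le (c := c) t b hb12
    by_contra hne
    have h4 : exU c t (lev c t b) b :=
      (exU_iff hc (by omega) hb hb12 (by omega) h3).mpr (le_refl _)
    have h5 := (hU _ (by omega) h3).mpr h4
    have h6 := (exU_iff hc ht0 hb hb12 (by omega) h3).mp h5
    omega
  refine ⟨hlev, ?_⟩
  by_cases hf : fin c t b
  · have h3 : fin c (tm c t) b :=
      (hU _ (by unfold j0 ep; omega) (le_refl _)).mpr hf
    exact ⟨fun _ => Or.inl hf, fun _ => Or.inl h3⟩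
  · have hf0 : ¬ fin c (tm c t) b := fun h => hf (fin_mono htt h)
    unfold isP
    rw [hlev]
    constructor
    · rintro (h1 | ⟨h1, h2⟩)
      · exact absurd h1 hf0
      · right
        refine ⟨h1, fun h3 => h2 ?_⟩
        have h4 := lev_le (c := c) t b hb12
        have h5 : lev c t b ≤ lg c b := by
          rcases Nat.lt_or_ge (lev c t b) (lg c b + 1) with h6 | h6
          · omega
          · exact absurd (fin_of_lev hb12 (by omega)) hf
        exact (hD _ h1 h5).mpr h3
    · rintro (h1 | ⟨h1, h2⟩)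
      · exact absurd h1 hf
      · right
        exact ⟨h1, fun h3 => h2 (exD_mono htt h3)⟩

/-- a new up event -/
lemma new_up (hc : 10 ≤ c) {t l b : ℕ} (ht : 9 ≤ epo c t) (hv : vld c false l b)
    (hn : newE c t false l b) :
    lev c t b = l ∧ isP c t b ∧ ((j0 c b < lev c (tm c t) b ∧ lev c (tm c t) b + 1 = l) ∨
      (l = j0 c b + 1 ∧ lev c (tm c t) b = ep c b)) ∧ ¬ isP c (tm c t) b := by
  have hE := epo_tm hc ht
  have ht0 : 8 ≤ epo c (tm c t) := by omega
  have htt := tm_le c t
  have huniq : ∀ d' l', vld c d' l' b → newE c t d' l' b → d' = false ∧ l' = l := by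
    intro d' l' h1 h2
    have := newE_unique hc ht h1 hv h2 hn
    exact ⟨this.1, this.2.1⟩
  have hv' := hv
  obtain ⟨hb, hb12, hj, hl, -⟩ := hv'
  have hn' := hn
  obtain ⟨n1, n2⟩ := hn'
  rw [exE_iff] at n1 n2
  simp only [Bool.false_eq_true, if_false] at n1 n2
  have hlt : lev c (tm c t) b < l := by
    by_contra h
    exact n1 ((exU_iff hc ht0 hb hb12 hj hl).mpr (by omega))
  have hle : l ≤ lev c t b := (exU_iff hc (by omega) hb hb12 hj hl).mp n2
  have h3 := lev_le (c := c) t b hb12
  have hlev : lev c t b = l := by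
    by_contra hne
    have h4 : exU c t (lev c t b) b :=
      (exU_iff hc (by omega) hb hb12 (by omega) h3).mpr (le_refl _)
    have h5 : ¬ exU c (tm c t) (lev c t b) b := by
      intro h
      have := (exU_iff hc ht0 hb hb12 (by omega) h3).mp h
      omega
    have := huniq false (lev c t b) ⟨hb, hb12, by omega, h3, by simp⟩
      ⟨by rw [exE_iff]; simpa using h5, by rw [exE_iff]; simpa using h4⟩
    exact hne this.2
  have hnD : l ≤ lg c b → ¬ exD c t l b := by
    intro hl2 h
    have h5 : ¬ exD c (tm c t) l b := fun h5 => n1 (exU_of_exD hc hb hj h5)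
    have := huniq true l ⟨hb, hb12, hj, by omega, fun _ => hl2⟩
      ⟨by rw [exE_iff]; simpa using h5, by rw [exE_iff]; simpa using h⟩
    exact absurd this.1 (by simp)
  have hP : isP c t b := by
    rcases Nat.lt_or_ge (lg c b) l with h4 | h4
    · left
      have : l = lg c b + 1 := by omega
      rw [this] at n2
      exact n2
    · right
      rw [hlev]
      exact ⟨hj, hnD h4⟩
  have hge : j0 c b < l - 1 → l - 1 ≤ lev c (tm c t) b := by
    intro h4
    have h5 : exU c t (l - 1) b := exU_down hc (by omega) hb h4 (by omega) hl n2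
    by_contra h6
    have h7 : ¬ exU c (tm c t) (l - 1) b := fun h =>
      h6 ((exU_iff hc ht0 hb hb12 h4 (by omega)).mp h)
    have := huniq false (l - 1) ⟨hb, hb12, h4, by omega, by simp⟩
      ⟨by rw [exE_iff]; simpa using h7, by rw [exE_iff]; simpa using h5⟩
    omega
  have hcs := lev_cases (c := c) (tm c t) b hb12
  have hjj := jn_le_j0 c b
  refine ⟨hlev, hP, by omega, ?_⟩
  rcases Nat.lt_or_ge (j0 c b) (l - 1) with h4 | h4
  · have h5 : exD c t (l - 1) b := by
      apply exD_of_exU_succ hc (by omega) h4 (by omega)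
      rwa [Nat.sub_add_cancel (by omega)]
    have h6 : exD c (tm c t) (l - 1) b := by
      by_contra h7
      have := huniq true (l - 1) ⟨hb, hb12, h4, by omega, fun _ => by omega⟩
        ⟨by rw [exE_iff]; simpa using h7, by rw [exE_iff]; simpa using h5⟩
      exact absurd this.1 (by simp)
    rcases (exD_iff hc ht0 hb hb12 h4 (by omega)).mp h6 with h7 | h7
    · omega
    · exact h7.2
  · exact not_isP_of_lev hb12 (by omega)

/-- a new down event -/
lemma new_down (hc : 10 ≤ c) {t l b : ℕ} (ht : 9 ≤ epo c t) (hv : vld c true l b)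
    (hn : newE c t true l b) :
    lev c t b = l ∧ ¬ isP c t b ∧ lev c (tm c t) b = l ∧ isP c (tm c t) b := by
  have hE := epo_tm hc ht
  have ht0 : 8 ≤ epo c (tm c t) := by omega
  have htt := tm_le c t
  have huniq : ∀ d' l', vld c d' l' b → newE c t d' l' b → d' = true ∧ l' = l := by
    intro d' l' h1 h2
    have := newE_unique hc ht h1 hv h2 hn
    exact ⟨this.1, this.2.1⟩
  have hv' := hv
  obtain ⟨hb, hb12, hj, hl, hl2⟩ := hv'
  have hl2 := hl2 rfl
  have hn' := hn
  obtain ⟨n1, n2⟩ := hn'
  rw [exE_iff] at n1 n2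
  simp only [if_true] at n1 n2
  have hU : exU c t l b := exU_of_exD hc hb hj n2
  have hU0 : exU c (tm c t) l b := by
    by_contra h7
    have := huniq false l ⟨hb, hb12, hj, hl, by simp⟩
      ⟨by rw [exE_iff]; simpa using h7, by rw [exE_iff]; simpa using hU⟩
    exact absurd this.1 (by simp)
  have h0 : ¬ (l < lev c (tm c t) b ∨ (l = lev c (tm c t) b ∧ ¬ isP c (tm c t) b)) := fun h =>
    n1 ((exD_iff hc ht0 hb hb12 hj hl2).mpr h)
  push Not at h0
  have h1 := (exU_iff hc ht0 hb hb12 hj hl).mp hU0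
  have hlev0 : lev c (tm c t) b = l := by omega
  have hP0 := h0.2 hlev0.symm
  have h2 := (exU_iff hc (by omega) hb hb12 hj hl).mp hU
  have hlev : lev c t b = l := by
    by_contra hne
    have h4 : exU c t (l + 1) b :=
      (exU_iff hc (by omega) hb hb12 (by omega) (by omega)).mpr (by omega)
    have h5 : ¬ exU c (tm c t) (l + 1) b := by
      intro h
      have := (exU_iff hc ht0 hb hb12 (l := l + 1) (by omega) (by omega)).mp h
      omega
    have := huniq false (l + 1) ⟨hb, hb12, by omega, by omega, by simp⟩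
      ⟨by rw [exE_iff]; simpa using h5, by rw [exE_iff]; simpa using h4⟩
    exact absurd this.1 (by simp)
  refine ⟨hlev, ?_, hlev0, hP0⟩
  rcases (exD_iff hc (by omega) hb hb12 hj hl2).mp n2 with h7 | h7
  · omega
  · exact h7.2

/-- the unit `b` is in transition at the time `t` -/
def acts (c t b : ℕ) : Prop := ¬ (isP c (tm c t) b ↔ isP c t b)

/-- a unit in transition has a new event -/
lemma exists_new (hc : 10 ≤ c) {t b : ℕ} (ht : 9 ≤ epo c t) (hb : un c b = b)
    (h : acts c t b) : 16 ≤ lg c b ∧ tm c t < 8 * b ∧ ∃ d l, vld c d l b ∧ newE c t d l b := by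
  have hE := epo_tm hc ht
  have ht0 : 8 ≤ epo c (tm c t) := by omega
  have hf : ¬ fin c (tm c t) b := fun hf => h
    ⟨fun _ => Or.inl (fin_mono (tm_le c t) hf), fun _ => Or.inl hf⟩
  obtain ⟨h1, -, h2⟩ := big_of_not_fin hc ht0 hf
  refine ⟨h2, h1, ?_⟩
  by_contra hn
  push Not at hn
  exact h (same_of_no_new hc ht hb (by omega) hn).2

lemma acts_unique (hc : 10 ≤ c) {t b b' : ℕ} (ht : 9 ≤ epo c t) (hb : un c b = b)
    (hb' : un c b' = b') (h : acts c t b) (h' : acts c t b') : b = b' := by
  obtain ⟨-, -, d, l, hv, hn⟩ := exists_new hc ht hb h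
  obtain ⟨-, -, d', l', hv', hn'⟩ := exists_new hc ht hb' h'
  exact (newE_unique hc ht hv hv' hn hn').2.2

/-- if the unit is not in transition then its state does not change -/
lemma same_of_not_acts (hc : 10 ≤ c) {t b : ℕ} (ht : 9 ≤ epo c t) (hb : un c b = b)
    (h : ¬ acts c t b) :
    lev c (tm c t) b = lev c t b ∧ (isP c (tm c t) b ↔ isP c t b) := by
  have h2 : isP c (tm c t) b ↔ isP c t b := by unfold acts at h; exact not_not.mp h
  refine ⟨?_, h2⟩
  by_cases hf : fin c (tm c t) b
  · rw [lev_of_fin hf, lev_of_fin (fin_mono (tm_le c t) hf)]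
  · have hE := epo_tm hc ht
    obtain ⟨-, -, h3⟩ := big_of_not_fin hc (by omega) hf
    by_cases hn : ∃ d l, vld c d l b ∧ newE c t d l b
    · exfalso
      obtain ⟨d, l, hv, hn⟩ := hn
      cases d with
      | false =>
        have := new_up hc ht hv hn
        tauto
      | true =>
        have := new_down hc ht hv hn
        tauto
    · push Not at hn
      exact (same_of_no_new hc ht hb (by omega) hn).1

/-- the possible transitions of a unit -/
lemma acts_cases (hc : 10 ≤ c) {t b : ℕ} (ht : 9 ≤ epo c t) (hb : un c b = b)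
    (h : acts c t b) :
    16 ≤ lg c b ∧ tm c t < 8 * b ∧ ph c t < 3 ∧ tm c t = sst c t - 1 ∧
    ((isP c t b ∧ ¬ isP c (tm c t) b ∧
        ((j0 c b < lev c (tm c t) b ∧ lev c (tm c t) b + 1 = lev c t b) ∨
          (lev c t b = j0 c b + 1 ∧ lev c (tm c t) b = ep c b)) ∧
        Ut c (lev c t b) b ≤ sst c t ∧ lev c (tm c t) b ≤ lg c b ∧
        cls c (gl c (lev c t b) b) = scl c t) ∨
      (¬ isP c t b ∧ isP c (tm c t) b ∧ lev c t b = lev c (tm c t) b ∧
        Dt c (lev c t b) b ≤ sst c t ∧ lev c t b ≤ lg c b ∧ j0 c b < lev c t b ∧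
        cls c (gl c (lev c t b) b) = scl c t)) := by
  obtain ⟨h1, h2, d, l, hv, hn⟩ := exists_new hc ht hb h
  have hn' := hn
  obtain ⟨n1, n2⟩ := hn'
  have hne : opp c (cls c (gl c l b)) t ≠ opp c (cls c (gl c l b)) (tm c t) := by omega
  obtain ⟨a1, a2, a3, a4⟩ := opp_tm_change hc (by omega) hne
  refine ⟨h1, h2, a3, a4, ?_⟩
  have hv' := hv
  obtain ⟨-, -, hj, hl, hl2⟩ := hv'
  cases d with
  | false =>
    left
    obtain ⟨b1, b2, b3, b4⟩ := new_up hc ht hv hn
    have hjj := jn_le_j0 c b
    have hjl := j0_le_lg (c := c) (b := b) (by omega)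
    refine ⟨b2, b4, by omega, ?_, by omega, ?_⟩
    · rw [b1]
      simp only [evt, Bool.false_eq_true, if_false] at n2
      omega
    · rw [b1]; exact a2
  | true =>
    right
    obtain ⟨b1, b2, b3, b4⟩ := new_down hc ht hv hn
    refine ⟨b2, b4, by omega, ?_, ?_, by omega, ?_⟩
    · rw [b1]
      simp only [evt, if_true] at n2
      omega
    · rw [b1]; exact hl2 rfl
    · rw [b1]; exact a2

end Pool.Agent.Helper29.E2
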