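import Mathlib
import Pool.Agent.Helper29.ETK.NearT
import Pool.Agent.Helper29.E2.Grid

/-!
# E-T (MP_12a1af_nt), phase 2: the lengths of units, mid blocks, small cells and phases
-/

namespace Pool.Agent.Helper29.E2

open Pool.Agent.Helper29.ETK

variable {c : ℕ}

lemma kk_big (hc : 10 ≤ c) {e : ℕ} (he : 8 ≤ e) : 19 + kk e ≤ c * (e - 4) := by
  have key : ∀ e, 8 ≤ e → 8 * (3 * e + 10) ≤ 2 ^ (10 * (e - 4) - 19) := by
    intro e he
    induction e, he using Nat.le_induction with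
    | base => norm_num
    | succ n hn ih =>
      have e1 : 10 * (n + 1 - 4) - 19 = (10 * (n - 4) - 19) + 10 := by omega
      rw [e1, pow_add]
      have : (2:ℕ) ^ 10 = 1024 := by norm_num
      rw [this]
      omega
  have h1 : kk e ≤ 10 * (e - 4) - 19 := Nat.clog_le_of_le_pow (key e he)
  have h2 : 10 * (e - 4) ≤ c * (e - 4) := Nat.mul_le_mul_right _ hc
  omega

lemma kk_mono {E E' : ℕ} (h : E ≤ E') : kk E ≤ kk E' := by
  unfold kk
  exact Nat.clog_mono_right 2 (by omega)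

lemma four_le_kk (E : ℕ) : 4 ≤ kk E := by
  have h := le_two_kk E
  by_contra hn
  have : 2 ^ kk E ≤ 2 ^ 3 := Nat.pow_le_pow_right (by norm_num) (by omega)
  omega

lemma CC_pow (c n : ℕ) : CC c ^ n = 2 ^ (c * n) := by
  unfold CC
  rw [← pow_mul]

lemma hh_pos (c e : ℕ) : 0 < hh c e := by unfold hh; positivity

lemma ll_pos (c e : ℕ) : 0 < ll c e := by unfold ll; positivity

/-- products with the epoch -/
lemma mul_sub_eq {c e k : ℕ} (hk : k ≤ e) : c * (e - k) + c * k = c * e := by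
  rw [← mul_add]; congr 1; omega

/-- a mid block consists of `2 ^ 9 * CC c ^ 8` small cells -/
lemma hh_eq (hc : 10 ≤ c) {e : ℕ} (he : 8 ≤ e) : hh c e = 2 ^ 9 * CC c ^ 8 * ll c e := by
  have h := kk_big hc he
  have e3 := mul_sub_eq (c := c) (e := e) (k := 3) (by omega)
  have e4 := mul_sub_eq (c := c) (e := e) (k := 4) (by omega)
  have e5 : c * (e + 4) = c * e + c * 4 := by ring
  unfold hh ll
  rw [CC_pow, ← pow_add, ← pow_add]
  congr 1
  omega

lemma ll_dvd_hh (hc : 10 ≤ c) {e : ℕ} (he : 8 ≤ e) : ll c e ∣ hh c e := by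
  rw [hh_eq hc he]
  exact Dvd.intro_left _ rfl

lemma hh_dvd_pow (hc : 10 ≤ c) {e : ℕ} (hk : 4 * c ≤ kk e + 10) : hh c e ∣ CC c ^ e := by
  unfold hh
  rw [CC_pow]
  apply pow_dvd_pow
  have e5 : c * (e + 4) = c * e + c * 4 := by ring
  omega

/-- four mid blocks are not longer than a unit -/
lemma hh_le_pow (hc : 10 ≤ c) {e : ℕ} (he : 8 ≤ e) (hk : 4 * c ≤ kk e + 8) :
    4 * hh c e ≤ CC c ^ e := by
  have h := kk_big hc he
  have e4 := mul_sub_eq (c := c) (e := e) (k := 4) (by omega)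
  have e5 : c * (e + 4) = c * e + c * 4 := by ring
  unfold hh
  rw [CC_pow]
  calc 4 * 2 ^ (c * (e + 4) - 10 - kk e) = 2 ^ (2 + (c * (e + 4) - 10 - kk e)) := by
        rw [pow_add]; norm_num
    _ ≤ _ := Nat.pow_le_pow_right (by norm_num) (by omega)

lemma Gq_dvd_hh (hc : 10 ≤ c) {E e : ℕ} (hE : 4 ≤ E) (he : 8 ≤ e) (hEe : E ≤ e) :
    16 * Gq c E ∣ hh c e := by
  have h := kk_big hc he
  have h1 : 16 * Gq c E ∣ 16 * Gq c e := Nat.mul_dvd_mul_left _ (Gq_dvd_of_le hc hE hEe)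
  refine h1.trans ?_
  have e1 := mul_sub_eq (c := c) (e := e) (k := 1) (by omega)
  have e4 := mul_sub_eq (c := c) (e := e) (k := 4) (by omega)
  have e5 : c * (e + 4) = c * e + c * 4 := by ring
  unfold hh Gq
  have : (16:ℕ) = 2 ^ 4 := by norm_num
  rw [this, ← pow_add]
  apply pow_dvd_pow
  omega

/-- much more precisely -/
lemma Gq_le_hh (hc : 10 ≤ c) {E e : ℕ} (hE : 4 ≤ E) (he : 8 ≤ e) (hEe : E ≤ e) :
    CC c ^ 5 * Gq c E ≤ hh c e := by
  have h := kk_big hc he
  have h1 : Gq c E ≤ Gq c e := Gq_mono hc hE hEe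
  refine (Nat.mul_le_mul_left _ h1).trans ?_
  have e1 := mul_sub_eq (c := c) (e := e) (k := 1) (by omega)
  have e4 := mul_sub_eq (c := c) (e := e) (k := 4) (by omega)
  have e5 : c * (e + 4) = c * e + c * 4 := by ring
  unfold hh Gq
  rw [CC_pow, ← pow_add]
  apply Nat.pow_le_pow_right (by norm_num)
  omega

lemma sixteen_Gq_dvd_Tq (c E : ℕ) : 16 * Gq c E ∣ Tq c E := by
  have h := four_le_kk E
  unfold Tq
  have : (2:ℕ) ^ kk E = 2 * 2 ^ (kk E - 1) := by
    obtain ⟨m, hm⟩ : ∃ m, kk E = m + 1 := ⟨kk E - 1, by omega⟩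
    rw [hm, Nat.add_sub_cancel, pow_succ]; ring
  rw [this]
  exact ⟨2 ^ (kk E - 1), by ring⟩

lemma Gq_dvd_pow (hc : 10 ≤ c) {E l : ℕ} (hE : 4 ≤ E) (hl : E - 1 ≤ l) :
    16 * Gq c E ∣ CC c ^ l := (sixteen_Gq_dvd_Tq c E).trans (Tq_dvd hc hE hl)

lemma Gq_le_pow (hc : 10 ≤ c) {E l : ℕ} (hE : 4 ≤ E) (hl : E ≤ l) :
    100000 * (CC c * Gq c E) ≤ CC c ^ l := by
  have h1 := Gq_le c E
  have h2 := Tq_eq (c := c) hc hE
  have h3 := pow_succ_pred (c := c) (l := E) (by omega)
  have h4 := pow_le c hl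
  have h5 : 128 * (CC c * Tq c E) = CC c ^ E := by
    calc 128 * (CC c * Tq c E) = CC c * (128 * Tq c E) := by ring
      _ = CC c ^ E := by rw [h2, ← h3]
  have h6 : CC c * (640 * Gq c E) ≤ CC c * Tq c E := Nat.mul_le_mul_left _ h1
  have h7 : CC c * (640 * Gq c E) = 640 * (CC c * Gq c E) := by ring
  have h8 := CC_ge hc
  have h9 : 0 < CC c * Gq c E := Nat.mul_pos (CC_pos c) (Gq_pos c E)
  -- `128 * 640 = 81920`
  have h10 : 81920 * (CC c * Gq c E) ≤ CC c ^ E := by omega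
  by_cases hk : 8 * (3 * E + 10) ≤ 2 ^ kk E
  · -- the number of classes is at least `176`
    have h11 : 176 * (8 * Gq c E) ≤ Tq c E := by
      unfold Tq
      have : 176 ≤ 2 ^ kk E := by omega
      calc 176 * (8 * Gq c E) = 8 * Gq c E * 176 := by ring
        _ ≤ _ := Nat.mul_le_mul_left _ this
    have h12 : CC c * (176 * (8 * Gq c E)) ≤ CC c * Tq c E := Nat.mul_le_mul_left _ h11
    have h13 : CC c * (176 * (8 * Gq c E)) = 1408 * (CC c * Gq c E) := by ring
    omega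
  · exact absurd (le_two_kk E) hk

/-- the small cells are short -/
lemma ll_le_Gq (hc : 10 ≤ c) {E e : ℕ} (hE : 8 ≤ E) (hE1 : E ≤ e) (he : e ≤ E + 1) :
    512 * (CC c * ll c e) ≤ Gq c (E - 1) := by
  have h := kk_big hc (show 8 ≤ e by omega)
  have h' := kk_le hc (show 4 ≤ E - 1 by omega)
  have hkk : kk (E - 1) ≤ kk e := kk_mono (by omega)
  have e1 := mul_sub_eq (c := c) (e := E) (k := 2) (by omega)
  have e0 : E - 1 - 1 = E - 2 := by omega
  have e3 := mul_sub_eq (c := c) (e := e) (k := 3) (by omega)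
  have e4 := mul_sub_eq (c := c) (e := e) (k := 4) (by omega)
  have e5 : c * (e - 3) ≤ c * (E - 2) := Nat.mul_le_mul_left _ (by omega)
  rw [e0] at h'
  unfold ll Gq
  rw [e0]
  have : (512:ℕ) = 2 ^ 9 := by norm_num
  rw [this]
  unfold CC
  rw [← pow_add, ← pow_add]
  apply Nat.pow_le_pow_right (by norm_num)
  omega

lemma gridU (c : ℕ) (hc : 10 ≤ c) : Grid c (fun e => CC c ^ e) 0 where
  pos := fun e => pow_pos' c e
  dvd := fun e _ => pow_dvd' c (by omega)
  start := fun e _ => pow_dvd' c (by omega)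

lemma gridH (c : ℕ) (hc : 10 ≤ c) : Grid c (hh c) 8 where
  pos := hh_pos c
  dvd := by
    intro e he
    have h := kk_big hc he
    have h1 := kk_succ e
    have e4 := mul_sub_eq (c := c) (e := e) (k := 4) (by omega)
    have e5 : c * (e + 4) = c * e + c * 4 := by ring
    have e6 : c * (e + 1 + 4) = c * e + c * 4 + c := by ring
    unfold hh
    apply pow_dvd_pow
    omega
  start := by
    intro e he
    have e5 : c * (e + 4) = c * e + c * 4 := by ring
    have e6 : c * 4 ≤ c * e := Nat.mul_le_mul_left _ (by omega)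
    have e7 : c * (2 * e) = c * e + c * e := by ring
    unfold hh
    rw [CC_pow]
    apply pow_dvd_pow
    omega

lemma gridL (c : ℕ) (hc : 10 ≤ c) : Grid c (ll c) 8 where
  pos := ll_pos c
  dvd := by
    intro e he
    have h := kk_big hc he
    have h1 := kk_succ e
    have e3 := mul_sub_eq (c := c) (e := e) (k := 3) (by omega)
    have e3' := mul_sub_eq (c := c) (e := e + 1) (k := 3) (by omega)
    have e4 := mul_sub_eq (c := c) (e := e) (k := 4) (by omega)
    have e6 : c * (e + 1) = c * e + c := by ring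
    unfold ll
    apply pow_dvd_pow
    omega
  start := by
    intro e he
    have e3 := mul_sub_eq (c := c) (e := e) (k := 3) (by omega)
    have e7 : c * (2 * e) = c * e + c * e := by ring
    unfold ll
    rw [CC_pow]
    apply pow_dvd_pow
    omega

lemma un_eq_gs (c s : ℕ) : un c s = gs c (fun e => CC c ^ e) s := rfl

lemma mb_eq_gs (c s : ℕ) : mb c s = gs c (hh c) s := rfl

lemma sb_eq_gs (c s : ℕ) : sb c s = gs c (ll c) s := rfl

/-- positions which are close to the time -/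
lemma ep_of_near (hc : 10 ≤ c) {s t : ℕ} (ht : 8 ≤ epo c t) (h1 : s ≤ t) (h2 : t < 8 * s) :
    epo c t ≤ ep c s ∧ ep c s ≤ epo c t + 1 ∧ 16 ≤ lg c s := by
  obtain ⟨h3, h4⟩ := ep_ge_of_alive hc ht h2
  refine ⟨h3, ?_, h4⟩
  have h5 := lg_mono (c := c) h1
  have h6 := lg_of_epo (c := c) (t := t) rfl (by omega)
  unfold ep
  omega

end Pool.Agent.Helper29.E2
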