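import Mathlib
import Pool.Agent.Helper29.E2.Win

/-!
# E-T (MP_12a1af_nt), phase 2: the runs of `kid`
-/

namespace Pool.Agent.Helper29.E2

open Pool.Agent.Helper29.ETK

variable {c : ℕ}

/-- the unit `b` belongs to a `P` region -/
def isM (c t b : ℕ) : Prop := isP c (tm c t) b ∨ isP c t b

instance (c t b : ℕ) : Decidable (isM c t b) := by unfold isM; infer_instance

/-- anchor of the `P` region of the unit `b` -/
def gM (c t b : ℕ) : ℕ := if isP c (tm c t) b then ga c (tm c t) b else ga c t b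

/-- top of the `R` region next to the unit in transition -/
def vM (c t b : ℕ) : ℕ := if isP c (tm c t) b then va c t b else va c (tm c t) b

lemma kid_eq (c t s : ℕ) : kid c t s =
    if isM c t (un c s) then kidP c t (gM c t (un c s)) else kidR c t (va c t (un c s)) := by
  unfold kid isM gM
  by_cases h1 : isP c (tm c t) (un c s)
  · simp [h1]
  · by_cases h2 : isP c t (un c s) <;> simp [h1, h2]

lemma ga_of_fin (hc : 10 ≤ c) {t b : ℕ} (h : fin c t b) : ga c t b = 0 := by
  unfold ga
  rw [lev_of_fin h, gl_top hc]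

lemma big_of_not_isP (hc : 10 ≤ c) {t b : ℕ} (ht : 8 ≤ epo c t) (h : ¬ isP c t b) :
    t < 8 * b ∧ epo c t ≤ ep c b ∧ 16 ≤ lg c b :=
  big_of_not_fin hc ht (fun hf => h (Or.inl hf))

lemma isP_of_not_acts (hc : 10 ≤ c) {t b : ℕ} (ht : 9 ≤ epo c t) (hb : un c b = b)
    (h : ¬ acts c t b) (hP : isP c t b) : isP c (tm c t) b ∧ gM c t b = ga c t b := by
  have h1 := same_of_not_acts hc ht hb h
  have h2 := h1.2.mpr hP
  refine ⟨h2, ?_⟩
  unfold gM
  rw [if_pos h2]
  unfold ga
  rw [h1.1]

/-- below a unit of a `P` region -/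
lemma isM_below (hc : 10 ≤ c) {t b b' : ℕ} (ht : 9 ≤ epo c t) (hb : un c b = b)
    (hb' : un c b' = b') (hM : isM c t b) (h1 : gM c t b ≤ b') (h2 : b' ≤ b) :
    isM c t b' ∧ gM c t b' = gM c t b := by
  have hE := epo_tm hc ht
  by_cases hP0 : isP c (tm c t) b
  · have hg : gM c t b = ga c (tm c t) b := by unfold gM; rw [if_pos hP0]
    rw [hg] at h1 ⊢
    have key : isP c (tm c t) b' ∧ ga c (tm c t) b' = ga c (tm c t) b := by
      by_cases hf : fin c (tm c t) b
      · have hf' := fin_below hc h2 hf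
        exact ⟨Or.inl hf', by rw [ga_of_fin hc hf, ga_of_fin hc hf']⟩
      · obtain ⟨-, -, hbig⟩ := big_of_not_fin hc (by omega) hf
        obtain ⟨k1, k2, k3⟩ := isP_below hc (by omega) hb hb' (by omega) hf hP0 h1 h2
        refine ⟨k1, ?_⟩
        unfold ga
        rw [k2, k3]
    refine ⟨Or.inl key.1, ?_⟩
    unfold gM
    rw [if_pos key.1, key.2]
  · have hP : isP c t b := by
      rcases hM with h | h
      · exact absurd h hP0
      · exact h
    rcases Nat.eq_or_lt_of_le h2 with rfl | h2'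
    · exact ⟨hM, rfl⟩
    have ha : acts c t b := fun h => hP0 (h.mpr hP)
    have ha' : ¬ acts c t b' := fun h => by
      have := acts_unique hc ht hb hb' ha h
      omega
    have hg : gM c t b = ga c t b := by unfold gM; rw [if_neg hP0]
    rw [hg] at h1 ⊢
    have key : isP c t b' ∧ ga c t b' = ga c t b := by
      by_cases hf : fin c t b
      · have hf' := fin_below hc h2 hf
        exact ⟨Or.inl hf', by rw [ga_of_fin hc hf, ga_of_fin hc hf']⟩
      · obtain ⟨-, -, hbig⟩ := big_of_not_fin hc (by omega) hf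
        obtain ⟨k1, k2, k3⟩ := isP_below hc (by omega) hb hb' (by omega) hf hP h1 h2
        refine ⟨k1, ?_⟩
        unfold ga
        rw [k2, k3]
    obtain ⟨k1, k2⟩ := isP_of_not_acts hc ht hb' ha' key.1
    exact ⟨Or.inl k1, by rw [k2, key.2]⟩

/-- above a unit of an `R` region -/
lemma not_isM_above (hc : 10 ≤ c) {t b b' : ℕ} (ht : 9 ≤ epo c t) (hb : un c b = b)
    (hb' : un c b' = b') (hM : ¬ isM c t b) (h1 : b ≤ b') (h2 : b' < va c t b) :
    ¬ isM c t b' ∧ va c t b' = va c t b := by
  have hE := epo_tm hc ht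
  unfold isM at hM
  push Not at hM
  obtain ⟨hP0, hP⟩ := hM
  have ha : ¬ acts c t b := fun h => h ⟨fun h1 => absurd h1 hP0, fun h1 => absurd h1 hP⟩
  have hs := same_of_not_acts hc ht hb ha
  obtain ⟨-, -, hbig⟩ := big_of_not_isP hc (by omega) hP
  have hva : va c (tm c t) b = va c t b := by unfold va; rw [hs.1]
  obtain ⟨k1, k2, k3⟩ := not_isP_above hc (by omega) hb hb' (by omega) hP h1 h2
  obtain ⟨m1, -, -⟩ := not_isP_above hc (t := tm c t) (by omega) hb hb' (by omega) hP0 h1
    (by rw [hva]; exact h2)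
  refine ⟨?_, ?_⟩
  · rintro (h | h)
    · exact m1 h
    · exact k1 h
  · unfold va
    rw [k2, k3]

/-! ### the unit in transition -/

lemma isM_of_acts {t b : ℕ} (h : acts c t b) : isM c t b := by
  unfold acts at h
  unfold isM
  tauto

lemma gM_eq_gl (hc : 10 ≤ c) {t b : ℕ} (ht : 9 ≤ epo c t) (hb : un c b = b)
    (h : acts c t b) : gM c t b = gl c (lev c t b) b := by
  obtain ⟨-, -, -, -, h1 | h1⟩ := acts_cases hc ht hb h
  · unfold gM
    rw [if_neg h1.2.1]
    rfl
  · unfold gM
    rw [if_pos h1.2.1]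
    unfold ga
    rw [h1.2.2.1]

/-- position of the transition in its cell -/
lemma acts_pos (hc : 10 ≤ c) {t b : ℕ} (ht : 9 ≤ epo c t) (hb : un c b = b)
    (h : acts c t b) : gM c t b ≤ b ∧ b + Wd c b ≤ vM c t b ∧ b < wb c t ∧
      vM c t b ≤ wb c t ∧
      ∃ l, ep c b ≤ l ∧ l ≤ lg c b ∧ vM c t b = gl c l b + CC c ^ l ∧
        l ≤ lev c t b ∧ j0 c b < lev c t b ∧
        (lev c t b ≤ l + 1 ∨ (l = ep c b ∧ lev c t b = j0 c b + 1)) ∧
        (l = ep c b ∨ (j0 c b < l ∧ Dt c l b ≤ t)) := by
  have hE := epo_tm hc ht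
  have hg := gM_eq_gl hc ht hb h
  obtain ⟨hbig, h8, hph, htm, hcase⟩ := acts_cases hc ht hb h
  have hbw : b < wb c t := by
    have hle : b + 5 * CC c ^ j0 c b ≤ t := by
      rcases hcase with h1 | h1
      · obtain ⟨-, -, h4, h5, h6, -⟩ := h1
        have h7 : b + 5 * CC c ^ (lev c t b - 1) ≤ Ut c (lev c t b) b := by
          unfold Ut
          have := le_sl c (b + Wd c b - gl c (lev c t b) b)
          have := gl_le c (lev c t b) b
          omega
        have h9 : CC c ^ j0 c b ≤ CC c ^ (lev c t b - 1) := pow_le c (by omega)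
        have := sst_le c t
        omega
      · obtain ⟨-, -, h4, h5, h6, h6', -⟩ := h1
        have h7 : b + 5 * CC c ^ (lev c t b - 1) ≤ Dt c (lev c t b) b := by
          unfold Dt
          have := le_sl c (2 * CC c ^ lev c t b + gl c (lev c t b) b - b)
          have := lt_gl c (lev c t b) b
          have := gl_le c (lev c t b) b
          omega
        have h9 : CC c ^ j0 c b ≤ CC c ^ (lev c t b - 1) := pow_le c (by omega)
        have := sst_le c t
        omega
    have h10 := tU_le hc hb (by unfold ep; omega) (le_refl 3)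
    have h11 : Wd c b ≤ CC c ^ j0 c b := pow_le c (by unfold j0; omega)
    exact (lt_wb_iff hc ht hb).mpr (by omega)
  have main : ∃ l, ep c b ≤ l ∧ l ≤ lg c b ∧ vM c t b = gl c l b + CC c ^ l ∧
        l ≤ lev c t b ∧ j0 c b < lev c t b ∧
        (lev c t b ≤ l + 1 ∨ (l = ep c b ∧ lev c t b = j0 c b + 1)) ∧
        (l = ep c b ∨ (j0 c b < l ∧ Dt c l b ≤ t)) := by
    have hjj := jn_le_j0 c b
    rcases hcase with h1 | h1
    · obtain ⟨h2, h3, h4, h5, h6, -⟩ := h1
      have hj := jn_le_lev (c := c) (tm c t) b (by omega)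
      refine ⟨lev c (tm c t) b, hj, h6, ?_, by omega, by omega, by omega, ?_⟩
      · unfold vM
        rw [if_neg h3]
        rfl
      · rcases lev_cases (c := c) (tm c t) b (by omega) with h7 | h7
        · left; exact h7
        · right
          refine ⟨h7, ?_⟩
          have h8 := (exD_iff hc (t := tm c t) (by omega) hb (by omega) h7 h6).mpr
            (Or.inr ⟨rfl, h3⟩)
          have h9 := opp_le c (cls c (gl c (lev c (tm c t) b) b)) (tm c t)
          have h10 := tm_le c t
          unfold exD at h8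
          omega
    · obtain ⟨h2, h3, h4, h5, h6, h7, -⟩ := h1
      refine ⟨lev c t b, by omega, h6, ?_, le_refl _, h7, by omega, ?_⟩
      · unfold vM
        rw [if_pos h3]
        rfl
      · right
        have := sst_le c t
        exact ⟨h7, by omega⟩
  refine ⟨by rw [hg]; exact gl_le _ _ _, ?_, hbw, ?_, main⟩
  · obtain ⟨l, h1, h2, h3, -⟩ := main
    rw [h3]
    exact un_add_le hb (by omega)
  · obtain ⟨l, h1, h2, h3, -, -, -, h4⟩ := main
    rw [h3]
    apply cell_le_wb hc ht (by omega) hbw h2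
    rcases h4 with h4 | h4
    · left; exact h4
    · right
      refine ⟨h4.1, le_trans ?_ h4.2⟩
      unfold Dt
      have := le_sl c (2 * CC c ^ l + gl c l b - b)
      have := lt_gl c l b
      omega

/-- the `R` part of the cell in transition -/
lemma acts_above (hc : 10 ≤ c) {t b b' : ℕ} (ht : 9 ≤ epo c t) (hb : un c b = b)
    (hb' : un c b' = b') (h : acts c t b) (h1 : b < b') (h2 : b' < vM c t b) :
    ¬ isP c t b' ∧ ¬ isP c (tm c t) b' ∧ va c t b' = vM c t b ∧
      va c (tm c t) b' = vM c t b := by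
  have hE := epo_tm hc ht
  have ha' : ¬ acts c t b' := fun h' => by
    have := acts_unique hc ht hb hb' h h'
    omega
  have hs := same_of_not_acts hc ht hb' ha'
  have hva : va c (tm c t) b' = va c t b' := by unfold va; rw [hs.1]
  obtain ⟨hbig, -, -, -, hcase⟩ := acts_cases hc ht hb h
  rcases hcase with h3 | h3
  · obtain ⟨h4, h5, -⟩ := h3
    have hv : vM c t b = va c (tm c t) b := by unfold vM; rw [if_neg h5]
    rw [hv] at h2 ⊢
    obtain ⟨k1, k2, k3⟩ := not_isP_above hc (t := tm c t) (by omega) hb hb' (by omega) h5 h1.le h2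
    have e : va c (tm c t) b' = va c (tm c t) b := by unfold va; rw [k2, k3]
    exact ⟨fun h => k1 (hs.2.mpr h), k1, by rw [← hva, e], e⟩
  · obtain ⟨h4, h5, -⟩ := h3
    have hv : vM c t b = va c t b := by unfold vM; rw [if_pos h5]
    rw [hv] at h2 ⊢
    obtain ⟨k1, k2, k3⟩ := not_isP_above hc (by omega) hb hb' (by omega) h4 h1.le h2
    have e : va c t b' = va c t b := by unfold va; rw [k2, k3]
    exact ⟨k1, fun h => k1 (hs.2.mp h), e, by rw [hva, e]⟩

/-- the `P` part of the cell in transition ends with the unit in transition -/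
lemma le_of_gM_eq (hc : 10 ≤ c) {t b b' : ℕ} (ht : 9 ≤ epo c t) (hb : un c b = b)
    (hb' : un c b' = b') (h : acts c t b) (hM : isM c t b') (hg : gM c t b' = gM c t b) :
    b' ≤ b := by
  by_contra hlt
  have hE := epo_tm hc ht
  have ha' : ¬ acts c t b' := fun h' => by
    have := acts_unique hc ht hb hb' h h'
    omega
  have hs := same_of_not_acts hc ht hb' ha'
  have hP' : isP c t b' := by
    rcases hM with h1 | h1
    · exact hs.2.mp h1
    · exact h1
  obtain ⟨hP0', hg'⟩ := isP_of_not_acts hc ht hb' ha' hP'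
  obtain ⟨hgb, -⟩ := acts_pos hc ht hb h
  have hga : ga c (tm c t) b' = ga c t b' := by unfold ga; rw [hs.1]
  obtain ⟨hbig, -, -, -, hcase⟩ := acts_cases hc ht hb h
  rcases hcase with h3 | h3
  · -- the unit `b` is not `P` before
    apply h3.2.1
    by_cases hf : fin c (tm c t) b'
    · exact Or.inl (fin_below hc (by omega) hf)
    · obtain ⟨-, -, hbig'⟩ := big_of_not_fin hc (by omega) hf
      exact (isP_below hc (t := tm c t) (by omega) hb' hb (by omega) hf hP0' (by omega)
        (by omega)).1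
  · apply h3.1
    by_cases hf : fin c t b'
    · exact Or.inl (fin_below hc (by omega) hf)
    · obtain ⟨-, -, hbig'⟩ := big_of_not_fin hc (by omega) hf
      exact (isP_below hc (by omega) hb' hb (by omega) hf hP' (by omega) (by omega)).1

/-- an `R` region with the top of the cell in transition is the `R` part of this cell -/
lemma lt_of_va_eq (hc : 10 ≤ c) {t b b' : ℕ} (ht : 9 ≤ epo c t) (hb : un c b = b)
    (hb' : un c b' = b') (h : acts c t b) (hM : ¬ isM c t b') (hg : va c t b' = vM c t b) :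
    b < b' := by
  by_contra hlt
  obtain ⟨-, h1, -⟩ := acts_pos hc ht hb h
  have hW := Wd_pos c b
  have := not_isM_above hc ht hb' hb hM (by omega) (by omega)
  exact this.1 (isM_of_acts h)

lemma ab_spec (hc : 10 ≤ c) {t : ℕ} (ht : 9 ≤ epo c t) (h : 0 < ab c t) :
    un c (ab c t) = ab c t ∧ acts c t (ab c t) :=
  Nat.findGreatest_of_ne_zero
    (P := fun b => un c b = b ∧ ¬ (isP c (tm c t) b ↔ isP c t b)) rfl (by
      change ab c t ≠ 0
      omega)

lemma ab_eq (hc : 10 ≤ c) {t b : ℕ} (ht : 9 ≤ epo c t) (hb : un c b = b)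
    (h : acts c t b) : ab c t = b ∧ 0 < b := by
  obtain ⟨h15, -⟩ := acts_cases hc ht hb h
  have hb0 : b ≠ 0 := by rintro rfl; simp [lg] at h15
  obtain ⟨-, -, hbw, -⟩ := acts_pos hc ht hb h
  have h1 : b ≤ ab c t :=
    Nat.le_findGreatest (by have := wb_le hc ht; omega) ⟨hb, h⟩
  have h2 := ab_spec hc ht (by omega)
  exact ⟨acts_unique hc ht h2.1 hb h2.2 h, by omega⟩

lemma ag_eq (c t : ℕ) : ag c t = gM c t (ab c t) := rfl

lemma av_eq (c t : ℕ) : av c t = vM c t (ab c t) := rfl

lemma ak_lt (hc : 10 ≤ c) {t : ℕ} (ht : 9 ≤ epo c t) (h : 0 < ab c t) : ak c t < 3 := by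
  obtain ⟨h1, h2⟩ := ab_spec hc ht h
  obtain ⟨-, -, h3, -⟩ := acts_cases hc ht h1 h2
  unfold ak
  split_ifs <;> omega

/-- tops of `R` regions -/
lemma va_pos (hc : 10 ≤ c) {t b : ℕ} (ht : 9 ≤ epo c t) (hb : un c b = b) (hbw : b < wb c t)
    (hP : ¬ isP c t b) : b + Wd c b ≤ va c t b ∧ va c t b ≤ wb c t ∧
      ep c b ≤ lev c t b ∧ lev c t b ≤ lg c b ∧
      (lev c t b = ep c b ∨ (j0 c b < lev c t b ∧ Dt c (lev c t b) b ≤ t)) := by
  obtain ⟨-, -, hbig⟩ := big_of_not_isP hc (by omega) hP
  have h1 := jn_le_lev (c := c) t b (by omega)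
  have h2 := lev_le_of_not_isP (by omega) hP
  have h3 : lev c t b = ep c b ∨ (j0 c b < lev c t b ∧ Dt c (lev c t b) b ≤ t) := by
    rcases lev_cases (c := c) t b (by omega) with h7 | h7
    · left; exact h7
    · right
      have h8 := (exD_iff hc (by omega) hb (by omega) h7 h2).mpr (Or.inr ⟨rfl, hP⟩)
      have h9 := opp_le c (cls c (gl c (lev c t b) b)) t
      unfold exD at h8
      exact ⟨h7, by omega⟩
  refine ⟨?_, ?_, h1, h2, h3⟩
  · unfold va
    exact un_add_le hb (by omega)
  · unfold va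
    apply cell_le_wb hc ht (by omega) hbw h2
    rcases h3 with h4 | h4
    · left; exact h4
    · right
      refine ⟨h4.1, le_trans ?_ h4.2⟩
      unfold Dt
      have := le_sl c (2 * CC c ^ lev c t b + gl c (lev c t b) b - b)
      have := lt_gl c (lev c t b) b
      omega

end Pool.Agent.Helper29.E2
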