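import Mathlib
import Pool.Agent.Helper29.E2.KidC

/-!
# E-T (MP_12a1af_nt), phase 2: the cell in transition
-/

namespace Pool.Agent.Helper29.E2

open Pool.Agent.Helper29.ETK

open Pool.Agent.ETS (IsRest)

variable {c : ℕ}

/-! ### rest states -/

/-- the kind of a position at rest -/
def rk (c t s : ℕ) : Kid :=
  if isP c t (un c s) then .P (ga c t (un c s)) else .RTh (va c t (un c s))

lemma rk_congr {t t' : ℕ} (h : sameO c t t') (s : ℕ) : rk c t s = rk c t' s := by
  unfold rk
  by_cases h1 : isP c t (un c s)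
  · rw [if_pos h1, if_pos ((isP_congr h).mp h1), ga_congr h]
  · rw [if_neg h1, if_neg (fun h2 => h1 ((isP_congr h).mpr h2)), va_congr h]

lemma isRest_rk (c t s : ℕ) : IsRest (rk c t s) := by
  unfold rk
  split_ifs
  · trivial
  · trivial

lemma rk_un (hc : 10 ≤ c) (t s : ℕ) : rk c t (un c s) = rk c t s := by
  unfold rk
  rw [un_un hc]

/-- units which are not in transition -/
lemma rk_tm (hc : 10 ≤ c) {t s : ℕ} (ht : 9 ≤ epo c t) (h : ¬ acts c t (un c s)) :
    rk c (tm c t) s = rk c t s := by
  obtain ⟨h1, h2⟩ := same_of_not_acts hc ht (un_un hc s) h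
  unfold rk ga va
  rw [h1]
  by_cases h3 : isP c t (un c s)
  · rw [if_pos h3, if_pos (h2.mpr h3)]
  · rw [if_neg h3, if_neg (fun h4 => h3 (h2.mp h4))]

/-- a unit which is not in transition -/
lemma isM_iff_of_not_acts (hc : 10 ≤ c) {t b : ℕ} (h : ¬ acts c t b) :
    isM c t b ↔ isP c t b := by
  have h2 : isP c (tm c t) b ↔ isP c t b := by unfold acts at h; exact not_not.mp h
  unfold isM
  rw [h2, or_self_iff]

lemma gM_of_not_acts (hc : 10 ≤ c) {t b : ℕ} (ht : 9 ≤ epo c t) (hb : un c b = b)
    (h : ¬ acts c t b) : gM c t b = ga c t b := by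
  obtain ⟨h1, h2⟩ := same_of_not_acts hc ht hb h
  unfold gM
  split_ifs
  · unfold ga; rw [h1]
  · rfl

/-- no transition: all positions are at rest -/
lemma kid_rest (hc : 10 ≤ c) {t : ℕ} (ht : 9 ≤ epo c t) (h : ∀ b, un c b = b → ¬ acts c t b)
    (s : ℕ) : kid c t s = rk c t s := by
  have h0 : ¬ 0 < ab c t := fun h0 => by
    have := ab_spec hc ht h0
    exact h _ this.1 this.2
  have h1 := h _ (un_un hc s)
  have h2 := isM_iff_of_not_acts hc h1
  have h3 := gM_of_not_acts hc ht (un_un hc s) h1
  rw [kid_eq]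
  unfold rk
  by_cases h4 : isP c t (un c s)
  · rw [if_pos (h2.mpr h4), if_pos h4, h3]
    unfold kidP
    rw [if_neg (fun h5 => h0 h5.1)]
  · rw [if_neg (fun h5 => h4 (h2.mp h5)), if_neg h4]
    unfold kidR
    rw [if_neg (fun h5 => h0 h5.1)]

lemma not_acts_of_ph {t : ℕ} (h : 3 ≤ ph c t) (b : ℕ) : ¬ acts c t b := by
  have : tm c t = t := by unfold tm; rw [if_neg (by omega)]
  unfold acts
  rw [this]
  simp

/-! ### the cell in transition -/

/-- the time independent facts about a cell in transition -/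
structure CellS (c g b v : ℕ) : Prop where
  hg : g ≤ b
  hb : b + Wd c b ≤ v
  ub : un c b = b
  uv : un c v = v
  db : Wd c b ∣ b
  dg : Wd c b ∣ g
  dv : Wd c b ∣ v
  db' : Wd c (b + Wd c b) ∣ b + Wd c b
  dv' : Wd c (b + Wd c b) ∣ v
  epg : g = 0 ∨ ep c g = ep c b

lemma cellS (hc : 10 ≤ c) {t b : ℕ} (ht : 9 ≤ epo c t) (hb : un c b = b) (h : acts c t b) :
    CellS c (gM c t b) b (vM c t b) := by
  obtain ⟨p1, p2, p3, p4, l, q1, q2, q3, -⟩ := acts_pos hc ht hb h
  have h12 := (acts_cases hc ht hb h).1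
  have hj : ep c b ≤ l := by omega
  obtain ⟨n1, n2⟩ := un_next hc hb (by omega) q1 q2 q3
  have hW := Wd_pos c b
  have hd := Wd_dvd_gM hc ht hb (isM_of_acts h) (s' := b) (by omega) (by omega)
  exact
    { hg := p1
      hb := p2
      ub := hb
      uv := un_eq_iff.mpr (n2 _ p2 (le_refl _)).1
      db := un_eq_iff.mp hb
      dg := hd.1
      dv := by
        rw [q3]
        exact Dvd.dvd.add ((Wd_dvd_pow hj).trans (dvd_gl c l b)) (Wd_dvd_pow hj)
      db' := un_eq_iff.mp n1
      dv' := (n2 _ (le_refl _) p2).2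
      epg := by
        rcases hd.2 with h1 | h1
        · exact Or.inl h1
        · exact Or.inr h1.2 }

/-- the `P` part of the cell in transition -/
lemma cell_low (hc : 10 ≤ c) {t b s : ℕ} (ht : 9 ≤ epo c t) (hb : un c b = b)
    (h : acts c t b) (h1 : gM c t b ≤ s) (h2 : s < b + Wd c b) :
    isM c t (un c s) ∧ gM c t (un c s) = gM c t b := by
  have hM : isM c t (un c b) := by rw [hb]; exact isM_of_acts h
  rcases Nat.lt_or_ge b s with h3 | h3
  · rw [eq_of_mem_unit hc hb h3.le h2]
    exact ⟨isM_of_acts h, rfl⟩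
  · have h4 := isM_below' hc ht hM (s' := s) (by rw [hb]; exact h1) h3
    rw [hb] at h4
    exact h4

/-- `kid` on the cell in transition -/
lemma kid_cell (hc : 10 ≤ c) {t b s : ℕ} (ht : 9 ≤ epo c t) (hb : un c b = b)
    (h : acts c t b) (h1 : gM c t b ≤ s) (h2 : s < vM c t b) :
    kid c t s = cellKid c (gM c t b) b (vM c t b) (ak c t + 1) s := by
  obtain ⟨hab, hb0⟩ := ab_eq hc ht hb h
  have hak := ak_lt hc ht (by omega)
  have hag : ag c t = gM c t b := by rw [ag_eq, hab]
  have hav : av c t = vM c t b := by rw [av_eq, hab]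
  rcases Nat.lt_or_ge s (b + Wd c b) with h3 | h3
  · obtain ⟨k1, k2⟩ := cell_low hc ht hb h h1 h3
    rw [kid_of_isM k1, k2]
    unfold kidP cellKid
    have h4 : ak c t = 0 ∨ ak c t = 1 ∨ ak c t = 2 := by omega
    rcases h4 with h4 | h4 | h4
    · rw [h4, hab, hag]; simp [h3, hb0]
    · rw [h4, hab, hag]; simp [h3]
    · rw [h4, hab, hag]; simp [h3]
  · obtain ⟨k1, k2, -⟩ := kid_above_acts hc ht hb h h3 h2
    rw [kid_of_not_isM k1, k2]
    unfold kidR cellKid
    have h3' : ¬ s < b + Wd c b := by omega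
    have h4 : ak c t = 0 ∨ ak c t = 1 ∨ ak c t = 2 := by omega
    rcases h4 with h4 | h4 | h4
    · rw [h4, hab, hav]; simp [h3', hb0]
    · rw [h4, hab, hav]; simp [h3', hb0]
    · rw [h4, hab, hav]; simp [h3', hb0]

lemma vM_eq (hc : 10 ≤ c) {t b : ℕ} : vM c t b = if isP c (tm c t) b then va c t b else
    va c (tm c t) b := rfl

/-- the rest states before and after a transition, on the cell -/
lemma rk_cell (hc : 10 ≤ c) {t b s : ℕ} (ht : 9 ≤ epo c t) (hb : un c b = b)
    (h : acts c t b) (h1 : gM c t b ≤ s) (h2 : s < vM c t b) :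
    (isP c t b → rk c (tm c t) s = cellKid c (gM c t b) b (vM c t b) 0 s ∧
      rk c t s = cellKid c (gM c t b) b (vM c t b) 4 s) ∧
    (¬ isP c t b → rk c (tm c t) s = cellKid c (gM c t b) b (vM c t b) 4 s ∧
      rk c t s = cellKid c (gM c t b) b (vM c t b) 0 s) := by
  have hW := Wd_pos c b
  rcases Nat.lt_or_ge s (b + Wd c b) with h3 | h3
  · obtain ⟨k1, k2⟩ := cell_low hc ht hb h h1 h3
    rcases Nat.lt_or_ge s b with h4 | h4
    · -- strictly below the unit `b`
      have hne : un c s ≠ b := by have := un_le c s; omega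
      have hna : ¬ acts c t (un c s) := fun h5 => hne (acts_unique hc ht (un_un hc s) hb h5 h)
      have hP : isP c t (un c s) := (isM_iff_of_not_acts hc hna).mp k1
      have hg := gM_of_not_acts hc ht (un_un hc s) hna
      have e1 : rk c t s = .P (gM c t b) := by
        unfold rk
        rw [if_pos hP, ← hg, k2]
      have e0 : rk c (tm c t) s = .P (gM c t b) := by rw [rk_tm hc ht hna, e1]
      rw [e0, e1]
      unfold cellKid
      simp [h3, h4]
    · -- in the unit `b`
      have he := eq_of_mem_unit hc hb h4 h3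
      have h4' : ¬ s < b := by omega
      constructor
      · intro hP
        have hP0 : ¬ isP c (tm c t) b := fun h5 => h ⟨fun _ => hP, fun _ => h5⟩
        unfold rk cellKid
        rw [he, if_neg hP0, if_pos hP]
        have e1 : gM c t b = ga c t b := by unfold gM; rw [if_neg hP0]
        have e2 : vM c t b = va c (tm c t) b := by unfold vM; rw [if_neg hP0]
        rw [e1, e2]
        simp [h3, h4']
      · intro hP
        have hP0 : isP c (tm c t) b := by
          by_contra h5
          exact h ⟨fun h6 => absurd h6 h5, fun h6 => absurd h6 hP⟩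
        unfold rk cellKid
        rw [he, if_pos hP0, if_neg hP]
        have e1 : gM c t b = ga c (tm c t) b := by unfold gM; rw [if_pos hP0]
        have e2 : vM c t b = va c t b := by unfold vM; rw [if_pos hP0]
        rw [e1, e2]
        simp [h3, h4']
  · obtain ⟨k1, k2, k3, k4, k5⟩ := kid_above_acts hc ht hb h h3 h2
    have h3' : ¬ s < b + Wd c b := by omega
    have h4' : ¬ s < b := by omega
    unfold rk cellKid
    rw [if_neg k3, if_neg k4, k2, k5]
    simp [h3', h4']

/-- outside of the cell in transition everything is at rest -/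
lemma kid_outside (hc : 10 ≤ c) {t b s : ℕ} (ht : 9 ≤ epo c t) (hb : un c b = b)
    (h : acts c t b) (hs : s < wb c t) (h1 : s < gM c t b ∨ vM c t b ≤ s) :
    kid c t s = rk c t s ∧ rk c (tm c t) s = rk c t s ∧ un c s ≠ b := by
  obtain ⟨hab, hb0⟩ := ab_eq hc ht hb h
  have hag : ag c t = gM c t b := by rw [ag_eq, hab]
  have hav : av c t = vM c t b := by rw [av_eq, hab]
  obtain ⟨p1, p2, p3, p4, -⟩ := acts_pos hc ht hb h
  have hus := un_le c s
  have hls := lt_un c s
  have hne : un c s ≠ b := by
    intro h2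
    have h3 : Wd c s = Wd c b := by rw [← h2, Wd_un hc]
    omega
  have hna : ¬ acts c t (un c s) := fun h5 => hne (acts_unique hc ht (un_un hc s) hb h5 h)
  refine ⟨?_, rk_tm hc ht hna, hne⟩
  have h2 := isM_iff_of_not_acts hc hna
  have h3 := gM_of_not_acts hc ht (un_un hc s) hna
  rw [kid_eq]
  unfold rk
  by_cases h4 : isP c t (un c s)
  · have hM := h2.mpr h4
    rw [if_pos hM, if_pos h4, ← h3]
    rcases kidP_cases c t (gM c t (un c s)) with h5 | h5
    · exact h5.1
    · exfalso
      obtain ⟨-, -, h6, -⟩ := h5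
      have h7 : gM c t (un c s) = gM c t b := by rw [← h6, hag]
      have h8 := le_of_gM_eq hc ht hb (un_un hc s) h hM h7
      have h9 := gM_le hc ht (un_un hc s) hM
      have h10 := unit_add_le hc (un_un hc s) hb (by omega)
      rw [Wd_un hc] at h10
      omega
  · have hM : ¬ isM c t (un c s) := fun h5 => h4 (h2.mp h5)
    rw [if_neg hM, if_neg h4]
    have key : va c t (un c s) ≠ av c t := by
      intro h6
      have h8 := lt_of_va_eq hc ht hb (un_un hc s) h hM (by rw [h6, hav])
      have h9 := unit_add_le hc hb (un_un hc s) h8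
      have h10 := (va_pos hc ht (un_un hc s) (by omega) h4).1
      rw [Wd_un hc] at h10
      omega
    rcases kidR_cases c t (va c t (un c s)) with h5 | h5 | h5
    · exact h5.1
    · exact absurd h5.2.2.1.symm key
    · exact absurd h5.2.2.1.symm key

lemma ga_le (c t b : ℕ) : ga c t b ≤ b := gl_le _ _ _

lemma lt_va (c t b : ℕ) : b < va c t b := lt_gl _ _ _

/-- the cuts at the ends of the cell, for the rest states -/
lemma rk_cuts (hc : 10 ≤ c) {t b τ : ℕ} (ht : 9 ≤ epo c t) (hb : un c b = b)
    (h : acts c t b) (hτ : τ = t ∨ τ = tm c t) :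
    (gM c t b = 0 ∨ rk c τ (gM c t b - 1) ≠ rk c τ (gM c t b)) ∧
      rk c τ (vM c t b - 1) ≠ rk c τ (vM c t b) := by
  have hS := cellS hc ht hb h
  have hW := Wd_pos c b
  obtain ⟨p1, p2, p3, p4, -⟩ := acts_pos hc ht hb h
  have hcell : ∀ s, gM c t b ≤ s → s < vM c t b →
      rk c τ s = cellKid c (gM c t b) b (vM c t b) 0 s ∨
      rk c τ s = cellKid c (gM c t b) b (vM c t b) 4 s := by
    intro s h1 h2
    have h3 := rk_cell hc ht hb h h1 h2
    by_cases hP : isP c t b
    · rcases hτ with rfl | rfl
      · exact Or.inr (h3.1 hP).2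
      · exact Or.inl (h3.1 hP).1
    · rcases hτ with rfl | rfl
      · exact Or.inl (h3.2 hP).2
      · exact Or.inr (h3.2 hP).1
  -- translation for a unit which is not in transition
  have hP' : ∀ s x, ¬ acts c t (un c s) → rk c τ s = .P x →
      isM c t (un c s) ∧ gM c t (un c s) = x := by
    intro s x hna hx
    have h1 : rk c t s = .P x := by
      rcases hτ with rfl | rfl
      · exact hx
      · rw [← rk_tm hc ht hna]; exact hx
    unfold rk at h1
    by_cases h4 : isP c t (un c s)
    · rw [if_pos h4] at h1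
      refine ⟨(isM_iff_of_not_acts hc hna).mpr h4, ?_⟩
      rw [gM_of_not_acts hc ht (un_un hc s) hna]
      simpa using h1
    · rw [if_neg h4] at h1
      simp at h1
  have hR' : ∀ s x, ¬ acts c t (un c s) → rk c τ s = .RTh x →
      ¬ isM c t (un c s) ∧ va c t (un c s) = x := by
    intro s x hna hx
    have h1 : rk c t s = .RTh x := by
      rcases hτ with rfl | rfl
      · exact hx
      · rw [← rk_tm hc ht hna]; exact hx
    unfold rk at h1
    by_cases h4 : isP c t (un c s)
    · rw [if_pos h4] at h1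
      simp at h1
    · rw [if_neg h4] at h1
      refine ⟨fun h5 => h4 ((isM_iff_of_not_acts hc hna).mp h5), ?_⟩
      simpa using h1
  constructor
  · rcases Nat.eq_zero_or_pos (gM c t b) with h0 | h0
    · exact Or.inl h0
    right
    intro heq
    have hne : un c (gM c t b - 1) ≠ b := by have := un_le c (gM c t b - 1); omega
    have hna : ¬ acts c t (un c (gM c t b - 1)) := fun h5 =>
      hne (acts_unique hc ht (un_un hc _) hb h5 h)
    have hfirst : rk c τ (gM c t b) = .P (gM c t b) ∨ rk c τ (gM c t b) = .RTh (vM c t b) := by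
      rcases hcell _ (le_refl _) (by omega) with h1 | h1
      · rw [h1]
        unfold cellKid
        simp only [if_true]
        split_ifs
        · exact Or.inl rfl
        · exact Or.inr rfl
      · rw [h1]
        unfold cellKid
        have : gM c t b < b + Wd c b := by omega
        simp [this]
    rcases hfirst with h1 | h1
    · have h2 := hP' (gM c t b - 1) _ hna (heq.trans h1)
      have h3 := gM_le hc ht (un_un hc _) h2.1
      have h4 := un_le c (gM c t b - 1)
      omega
    · have h2 := hR' (gM c t b - 1) _ hna (heq.trans h1)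
      have h3 := lt_of_va_eq hc ht hb (un_un hc _) h h2.1 h2.2
      have h4 := un_le c (gM c t b - 1)
      omega
  · intro heq
    have hne : un c (vM c t b) ≠ b := by rw [hS.uv]; omega
    have hna : ¬ acts c t (un c (vM c t b)) := fun h5 =>
      hne (acts_unique hc ht (un_un hc _) hb h5 h)
    have hlast : rk c τ (vM c t b - 1) = .P (gM c t b) ∨
        rk c τ (vM c t b - 1) = .RTh (vM c t b) := by
      rcases hcell (vM c t b - 1) (by omega) (by omega) with h1 | h1
      · rw [h1]
        unfold cellKid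
        simp only [if_true]
        split_ifs
        · exact Or.inl rfl
        · exact Or.inr rfl
      · rw [h1]
        unfold cellKid
        by_cases h2 : vM c t b - 1 < b + Wd c b
        · simp [h2]
        · simp [h2]
    rcases hlast with h1 | h1
    · have h2 := hP' (vM c t b) _ hna (heq.symm.trans h1)
      have h3 := le_of_gM_eq hc ht hb (un_un hc _) h h2.1 h2.2
      rw [hS.uv] at h3
      omega
    · have h2 := hR' (vM c t b) _ hna (heq.symm.trans h1)
      have h3 := lt_va c t (un c (vM c t b))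
      rw [h2.2, hS.uv] at h3
      omega

/-- the same for `kid` at the time of the transition -/
lemma kid_cuts (hc : 10 ≤ c) {t b : ℕ} (ht : 9 ≤ epo c t) (hb : un c b = b)
    (h : acts c t b) :
    (gM c t b = 0 ∨ kid c t (gM c t b - 1) ≠ kid c t (gM c t b)) ∧
      kid c t (vM c t b - 1) ≠ kid c t (vM c t b) := by
  have hS := cellS hc ht hb h
  have hW := Wd_pos c b
  obtain ⟨p1, p2, p3, p4, -⟩ := acts_pos hc ht hb h
  constructor
  · rcases Nat.eq_zero_or_pos (gM c t b) with h0 | h0
    · exact Or.inl h0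
    right
    intro heq
    have h1 := (kid_P_iff t (gM c t b) (gM c t b)).mpr (cell_low hc ht hb h (le_refl _) (by omega))
    rw [← heq] at h1
    have h2 := (kid_P_iff t (gM c t b - 1) (gM c t b)).mp h1
    have h3 := gM_le hc ht (un_un hc _) h2.1
    have h4 := un_le c (gM c t b - 1)
    omega
  · intro heq
    rcases Nat.lt_or_ge (vM c t b - 1) (b + Wd c b) with h3 | h3
    · have h1 := (kid_P_iff t (vM c t b - 1) (gM c t b)).mpr
        (cell_low hc ht hb h (by omega) h3)
      rw [heq] at h1
      have h2 := (kid_P_iff t (vM c t b) (gM c t b)).mp h1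
      have h4 := le_of_gM_eq hc ht hb (un_un hc _) h h2.1 h2.2
      rw [hS.uv] at h4
      omega
    · obtain ⟨k1, k2, -⟩ := kid_above_acts hc ht hb h h3 (by omega)
      have h1 := (kid_R_iff t (vM c t b - 1) (vM c t b)).mpr ⟨k1, k2⟩
      rw [heq] at h1
      have h2 := (kid_R_iff t (vM c t b) (vM c t b)).mp h1
      have h4 := lt_va c t (un c (vM c t b))
      rw [h2.2, hS.uv] at h4
      omega

/-- the cell in transition at its time -/
lemma cellAt_acts (hc : 10 ≤ c) {t b : ℕ} (ht : 9 ≤ epo c t) (hb : un c b = b)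
    (h : acts c t b) : CellAt c t (gM c t b) b (vM c t b) (ak c t + 1) := by
  have hS := cellS hc ht hb h
  obtain ⟨p1, p2, p3, p4, -⟩ := acts_pos hc ht hb h
  obtain ⟨hab, hb0⟩ := ab_eq hc ht hb h
  have hlow := (acts_cases hc ht hb h).2.1
  have hhalf := tm_ge_half hc ht
  exact
    { hg := hS.hg
      hb := hS.hb
      hv := p4
      db := hS.db
      dg := hS.dg
      dv := hS.dv
      db' := hS.db'
      dv' := hS.dv'
      epg := hS.epg
      low := le_pow_mul hc (by omega)
      kid := fun s h1 h2 => kid_cell hc ht hb h h1 h2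
      cutg := (kid_cuts hc ht hb h).1
      cutv := Or.inr (kid_cuts hc ht hb h).2
      out := fun s h1 h2 => by
        rw [(kid_outside hc ht hb h h1 h2).1]
        exact isRest_rk c t s
      av := fun _ => by rw [av_eq, hab] }

/-- the cell at a time of rest just before or after the transition -/
lemma cellAt_rest (hc : 10 ≤ c) {t b τ t' σ : ℕ} (ht : 9 ≤ epo c t) (hb : un c b = b)
    (h : acts c t b) (hτ : τ = t ∨ τ = tm c t) (ht' : 9 ≤ epo c t')
    (hrest : ∀ b, un c b = b → ¬ acts c t' b) (hO : sameO c t' τ)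
    (hw : vM c t b ≤ wb c t') (hwt : t' ≤ 2 * t)
    (hσ : (σ = 0 ∧ ((isP c t b ∧ τ = tm c t) ∨ (¬ isP c t b ∧ τ = t))) ∨
      (σ = 4 ∧ ((isP c t b ∧ τ = t) ∨ (¬ isP c t b ∧ τ = tm c t)))) :
    CellAt c t' (gM c t b) b (vM c t b) σ := by
  have hS := cellS hc ht hb h
  have hlow := (acts_cases hc ht hb h).2.1
  have hhalf := tm_ge_half hc ht
  have hkid : ∀ s, kid c t' s = rk c τ s := fun s => by
    rw [kid_rest hc ht' hrest, rk_congr hO]
  have hcuts := rk_cuts hc ht hb h hτ
  exact
    { hg := hS.hg
      hb := hS.hb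
      hv := hw
      db := hS.db
      dg := hS.dg
      dv := hS.dv
      db' := hS.db'
      dv' := hS.dv'
      epg := hS.epg
      low := le_pow_mul hc (by omega)
      kid := fun s h1 h2 => by
        rw [hkid]
        have h3 := rk_cell hc ht hb h h1 h2
        rcases hσ with ⟨rfl, ⟨h4, rfl⟩ | ⟨h4, rfl⟩⟩ | ⟨rfl, ⟨h4, rfl⟩ | ⟨h4, rfl⟩⟩
        · exact (h3.1 h4).1
        · exact (h3.2 h4).2
        · exact (h3.1 h4).2
        · exact (h3.2 h4).1
      cutg := by
        rcases hcuts.1 with h1 | h1
        · exact Or.inl h1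
        · right; rw [hkid, hkid]; exact h1
      cutv := by right; rw [hkid, hkid]; exact hcuts.2
      out := fun s _ _ => by rw [hkid]; exact isRest_rk c τ s
      av := fun h1 => by omega }

end Pool.Agent.Helper29.E2
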