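import Mathlib
import Pool.Agent.Helper29.E2.Blk

/-!
# E-T (MP_12a1af_nt), phase 2: the top zone at one time
-/

namespace Pool.Agent.Helper29.E2

open Pool.Agent.Helper29.ETK
open Pool.Agent.ETS (IsRest)

variable {c : ℕ}

/-- the standing assumptions -/
structure Big (c t : ℕ) : Prop where
  hc : 10 ≤ c
  ht : 10 ≤ epo c t
  hk : 4 * c ≤ kk (epo c t) + 8

lemma Big.nine {t : ℕ} (h : Big c t) : 9 ≤ epo c t := by have := h.ht; omega

lemma Big.mono {t t' : ℕ} (h : Big c t) (htt : t ≤ t') : Big c t' where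
  hc := h.hc
  ht := h.ht.trans (epo_mono htt)
  hk := by
    have := h.hk
    have := kk_mono (epo_mono (c := c) htt)
    omega

lemma Big.Hd_dvd {t : ℕ} (h : Big c t) {e : ℕ} (he : epo c t ≤ e) : hh c e ∣ CC c ^ e := by
  have := h.hk
  have := kk_mono he
  exact hh_dvd_pow h.hc (by omega)

lemma Big.Hd_le {t : ℕ} (h : Big c t) {s : ℕ} (he : epo c t ≤ ep c s) :
    4 * Hd c s ≤ Wd c s := by
  have := h.hk
  have := h.ht
  have := kk_mono he
  exact hh_le_pow h.hc (by omega) (by omega)

lemma Big.gU {t : ℕ} (h : Big c t) : Grid c (fun e => CC c ^ e) (epo c t) :=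
  (gridU c h.hc).up (Nat.zero_le _)

lemma Big.gH {t : ℕ} (h : Big c t) : Grid c (hh c) (epo c t) :=
  (gridH c h.hc).up (by have := h.ht; omega)

lemma Big.gL {t : ℕ} (h : Big c t) : Grid c (ll c) (epo c t) :=
  (gridL c h.hc).up (by have := h.ht; omega)

lemma Big.LH {t : ℕ} (h : Big c t) : ∀ e, epo c t ≤ e → ll c e ∣ hh c e := fun e he =>
  ll_dvd_hh h.hc (by have := h.ht; omega)

lemma Big.HU {t : ℕ} (h : Big c t) : ∀ e, epo c t ≤ e → hh c e ∣ (fun e => CC c ^ e) e :=
  fun _ he => h.Hd_dvd he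

/-- positions of the top zone -/
structure Pos (c t s : ℕ) : Prop where
  lo : epo c t ≤ ep c s
  hi : ep c s ≤ epo c t + 1

lemma Big.pos {t s : ℕ} (h : Big c t) (h1 : wb c t ≤ s + 1) (h2 : s ≤ t) : Pos c t s := by
  obtain ⟨h3, h4⟩ := ep_top h.hc h.nine h1 h2
  exact ⟨h3, h4⟩

variable {t : ℕ}

/-- the blocks below the unit `wb` are merged -/
lemma Big.wb_le_fb (h : Big c t) : wb c t ≤ fb c t := by
  have hc := h.hc
  have ht := h.nine
  have ht10 := h.ht
  by_contra hn
  obtain ⟨f1, f2⟩ := fb_spec hc t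
  have f3 := eight_le_ep_fb hc ht
  have f4 := tB_le hc f1 f3 (le_refl 3)
  have f5 := (block_facts hc f1 f3).2.2.2.2
  rcases Nat.lt_or_ge (ep c (fb c t)) (epo c t) with h1 | h1
  · have h2 := (ep_lt_iff hc (s := fb c t) (e := epo c t) (by omega)).mp h1
    have h3 := epo_lower (c := c) (t := t) rfl (by omega)
    have h4 := pow_pred_le (c := c) hc (l := 2 * epo c t + 1) (by omega)
    rw [Nat.add_sub_cancel] at h4
    omega
  · have hw := wb_spec hc t
    have hwp := wb_pos hc ht
    have hwt := wb_le hc ht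
    have h2 : mb c (wb c t) = wb c t := by
      have p := h.pos (s := wb c t) (by omega) hwt
      exact h.gH.of_coarse h.gU h.HU p.lo hw.1
    have h3 : fb c t + Hd c (fb c t) ≤ wb c t :=
      h.gH.add_le_of_lt hc (by omega) h1 f1 h2 (by omega)
    have h4 := Hd_mono hc f3 (show fb c t ≤ wb c t - 1 by omega)
    have p := h.pos (s := wb c t - 1) (by omega) (by omega)
    have h5 := h.Hd_le p.lo
    have h6 := wb_add_le hc ht
    omega

/-- nested cells -/
lemma Big.un_mb (h : Big c t) {s : ℕ} (p : Pos c t s) : un c (mb c s) = un c s := by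
  have hc := h.hc
  have ht := h.ht
  have p1 := p.lo
  have h1 : un c (un c s) = un c s := h.gU.gs_gs hc (s := s) (by omega) p.lo
  have h2 : ep c (un c s) = ep c s := h.gU.ep_gs hc (s := s) (by omega) p.lo
  have h3 : un c s ≤ mb c s := h.gH.gs_coarse_le h.gU h.HU p.lo
  have h4 := mb_le c s
  have h5 := lt_un c s
  refine h.gU.gs_of_mem hc (f := un c s) (by omega) (by omega) h1 h3 ?_
  rw [h2]
  have : CC c ^ ep c s = Wd c s := rfl
  omega

lemma Big.mb_sb (h : Big c t) {s : ℕ} (p : Pos c t s) : mb c (sb c s) = mb c s := by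
  have hc := h.hc
  have ht := h.ht
  have p1 := p.lo
  have h1 : mb c (mb c s) = mb c s := h.gH.gs_gs hc (s := s) (by omega) p.lo
  have h2 : ep c (mb c s) = ep c s := h.gH.ep_gs hc (s := s) (by omega) p.lo
  have h3 : mb c s ≤ sb c s := h.gL.gs_coarse_le h.gH h.LH p.lo
  have h4 := sb_le c s
  have h5 := lt_mb hc s
  refine h.gH.gs_of_mem hc (f := mb c s) (by omega) (by omega) h1 h3 ?_
  rw [h2]
  have : hh c (ep c s) = Hd c s := rfl
  omega

lemma Big.ep_un (h : Big c t) {s : ℕ} (p : Pos c t s) : ep c (un c s) = ep c s := by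
  have ht := h.ht
  have p1 := p.lo
  exact h.gU.ep_gs h.hc (by omega) p.lo

lemma Big.ep_mb (h : Big c t) {s : ℕ} (p : Pos c t s) : ep c (mb c s) = ep c s := by
  have ht := h.ht
  have p1 := p.lo
  exact h.gH.ep_gs h.hc (by omega) p.lo

lemma Big.ep_sb (h : Big c t) {s : ℕ} (p : Pos c t s) : ep c (sb c s) = ep c s := by
  have ht := h.ht
  have p1 := p.lo
  exact h.gL.ep_gs h.hc (by omega) p.lo

lemma Big.mb_mb (h : Big c t) {s : ℕ} (p : Pos c t s) : mb c (mb c s) = mb c s := by
  have ht := h.ht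
  have p1 := p.lo
  exact h.gH.gs_gs h.hc (by omega) p.lo

lemma Big.sb_sb (h : Big c t) {s : ℕ} (p : Pos c t s) : sb c (sb c s) = sb c s := by
  have ht := h.ht
  have p1 := p.lo
  exact h.gL.gs_gs h.hc (by omega) p.lo

lemma Big.mb_mono (h : Big c t) {s s' : ℕ} (p : Pos c t s) (hs : s ≤ s') : mb c s ≤ mb c s' := by
  have ht := h.ht
  have p1 := p.lo
  exact h.gH.gs_mono h.hc (by omega) p.lo hs

/-- positions of a unit, mid block, small cell of the top zone -/
lemma Big.un_of_mem (h : Big c t) {s s' : ℕ} (p : Pos c t s) (h1 : un c s ≤ s')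
    (h2 : s' < un c s + Wd c s) : un c s' = un c s ∧ ep c s' = ep c s := by
  have ht := h.ht
  have p1 := p.lo
  have e := h.ep_un p
  have g := h.gU.gs_gs h.hc (s := s) (by omega) p.lo
  exact ⟨h.gU.gs_of_mem h.hc (f := un c s) (by omega) (by omega) g h1 (by rw [e]; exact h2),
    (h.gU.ep_of_mem h.hc (f := un c s) (by omega) (by omega) g h1 (by rw [e]; exact h2)).trans e⟩

lemma Big.mb_of_mem (h : Big c t) {s s' : ℕ} (p : Pos c t s) (h1 : mb c s ≤ s')
    (h2 : s' < mb c s + Hd c s) : mb c s' = mb c s ∧ ep c s' = ep c s := by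
  have ht := h.ht
  have p1 := p.lo
  have e := h.ep_mb p
  have g := h.mb_mb p
  exact ⟨h.gH.gs_of_mem h.hc (f := mb c s) (by omega) (by omega) g h1 (by rw [e]; exact h2),
    (h.gH.ep_of_mem h.hc (f := mb c s) (by omega) (by omega) g h1 (by rw [e]; exact h2)).trans e⟩

lemma Big.sb_of_mem (h : Big c t) {s s' : ℕ} (p : Pos c t s) (h1 : sb c s ≤ s')
    (h2 : s' < sb c s + Ld c s) : sb c s' = sb c s ∧ ep c s' = ep c s := by
  have ht := h.ht
  have p1 := p.lo
  have e := h.ep_sb p
  have g := h.sb_sb p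
  exact ⟨h.gL.gs_of_mem h.hc (f := sb c s) (by omega) (by omega) g h1 (by rw [e]; exact h2),
    (h.gL.ep_of_mem h.hc (f := sb c s) (by omega) (by omega) g h1 (by rw [e]; exact h2)).trans e⟩

/-- `wb` is on all grids -/
lemma Big.wb_grid (h : Big c t) : mb c (wb c t) = wb c t ∧ sb c (wb c t) = wb c t := by
  have hc := h.hc
  have ht := h.nine
  have p := h.pos (s := wb c t) (by omega) (wb_le hc ht)
  have h1 : mb c (wb c t) = wb c t := h.gH.of_coarse h.gU h.HU p.lo (wb_spec hc t).1
  exact ⟨h1, h.gL.of_coarse h.gH h.LH p.lo h1⟩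

/-- `fb` is near the time -/
lemma Big.fb_facts (h : Big c t) : Pos c t (fb c t) ∧ Pos c t (fb c t - 1) ∧
    mb c (fb c t) = fb c t ∧ sb c (fb c t) = fb c t ∧
    t < fb c t + 4 * Hd c (fb c t) ∧ fb c t + 2 * Hd c (fb c t - 1) < t ∧
    fb c t < zb c t := by
  have hc := h.hc
  have ht := h.nine
  have ht10 := h.ht
  obtain ⟨f1, f2⟩ := fb_spec hc t
  have f3 := h.wb_le_fb
  have hwp := wb_pos hc ht
  -- an upper bound for `fb`
  have f4 : fb c t + 2 * Hd c (fb c t - 1) < t ∧ ep c (fb c t - 1) ≥ 8 := by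
    have e8 : 8 ≤ ep c (wb c t - 1) := by
      have p := h.pos (s := wb c t - 1) (by omega) (by have := wb_le hc ht; omega)
      have := p.lo
      omega
    have e9 : ep c (wb c t - 1) ≤ ep c (fb c t - 1) := ep_mono (by omega)
    have g := gridH c hc
    have p1 : mb c (fb c t - 1) + Hd c (fb c t - 1) = fb c t :=
      g.prev hc (by omega) (by omega) f1 (by omega)
    have p2 : mb c (mb c (fb c t - 1)) = mb c (fb c t - 1) :=
      g.gs_gs hc (s := fb c t - 1) (by omega) (by omega)
    have p3 : ep c (mb c (fb c t - 1)) = ep c (fb c t - 1) :=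
      g.ep_gs hc (s := fb c t - 1) (by omega) (by omega)
    have p4 : Hd c (mb c (fb c t - 1)) = Hd c (fb c t - 1) := by unfold Hd; rw [p3]
    have hHp := Hd_pos c (fb c t - 1)
    have p5 := tB_of_lt_fb (c := c) (t := t) p2 (by omega)
    have p6 := lt_tB c 3 (mb c (fb c t - 1))
    rw [p4] at p6
    exact ⟨by omega, by omega⟩
  have q := h.pos (s := fb c t) (by omega) (by omega)
  have q' := h.pos (s := fb c t - 1) (by omega) (by omega)
  refine ⟨q, q', f1, h.gL.of_coarse h.gH h.LH q.lo f1, lt_fb_add hc ht, f4.1, ?_⟩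
  -- below the zone
  obtain ⟨-, -, -, -, -, z1, z2, -, -⟩ := zone_facts hc ht
  have h1 := Gq_le_hh hc (E := epo c t) (e := ep c (fb c t - 1)) (by omega) f4.2 q'.lo
  have h2 := Gq_pred_le hc ht
  have h3 : 1024 * Gq c (epo c t) ≤ CC c ^ 5 * Gq c (epo c t) := by
    apply Nat.mul_le_mul_right
    have h4 := pow_le c (show 1 ≤ 5 by norm_num)
    rw [pow_one] at h4
    exact (CC_ge hc).trans h4
  have h4 : Hd c (fb c t - 1) = hh c (ep c (fb c t - 1)) := rfl
  have h5 := f4.1
  have h6 := Gq_pos c (epo c t)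
  omega

lemma kid2_old {s : ℕ} (hs : s < wb c t) : kid2 c t s = .old (kid c t s) := by
  unfold kid2; rw [if_pos hs]

lemma kid2_top {s : ℕ} (hs : wb c t ≤ s) : kid2 c t s = kidU c t s := by
  unfold kid2; rw [if_neg (by omega)]

/-- the four kinds of positions of the top zone -/
lemma kidU_cases (c t s : ℕ) :
    (tU c 2 (un c s) ≤ t ∧ kidU c t s = .T2 (un c s)) ∨
    (tU c 1 (un c s) ≤ t ∧ t < tU c 2 (un c s) ∧ kidU c t s = .C2 (un c s)) ∨
    (t < tU c 1 (un c s) ∧ tB c 3 (mb c s) ≤ t ∧ kidU c t s = .mid (mb c s)) ∨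
    (t < tU c 1 (un c s) ∧ tB c 2 (mb c s) ≤ t ∧ t < tB c 3 (mb c s) ∧
      kidU c t s = .T1 (mb c s)) ∨
    (t < tU c 1 (un c s) ∧ tB c 1 (mb c s) ≤ t ∧ t < tB c 2 (mb c s) ∧
      kidU c t s = .C1 (mb c s)) ∨
    (t < tU c 1 (un c s) ∧ t < tB c 1 (mb c s) ∧ kidU c t s = .cell (sb c s)) := by
  unfold kidU kidB
  have h1 := tU_mono c (un c s) (show 1 ≤ 2 by norm_num)
  have h2 := tB_mono c (mb c s) (show 1 ≤ 2 by norm_num)
  have h3 := tB_mono c (mb c s) (show 2 ≤ 3 by norm_num)
  split_ifs with a1 a2 a3 a4 a5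
  · exact Or.inl ⟨a1, rfl⟩
  · exact Or.inr (Or.inl ⟨a2, by omega, rfl⟩)
  · exact Or.inr (Or.inr (Or.inl ⟨by omega, a3, rfl⟩))
  · exact Or.inr (Or.inr (Or.inr (Or.inl ⟨by omega, a4, by omega, rfl⟩)))
  · exact Or.inr (Or.inr (Or.inr (Or.inr (Or.inl ⟨by omega, a5, by omega, rfl⟩))))
  · exact Or.inr (Or.inr (Or.inr (Or.inr (Or.inr ⟨by omega, by omega, rfl⟩))))

lemma kidU_congr {s s' : ℕ} (h1 : un c s' = un c s) (h2 : mb c s' = mb c s)
    (h3 : sb c s' = sb c s) : kidU c t s' = kidU c t s := by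
  unfold kidU kidB; rw [h1, h2, h3]

/-- a unit of the top zone in the stages `1, 2` is the first one -/
lemma Big.unit_act (h : Big c t) {s : ℕ} (h1 : wb c t ≤ s) (h2 : tU c 1 (un c s) ≤ t) :
    un c s = wb c t ∧ t < tU c 3 (wb c t) ∧ s < wb c t + Wd c (wb c t) ∧
      wb c t + Wd c (wb c t) ≤ zb c t ∧ wb c t + Wd c (wb c t) ≤ fb c t := by
  have hc := h.hc
  have ht := h.nine
  have ht10 := h.ht
  have hw := wb_spec hc t
  have h3 : wb c t ≤ un c s := by
    have := un_mono hc h1
    rwa [hw.1] at this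
  have h4 : un c s = wb c t := by
    by_contra hne
    have := tU_lt hc hw.1 (un_un hc s) (eight_le_ep_wb hc ht) (by omega : wb c t < un c s)
      (le_refl 3) (j' := 1)
    omega
  have h5 : s < wb c t + Wd c (wb c t) := by
    have := lt_un c s
    rw [← Wd_un hc, h4] at this
    exact this
  rw [h4] at h2
  have h6 := lt_tU c 1 (wb c t)
  obtain ⟨-, -, -, -, -, z1, z2, -⟩ := zone_facts hc ht
  have p := h.pos (s := wb c t) (by omega) (wb_le hc ht)
  have h7 : 1024 * Gq c (epo c t) ≤ Wd c (wb c t) := by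
    have a := Gq_le_pow hc (E := epo c t) (l := ep c (wb c t)) (by omega) p.lo
    have b : 1024 * Gq c (epo c t) ≤ CC c * Gq c (epo c t) := Nat.mul_le_mul_right _ (CC_ge hc)
    have e : Wd c (wb c t) = CC c ^ ep c (wb c t) := rfl
    omega
  have h8 := Gq_pred_le hc ht
  refine ⟨h4, hw.2, h5, by omega, ?_⟩
  -- the blocks of the unit are merged
  by_contra hn
  obtain ⟨f1, f2⟩ := fb_spec hc t
  have f3 := h.wb_le_fb
  have hf := h.fb_facts
  have pf := hf.1
  have e8 := pf.lo
  have f5 : un c (fb c t) = wb c t := eq_of_mem_unit hc hw.1 f3 (by omega)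
  have f6 : ep c (fb c t) = ep c (wb c t) := by
    have := h.ep_un pf
    rw [f5] at this
    exact this.symm
  have f7 : fb c t + Hd c (fb c t) ≤ wb c t + Wd c (wb c t) := by
    have := h.gH.gs_add_coarse h.gU h.HU (s := fb c t) pf.lo
    have e1 : gs c (hh c) (fb c t) = fb c t := f1
    have e2 : gs c (fun e => CC c ^ e) (fb c t) = wb c t := f5
    rw [e1, e2] at this
    have e3 : Wd c (wb c t) = CC c ^ ep c (fb c t) := by rw [f6]; rfl
    rw [e3]
    exact this
  have f8 := h.Hd_le (s := fb c t) pf.lo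
  have f9 : Wd c (fb c t) = Wd c (wb c t) := by unfold Wd; rw [f6]
  have f10 := tB_le hc f1 (by omega) (le_refl 3)
  omega

/-- a block of the top zone in the stages `1, 2` is the first one -/
lemma Big.block_act (h : Big c t) {s : ℕ} (h1 : wb c t ≤ s) (hst : s ≤ t)
    (h2 : tB c 1 (mb c s) ≤ t)
    (h3 : t < tB c 3 (mb c s)) :
    mb c s = fb c t ∧ s < fb c t + Hd c (fb c t) ∧ fb c t + Hd c (fb c t) ≤ zb c t := by
  have hc := h.hc
  have ht := h.nine
  have ht10 := h.ht
  have p := h.pos (s := s) (by omega) hst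
  have hf := fb_spec hc t
  have e8 := eight_le_ep_fb hc ht
  have h4 : mb c s = fb c t := by
    have a : fb c t ≤ mb c s := fb_le_of (h.mb_mb p) h3
    by_contra hne
    have := tB_lt hc hf.1 (h.mb_mb p) e8 (by omega : fb c t < mb c s) (le_refl 3) (j' := 1)
    omega
  have h5 : s < fb c t + Hd c (fb c t) := by
    have a := lt_mb hc s
    have b : Hd c (mb c s) = Hd c s := by unfold Hd; rw [h.ep_mb p]
    rw [← b, h4] at a
    exact a
  rw [h4] at h2
  have h6 := lt_tB c 1 (fb c t)
  obtain ⟨-, -, -, -, -, z1, z2, -⟩ := zone_facts hc ht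
  have pf := h.fb_facts.1
  have h7 : 1024 * Gq c (epo c t) ≤ Hd c (fb c t) := by
    have a := Gq_le_hh hc (E := epo c t) (e := ep c (fb c t)) (by omega) e8 pf.lo
    have b : 1024 * Gq c (epo c t) ≤ CC c ^ 5 * Gq c (epo c t) := by
      apply Nat.mul_le_mul_right
      have h4 := pow_le c (show 1 ≤ 5 by norm_num)
      rw [pow_one] at h4
      exact (CC_ge hc).trans h4
    have e : Hd c (fb c t) = hh c (ep c (fb c t)) := rfl
    omega
  have h8 := Gq_pred_le hc ht
  exact ⟨h4, h5, by omega⟩

lemma Big.zb_le (h : Big c t) : zb c t ≤ wn c t ∧ wn c t ≤ sb c t ∧ sb c t ≤ t := by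
  obtain ⟨-, z1, -, z2, -⟩ := zone_facts h.hc h.nine
  have := sb_le c t
  omega

theorem topOK (h : Big c t) : TopOK c t := by
  have hc := h.hc
  have ht := h.nine
  have ht10 := h.ht
  obtain ⟨z1, z2, z3, z4, z5, z6, z7, z8, -⟩ := zone_facts hc ht
  have hzt := h.zb_le
  obtain ⟨q1, q2, q3, q4, q5, q6, q7⟩ := h.fb_facts
  have hw := wb_spec hc t
  have hfw := h.wb_le_fb
  have hwg := h.wb_grid
  -- positions of the top zone
  have hpos : ∀ s, wb c t ≤ s → s < zb c t → Pos c t s := fun s h1 h2 =>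
    h.pos (by omega) (by omega)
  have hold : ∀ s, s < wb c t → ∃ k, kid2 c t s = .old k := fun s hs => ⟨_, kid2_old hs⟩
  refine
    { wbz := by omega
      sbt := ⟨sb_le c t, lt_sb hc t, z1⟩
      wn1 := ⟨z2, z3⟩
      zb1 := ⟨z4, z5⟩
      ep := ?_
      T2 := ?_
      C2 := ?_
      mid := ?_
      T1 := ?_
      C1 := ?_
      cell := ?_
      mono := ?_
      fb1 := ⟨hfw, q3, q5, by omega⟩
      wb1 := ⟨hw.1, lt_wb_add hc ht, by have := wb_add_le hc ht; omega⟩ }
  · intro s h1 h2
    have p := h.pos (s := s) (by omega) h2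
    exact ⟨p.lo, p.hi⟩
  · -- T2
    intro s b hs hk
    rcases Nat.lt_or_ge s (wb c t) with h1 | h1
    · obtain ⟨k, hk'⟩ := hold s h1
      rw [hk'] at hk
      exact absurd hk (by simp)
    rw [kid2_top h1] at hk
    rcases kidU_cases c t s with a | a | a | a | a | a
    · rw [a.2] at hk
      simp only [Kid2.T2.injEq] at hk
      obtain ⟨k1, k2, k3, k4, k5⟩ := h.unit_act h1 ((tU_mono c _ (by norm_num)).trans a.1)
      have hb : b = wb c t := by rw [← hk, k1]
      subst hb
      refine ⟨rfl, h1, k3, k4, hw.1, by rw [← hk]; exact a.1, k2, fun s' s1 s2 => ?_⟩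
      have e1 := eq_of_mem_unit hc hw.1 s1 s2
      rw [kid2_top s1]
      unfold kidU
      rw [e1, if_pos (by rw [← k1]; exact a.1)]
    · rw [a.2.2] at hk; simp at hk
    · rw [a.2.2] at hk; simp at hk
    · rw [a.2.2.2] at hk; simp at hk
    · rw [a.2.2.2] at hk; simp at hk
    · rw [a.2.2] at hk; simp at hk
  · -- C2
    intro s b hs hk
    rcases Nat.lt_or_ge s (wb c t) with h1 | h1
    · obtain ⟨k, hk'⟩ := hold s h1
      rw [hk'] at hk
      exact absurd hk (by simp)
    rw [kid2_top h1] at hk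
    rcases kidU_cases c t s with a | a | a | a | a | a
    · rw [a.2] at hk; simp at hk
    · rw [a.2.2] at hk
      simp only [Kid2.C2.injEq] at hk
      obtain ⟨k1, k2, k3, k4, k5⟩ := h.unit_act h1 a.1
      have hb : b = wb c t := by rw [← hk, k1]
      subst hb
      refine ⟨rfl, h1, k3, k4, hw.1, by rw [← hk]; exact a.1, by rw [← hk]; exact a.2.1,
        fun s' s1 s2 => ?_⟩
      have e1 := eq_of_mem_unit hc hw.1 s1 s2
      rw [kid2_top s1]
      unfold kidU
      have a2 := a.2.1
      have a1 := a.1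
      rw [k1] at a1 a2
      rw [e1, if_neg (by omega), if_pos a1]
    · rw [a.2.2] at hk; simp at hk
    · rw [a.2.2.2] at hk; simp at hk
    · rw [a.2.2.2] at hk; simp at hk
    · rw [a.2.2] at hk; simp at hk
  · -- mid
    intro s f hs hk
    rcases Nat.lt_or_ge s (wb c t) with h1 | h1
    · obtain ⟨k, hk'⟩ := hold s h1
      rw [hk'] at hk
      exact absurd hk (by simp)
    rw [kid2_top h1] at hk
    have p := hpos s h1 hs
    rcases kidU_cases c t s with a | a | a | a | a | a
    · rw [a.2] at hk; simp at hk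
    · rw [a.2.2] at hk; simp at hk
    · rw [a.2.2] at hk
      simp only [Kid2.mid.injEq] at hk
      subst hk
      have e1 := h.ep_mb p
      have e2 : Hd c (mb c s) = Hd c s := by unfold Hd; rw [e1]
      have g1 : wb c t ≤ mb c s := by
        have pw := h.pos (s := wb c t) (by omega) (wb_le hc ht)
        have := h.mb_mono pw h1
        rwa [hwg.1] at this
      have g2 : mb c s < fb c t := (lt_fb_iff hc ht (h.mb_mb p)).mpr a.2.1
      have g3 : mb c s + Hd c (mb c s) ≤ fb c t :=
        h.gH.add_le_of_lt hc (f := mb c s) (by have := p.lo; omega) (by have := p.lo; omega)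
          (h.mb_mb p) q3 g2
      refine ⟨g1, mb_le c s, by rw [e2]; exact lt_mb hc s, by omega, h.mb_mb p, a.2.1, g2,
        fun s' s1 s2 => ?_⟩
      rw [e2] at s2
      obtain ⟨m1, m2⟩ := h.mb_of_mem p s1 s2
      have p' : Pos c t s' := ⟨by rw [m2]; exact p.lo, by rw [m2]; exact p.hi⟩
      have u1 : un c s' = un c s := by rw [← h.un_mb p', m1, h.un_mb p]
      rw [kid2_top (by omega)]
      unfold kidU kidB
      have a1 := a.1
      have h12 := tU_mono c (un c s) (show 1 ≤ 2 by norm_num)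
      rw [u1, m1, if_neg (by omega), if_neg (by omega), if_pos a.2.1]
    · rw [a.2.2.2] at hk; simp at hk
    · rw [a.2.2.2] at hk; simp at hk
    · rw [a.2.2] at hk; simp at hk
  · -- T1
    intro s f hs hk
    rcases Nat.lt_or_ge s (wb c t) with h1 | h1
    · obtain ⟨k, hk'⟩ := hold s h1
      rw [hk'] at hk
      exact absurd hk (by simp)
    rw [kid2_top h1] at hk
    have p := hpos s h1 hs
    rcases kidU_cases c t s with a | a | a | a | a | a
    · rw [a.2] at hk; simp at hk
    · rw [a.2.2] at hk; simp at hk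
    · rw [a.2.2] at hk; simp at hk
    · rw [a.2.2.2] at hk
      simp only [Kid2.T1.injEq] at hk
      subst hk
      have e1 := h.ep_mb p
      have e2 : Hd c (mb c s) = Hd c s := by unfold Hd; rw [e1]
      obtain ⟨k1, k2, k3⟩ := h.block_act h1 (by omega)
        ((tB_mono c _ (by norm_num)).trans a.2.1) a.2.2.1
      refine ⟨k1, by omega, mb_le c s, by rw [k1]; exact k2, by rw [k1]; exact k3, h.mb_mb p,
        a.2.1, a.2.2.1, fun s' s1 s2 => ?_⟩
      rw [e2] at s2
      obtain ⟨m1, m2⟩ := h.mb_of_mem p s1 s2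
      have p' : Pos c t s' := ⟨by rw [m2]; exact p.lo, by rw [m2]; exact p.hi⟩
      have u1 : un c s' = un c s := by rw [← h.un_mb p', m1, h.un_mb p]
      rw [kid2_top (by omega)]
      unfold kidU kidB
      have a1 := a.1
      have h12 := tU_mono c (un c s) (show 1 ≤ 2 by norm_num)
      rw [u1, m1, if_neg (by omega), if_neg (by omega), if_neg (by omega), if_pos a.2.1]
    · rw [a.2.2.2] at hk; simp at hk
    · rw [a.2.2] at hk; simp at hk
  · -- C1
    intro s f hs hk
    rcases Nat.lt_or_ge s (wb c t) with h1 | h1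
    · obtain ⟨k, hk'⟩ := hold s h1
      rw [hk'] at hk
      exact absurd hk (by simp)
    rw [kid2_top h1] at hk
    have p := hpos s h1 hs
    rcases kidU_cases c t s with a | a | a | a | a | a
    · rw [a.2] at hk; simp at hk
    · rw [a.2.2] at hk; simp at hk
    · rw [a.2.2] at hk; simp at hk
    · rw [a.2.2.2] at hk; simp at hk
    · rw [a.2.2.2] at hk
      simp only [Kid2.C1.injEq] at hk
      subst hk
      have e1 := h.ep_mb p
      have e2 : Hd c (mb c s) = Hd c s := by unfold Hd; rw [e1]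
      have h23 := tB_mono c (mb c s) (show 2 ≤ 3 by norm_num)
      obtain ⟨k1, k2, k3⟩ := h.block_act h1 (by omega) a.2.1 (by omega)
      refine ⟨k1, by omega, mb_le c s, by rw [k1]; exact k2, by rw [k1]; exact k3, h.mb_mb p,
        a.2.1, a.2.2.1, fun s' s1 s2 => ?_⟩
      rw [e2] at s2
      obtain ⟨m1, m2⟩ := h.mb_of_mem p s1 s2
      have p' : Pos c t s' := ⟨by rw [m2]; exact p.lo, by rw [m2]; exact p.hi⟩
      have u1 : un c s' = un c s := by rw [← h.un_mb p', m1, h.un_mb p]
      rw [kid2_top (by omega)]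
      unfold kidU kidB
      have a1 := a.1
      have h12 := tU_mono c (un c s) (show 1 ≤ 2 by norm_num)
      rw [u1, m1, if_neg (by omega), if_neg (by omega), if_neg (by omega), if_neg (by omega),
        if_pos a.2.1]
    · rw [a.2.2] at hk; simp at hk
  · -- cell
    intro s f hs hk
    rcases Nat.lt_or_ge s (wb c t) with h1 | h1
    · obtain ⟨k, hk'⟩ := hold s h1
      rw [hk'] at hk
      exact absurd hk (by simp)
    rw [kid2_top h1] at hk
    have p := hpos s h1 hs
    rcases kidU_cases c t s with a | a | a | a | a | a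
    · rw [a.2] at hk; simp at hk
    · rw [a.2.2] at hk; simp at hk
    · rw [a.2.2] at hk; simp at hk
    · rw [a.2.2.2] at hk; simp at hk
    · rw [a.2.2.2] at hk; simp at hk
    · rw [a.2.2] at hk
      simp only [Kid2.cell.injEq] at hk
      subst hk
      have e1 := h.ep_sb p
      have e2 : Ld c (sb c s) = Ld c s := by unfold Ld; rw [e1]
      have h13 := tB_mono c (mb c s) (show 1 ≤ 3 by norm_num)
      have g0 : fb c t ≤ mb c s := fb_le_of (h.mb_mb p) (by omega)
      have g1 : mb c s ≤ sb c s := h.gL.gs_coarse_le h.gH h.LH p.lo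
      have g2 : sb c s + Ld c (sb c s) ≤ zb c t :=
        h.gL.add_le_of_lt hc (f := sb c s) (by have := p.lo; omega) (by have := p.lo; omega)
          (h.sb_sb p) z5 (by have := sb_le c s; omega)
      refine ⟨by omega, by omega, sb_le c s, by rw [e2]; exact lt_sb hc s, g2, h.sb_sb p,
        fun s' s1 s2 => ?_⟩
      rw [e2] at s2
      obtain ⟨m1, m2⟩ := h.sb_of_mem p s1 s2
      have p' : Pos c t s' := ⟨by rw [m2]; exact p.lo, by rw [m2]; exact p.hi⟩
      have v1 : mb c s' = mb c s := by rw [← h.mb_sb p', m1, h.mb_sb p]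
      have u1 : un c s' = un c s := by rw [← h.un_mb p', v1, h.un_mb p]
      rw [kid2_top (by omega)]
      unfold kidU kidB
      have a1 := a.1
      have a2 := a.2.1
      have h12 := tU_mono c (un c s) (show 1 ≤ 2 by norm_num)
      have h12' := tB_mono c (mb c s) (show 1 ≤ 2 by norm_num)
      rw [u1, v1, m1, if_neg (by omega), if_neg (by omega), if_neg (by omega),
        if_neg (by omega), if_neg (by omega)]
  · -- the order
    intro s s' hss hs'
    rcases Nat.lt_or_ge s (wb c t) with h1 | h1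
    · rw [kid2_old h1]
      exact Nat.zero_le _
    have h1' : wb c t ≤ s' := by omega
    have p := hpos s h1 (by omega)
    have p' := hpos s' h1' hs'
    have hu := un_mono hc hss
    have hm := h.mb_mono p hss
    rw [kid2_top h1, kid2_top h1']
    have h12 := tU_mono c (un c s') (show 1 ≤ 2 by norm_num)
    have h12' := tB_mono c (mb c s') (show 1 ≤ 2 by norm_num)
    have h23' := tB_mono c (mb c s') (show 2 ≤ 3 by norm_num)
    have hwu : wb c t ≤ un c s := by
      have := un_mono hc h1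
      rwa [hw.1] at this
    rcases kidU_cases c t s' with a | a | a | a | a | a
    · -- `T2`
      obtain ⟨k1, -⟩ := h.unit_act h1' (by omega)
      have e : un c s = un c s' := by omega
      rcases kidU_cases c t s with b | b | b | b | b | b
      · rw [b.2, a.2]; simp [rank2]
      · rw [b.2.2, a.2]; simp [rank2]
      · have := b.1; rw [e] at this; omega
      · have := b.1; rw [e] at this; omega
      · have := b.1; rw [e] at this; omega
      · have := b.1; rw [e] at this; omega
    · -- `C2`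
      obtain ⟨k1, -⟩ := h.unit_act h1' (by omega)
      have e : un c s = un c s' := by omega
      rcases kidU_cases c t s with b | b | b | b | b | b
      · rw [b.2, a.2.2]; simp [rank2]
      · rw [b.2.2, a.2.2]; simp [rank2]
      · have := b.1; rw [e] at this; omega
      · have := b.1; rw [e] at this; omega
      · have := b.1; rw [e] at this; omega
      · have := b.1; rw [e] at this; omega
    · -- `mid`
      have g1 : mb c s' < fb c t := (lt_fb_iff hc ht (h.mb_mb p')).mpr a.2.1
      have g2 := tB_of_lt_fb (c := c) (t := t) (h.mb_mb p) (by omega)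
      rcases kidU_cases c t s with b | b | b | b | b | b
      · rw [b.2, a.2.2]; simp [rank2]
      · rw [b.2.2, a.2.2]; simp [rank2]
      · rw [b.2.2, a.2.2]; simp [rank2]
      · have := b.2.2.1; omega
      · have h23 := tB_mono c (mb c s) (show 2 ≤ 3 by norm_num)
        have := b.2.2.1
        omega
      · have h13 := tB_mono c (mb c s) (show 1 ≤ 3 by norm_num)
        have := b.2.1
        omega
    · -- `T1`
      obtain ⟨k1, -⟩ := h.block_act h1' (by omega) (by omega) a.2.2.1
      rcases kidU_cases c t s with b | b | b | b | b | b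
      · rw [b.2, a.2.2.2]; simp [rank2]
      · rw [b.2.2, a.2.2.2]; simp [rank2]
      · rw [b.2.2, a.2.2.2]; simp [rank2]
      · rw [b.2.2.2, a.2.2.2]; simp [rank2]
      · rw [b.2.2.2, a.2.2.2]; simp [rank2]
      · exfalso
        have h13 := tB_mono c (mb c s) (show 1 ≤ 3 by norm_num)
        have b2 := b.2.1
        have g0 : fb c t ≤ mb c s := fb_le_of (h.mb_mb p) (by omega)
        have e : mb c s = mb c s' := by omega
        rw [e] at b2
        have := a.2.1
        omega
    · -- `C1`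
      obtain ⟨k1, -⟩ := h.block_act h1' (by omega) a.2.1 (by have := a.2.2.1; omega)
      rcases kidU_cases c t s with b | b | b | b | b | b
      · rw [b.2, a.2.2.2]; simp [rank2]
      · rw [b.2.2, a.2.2.2]; simp [rank2]
      · rw [b.2.2, a.2.2.2]; simp [rank2]
      · rw [b.2.2.2, a.2.2.2]; simp [rank2]
      · rw [b.2.2.2, a.2.2.2]; simp [rank2]
      · exfalso
        have h13 := tB_mono c (mb c s) (show 1 ≤ 3 by norm_num)
        have b2 := b.2.1
        have g0 : fb c t ≤ mb c s := fb_le_of (h.mb_mb p) (by omega)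
        have e : mb c s = mb c s' := by omega
        rw [e] at b2
        have := a.2.1
        omega
    · -- `cell`
      rw [a.2.2]
      rcases kidU_cases c t s with b | b | b | b | b | b
      · rw [b.2]; simp [rank2]
      · rw [b.2.2]; simp [rank2]
      · rw [b.2.2]; simp [rank2]
      · rw [b.2.2.2]; simp [rank2]
      · rw [b.2.2.2]; simp [rank2]
      · rw [b.2.2]; simp [rank2]

end Pool.Agent.Helper29.E2
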