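import Mathlib
import Pool.Agent.Helper29.E2.Mrg

/-!
# E-T (MP_12a1af_nt), phase 2: the small cell `Omega`
-/

namespace Pool.Agent.Helper29.E2

open Pool.Agent.Helper29.ETK
open Pool.Agent.ETS (IsRest)

variable {c t : ℕ}

/-- the small cells in `[fb, zb)` outside of the block in action -/
lemma Big.omAt_of (h : Big c t) {o : ℕ} (hso : sb c o = o) (hfb : fb c t ≤ o)
    (hact : tB c 1 (fb c t) ≤ t → fb c t + Hd c (fb c t) ≤ o)
    (htop : o + 2 * Ld c o ≤ zb c t) : OmAt c t o := by
  have hc := h.hc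
  have ht := h.nine
  have ht10 := h.ht
  have hw := h.wb_le_fb
  have hz := h.zb_le
  have p : Pos c t o := h.pos (by omega) (by omega)
  refine ⟨hso, by omega, hfb, htop, fun s s1 s2 => ?_⟩
  obtain ⟨m1, m2⟩ := h.sb_of_mem p (s' := s) (by rw [hso]; exact s1) (by rw [hso]; exact s2)
  rw [hso] at m1
  have ps : Pos c t s := ⟨by rw [m2]; exact p.lo, by rw [m2]; exact p.hi⟩
  rw [kid2_top (by omega)]
  have a1 : t < tU c 1 (un c s) := by
    by_contra hn
    obtain ⟨-, -, k3, -, k5⟩ := h.unit_act (s := s) (by omega) (by omega)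
    omega
  have a2 : t < tB c 1 (mb c s) := by
    by_contra hn
    have h0 : fb c t ≤ mb c s := by
      have := h.mb_mono h.fb_facts.1 (show fb c t ≤ s by omega)
      rwa [h.fb_facts.2.2.1] at this
    rcases Nat.lt_or_ge t (tB c 3 (mb c s)) with h3 | h3
    · obtain ⟨k1, k2, k3⟩ := h.block_act (s := s) (by omega) (by omega) (by omega) h3
      rw [k1] at hn
      have := hact (by omega)
      omega
    · have := (lt_fb_iff hc ht (h.mb_mb ps)).mpr h3
      omega
  rcases kidU_cases c t s with a | a | a | a | a | a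
  · have := tU_mono c (un c s) (show 1 ≤ 2 by norm_num); omega
  · omega
  · have := tB_mono c (mb c s) (show 1 ≤ 3 by norm_num); omega
  · have := tB_mono c (mb c s) (show 1 ≤ 2 by norm_num); omega
  · omega
  · rw [a.2.2, m1]

/-- the depth of `pom` -/
lemma pom_depth (hc : 10 ≤ c) {t : ℕ} (ht : 9 ≤ epo c t)
    (hG : 4 * Gq c (eom c t) ≤ t) : pom c t + 2 * Gq c (eom c t) ≤ t + Gq c (eom c t) / 2 ∧
    t + Gq c (eom c t) / 2 < pom c t + 4 * Gq c (eom c t) := by
  have hp := Gq_pos c (eom c t)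
  unfold pom
  generalize Gq c (eom c t) = G at *
  obtain ⟨m, hm⟩ : ∃ m, m = (t + G / 2) / (2 * G) := ⟨_, rfl⟩
  have h1 : 2 * G * m ≤ t + G / 2 := by rw [hm]; exact Nat.mul_div_le _ _
  have h2 : t + G / 2 < 2 * G * m + 2 * G := by
    rw [hm]
    have := Nat.lt_mul_div_succ (t + G / 2) (show 0 < 2 * G by omega)
    rw [mul_add, mul_one] at this
    exact this
  rw [← hm]
  have h3 : m ≠ 0 := by
    rintro rfl
    omega
  obtain ⟨k, rfl⟩ : ∃ k, m = k + 1 := ⟨m - 1, by omega⟩
  rw [Nat.add_sub_cancel]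
  have e : 2 * G * (k + 1) = 2 * G * k + 2 * G := by ring
  omega

/-- the epoch of `Omega` is at most the epoch of the positions of the top zone -/
lemma Big.eom_le (h : Big c t) {s : ℕ} (h1 : wb c t ≤ s + 1) (h2 : s ≤ t) :
    eom c t ≤ ep c s := by
  have hc := h.hc
  have ht := h.nine
  have ht10 := h.ht
  have p := h.pos h1 h2
  rcases eom_cases hc (t := t) (by omega) with h3 | h3
  · rw [h3.1]; exact p.lo
  · rw [h3.1]
    rw [ep_ge_iff hc (by omega)]
    have h4 := wb_near_t hc ht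
    have h5 := Gq_small_t hc ht
    have h6 := pow_pred_le (c := c) hc (l := 2 * epo c t + 3) (by omega)
    have e : 2 * epo c t + 3 - 1 = 2 * (epo c t + 1) := by omega
    rw [e] at h6
    have h7 := pow_pos' c (2 * (epo c t + 1))
    omega

lemma Big.Gq_eom (h : Big c t) {s : ℕ} (h1 : wb c t ≤ s + 1) (h2 : s ≤ t) :
    4096 * Gq c (eom c t) ≤ Hd c s := by
  have hc := h.hc
  have ht := h.nine
  have ht10 := h.ht
  have p := h.pos h1 h2
  have q := p.lo
  have he := h.eom_le h1 h2
  have h0 : epo c t ≤ eom c t := by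
    rcases eom_cases hc (t := t) (by omega) with h3 | h3 <;> omega
  refine le_trans ?_ (Gq_le_hh hc (E := eom c t) (e := ep c s) (by omega) (by omega) he)
  apply Nat.mul_le_mul_right
  have h4 : 1024 ^ 2 ≤ CC c ^ 5 := by
    calc 1024 ^ 2 ≤ CC c ^ 2 := Nat.pow_le_pow_left (CC_ge hc) 2
      _ ≤ CC c ^ 5 := pow_le c (by norm_num)
  norm_num at h4
  omega

/-- the position of `Omega` -/
lemma Big.om_pos (h : Big c t) : fb c t + Hd c (fb c t - 1) ≤ pom c t ∧
    om c t ≤ pom c t ∧ pom c t < om c t + Ld c (om c t) ∧ sb c (om c t) = om c t ∧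
    om c t + 2 * Ld c (om c t) ≤ zb c t ∧ t < pom c t + 4 * Gq c (eom c t) ∧
    1024 * Ld c (om c t) ≤ Gq c (epo c t - 1) ∧ epo c t ≤ ep c (om c t) := by
  have hc := h.hc
  have ht := h.nine
  have ht10 := h.ht
  obtain ⟨q1, q2, q3, q4, q5, q6, q7⟩ := h.fb_facts
  have hw := h.wb_le_fb
  have hG := h.Gq_eom (s := fb c t - 1) (by omega) (by omega)
  have hG1 := Gq_pos c (eom c t)
  have hle : Hd c (fb c t - 1) ≤ t := by omega
  obtain ⟨d1, d2⟩ := pom_depth hc ht (by omega)
  have g1 : fb c t + Hd c (fb c t - 1) ≤ pom c t := by omega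
  have g2 : pom c t ≤ t := by omega
  have p : Pos c t (pom c t) := h.pos (by omega) g2
  have e1 : ep c (om c t) = ep c (pom c t) := h.ep_sb p
  have e2 : Ld c (om c t) = Ld c (pom c t) := by unfold Ld; rw [e1]
  have h3 := Ld_le_Gq hc ht p.lo p.hi
  obtain ⟨-, -, -, -, -, z1, z2, -⟩ := zone_facts hc ht
  have h4 := Gq_pred_le hc ht
  have h5 : Gq c (epo c t) ≤ Gq c (eom c t) := by
    rcases eom_cases hc (t := t) (by omega) with h3 | h3
    · rw [h3.1]
    · rw [h3.1]
      exact Gq_mono hc (by omega) (by omega)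
  have h6 : om c t ≤ pom c t := sb_le c _
  refine ⟨g1, h6, ?_, h.sb_sb p, ?_, by omega, ?_, by rw [e1]; exact p.lo⟩
  · rw [e2]; exact lt_sb hc _
  · rw [e2]; omega
  · rw [e2]; omega

lemma gs_zb (hc : 10 ≤ c) {K K' : ℕ} (ht : 9 ≤ epo c K') (h1 : K' ≤ K) :
    zb c K' ≤ zb c K := by
  have g := gridL c hc
  obtain ⟨-, a1, -, a2, -, -, a3, a4, -⟩ := zone_facts hc ht
  have htK : 9 ≤ epo c K := ht.trans (epo_mono h1)
  have a5 := sb_le c K'
  have hwt := wb_le hc ht
  have b1 := ep_top hc ht (s := K') (by omega) (le_refl _)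
  have c1 : sb c K' ≤ sb c K := g.gs_mono hc (s := K') (by omega) (by omega) h1
  have b2 := ep_top hc ht (s := sb c K' - 1) (by omega) (by omega)
  have c2 : wn c K' ≤ wn c K :=
    g.gs_mono hc (s := sb c K' - 1) (s' := sb c K - 1) (by omega) (by omega) (by omega)
  have hp := Ld_pos c (zb c K')
  have b3 := ep_top hc ht (s := wn c K' - 1) (by omega) (by omega)
  exact g.gs_mono hc (s := wn c K' - 1) (s' := wn c K - 1) (by omega) (by omega) (by omega)

/-- `Omega` of the smaller time is a small cell at both times -/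
theorem Big.om_near {K K' : ℕ} (h' : Big c K') (h1 : K' ≤ K) (h2 : K < K' + gth c K) :
    OmAt c K (om c K') := by
  have h := h'.mono h1
  have hc := h.hc
  have ht := h.nine
  have ht10 := h.ht
  have ht' := h'.nine
  have ht10' := h'.ht
  obtain ⟨p1, p2, p3, p4, p5, p6, p7, p8⟩ := h'.om_pos
  have hz := gs_zb hc ht' h1
  obtain ⟨q1, q2, q3, q4, q5, q6, q7⟩ := h.fb_facts
  have hgd : gth c K = Gq c (epo c K - 1) := rfl
  have hGp := Gq_pred_le hc ht
  have hGl : Gq c (epo c K' - 1) ≤ Gq c (epo c K) :=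
    Gq_mono hc (by omega) (by have := epo_mono (c := c) h1; omega)
  have hww : wb c K' ≤ wb c K := wb_mono hc h1
  have hw := h.wb_le_fb
  -- the block below `fb c K`
  have hwp := wb_pos hc ht
  have g := h.gH
  have a1 : mb c (fb c K - 1) + Hd c (fb c K - 1) = fb c K :=
    g.prev hc (by have := q2.lo; omega) q2.lo q3 (by omega)
  have a2 : mb c (mb c (fb c K - 1)) = mb c (fb c K - 1) := h.mb_mb q2
  have a3 : Hd c (mb c (fb c K - 1)) = Hd c (fb c K - 1) := by unfold Hd; rw [h.ep_mb q2]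
  have hHp := Hd_pos c (fb c K - 1)
  have a4 := tB_of_lt_fb (c := c) (t := K) a2 (by omega)
  have a5 := lt_tB c 3 (mb c (fb c K - 1))
  rw [a3] at a5
  have a6 : 4096 * Gq c (epo c K) ≤ Hd c (fb c K - 1) := by
    have e0 : epo c K ≤ eom c K := by
      rcases eom_cases hc (t := K) (by omega) with h3 | h3 <;> omega
    have e1 : Gq c (epo c K) ≤ Gq c (eom c K) := Gq_mono hc (by omega) e0
    have e2 := h.Gq_eom (s := fb c K - 1) (by omega) (by omega)
    omega
  have hG0 := Gq_pos c (epo c K)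
  have a7 : fb c K ≤ K' := by omega
  have a8 := h'.Gq_eom (s := fb c K - 1) (by omega) (by omega)
  apply h.omAt_of p4
  · omega
  · intro hB
    have b1 := lt_tB c 1 (fb c K)
    have b2 : 4096 * Gq c (epo c K) ≤ Hd c (fb c K) := by
      have e0 : epo c K ≤ eom c K := by
        rcases eom_cases hc (t := K) (by omega) with h3 | h3 <;> omega
      have e1 : Gq c (epo c K) ≤ Gq c (eom c K) := Gq_mono hc (by omega) e0
      have e2 := h.Gq_eom (s := fb c K) (by omega) (by omega)
      omega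
    have b3 := h'.Gq_eom (s := fb c K) (by omega) (by omega)
    omega
  · omega

lemma gth_pos (c t : ℕ) : 0 < gth c t := Gq_pos _ _

theorem Big.om_at (h : Big c t) : OmAt c t (om c t) :=
  h.om_near (le_refl _) (by have := gth_pos c t; omega)

end Pool.Agent.Helper29.E2
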