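import Mathlib
import Pool.Agent.Helper29.E2.OmEq

/-!
# E-T (MP_12a1af_nt), phase 2: stages of the units and mid blocks of the top zone
-/

namespace Pool.Agent.Helper29.E2

open Pool.Agent.Helper29.ETK
open Pool.Agent.ETS (IsRest)

variable {c t : ℕ}

/-- the first unmerged unit is below the zone -/
lemma Big.unit_top (h : Big c t) (hb : wb c t + 3 * Wd c (wb c t) ≤ t) :
    wb c t + Wd c (wb c t) ≤ zb c t ∧ wb c t + Wd c (wb c t) ≤ fb c t := by
  have hc := h.hc
  have ht := h.nine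
  have ht10 := h.ht
  have hw := wb_spec hc t
  obtain ⟨-, -, -, -, -, z1, z2, -⟩ := zone_facts hc ht
  have p := h.pos (s := wb c t) (by omega) (wb_le hc ht)
  have h7 : 1024 * Gq c (epo c t) ≤ Wd c (wb c t) := by
    have a := Gq_le_pow hc (E := epo c t) (l := ep c (wb c t)) (by omega) p.lo
    have b : 1024 * Gq c (epo c t) ≤ CC c * Gq c (epo c t) := Nat.mul_le_mul_right _ (CC_ge hc)
    have e : Wd c (wb c t) = CC c ^ ep c (wb c t) := rfl
    omega
  have h8 := Gq_pred_le hc ht
  refine ⟨by omega, ?_⟩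
  by_contra hn
  obtain ⟨f1, f2⟩ := fb_spec hc t
  have f3 := h.wb_le_fb
  have hf := h.fb_facts
  have pf := hf.1
  have e8 := pf.lo
  have f5 : un c (fb c t) = wb c t := eq_of_mem_unit hc hw.1 f3 (by omega)
  have f6 : ep c (fb c t) = ep c (wb c t) := by
    have := h.ep_un pf
    rw [f5] at this
    exact this.symm
  have f7 : fb c t + Hd c (fb c t) ≤ wb c t + Wd c (wb c t) := by
    have := h.gH.gs_add_coarse h.gU h.HU (s := fb c t) pf.lo
    have e1 : gs c (hh c) (fb c t) = fb c t := f1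
    have e2 : gs c (fun e => CC c ^ e) (fb c t) = wb c t := f5
    rw [e1, e2] at this
    have e3 : Wd c (wb c t) = CC c ^ ep c (fb c t) := by rw [f6]; rfl
    rw [e3]
    exact this
  have f8 := h.Hd_le (s := fb c t) pf.lo
  have f9 : Wd c (fb c t) = Wd c (wb c t) := by unfold Wd; rw [f6]
  have f10 := tB_le hc f1 (by omega) (le_refl 3)
  omega

/-- positions above `b + Wd` are in other units -/
lemma un_of_ge (hc : 10 ≤ c) {b s : ℕ} (hb : un c b = b) (hs : b + Wd c b ≤ s) :
    b + Wd c b ≤ un c s := by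
  have := un_mono hc hs
  rwa [un_end hc hb] at this

/-- positions above the first unmerged unit -/
lemma kid2_above_unit (hc : 10 ≤ c) {b s : ℕ} (hb : un c b = b) (hs : b + Wd c b ≤ s)
    (hw : wb c t ≤ b + Wd c b) :
    kid2 c t s ≠ .T2 b ∧ kid2 c t s ≠ .C2 b ∧ (∀ k, kid2 c t s ≠ .old k) := by
  have h1 := un_of_ge hc hb hs
  have hW := Wd_pos c b
  rw [kid2_top (by omega)]
  rcases kidU_cases c t s with a | a | a | a | a | a
  · rw [a.2]
    refine ⟨fun h => ?_, by simp, by simp⟩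
    simp only [Kid2.T2.injEq] at h
    omega
  · rw [a.2.2]
    refine ⟨by simp, fun h => ?_, by simp⟩
    simp only [Kid2.C2.injEq] at h
    omega
  · rw [a.2.2]; simp
  · rw [a.2.2.2]; simp
  · rw [a.2.2.2]; simp
  · rw [a.2.2]; simp

/-- different mid blocks have different kinds -/
lemma Big.kid2_ne_mid (h : Big c t) {s s' : ℕ} (p : Pos c t s) (p' : Pos c t s')
    (hs : wb c t ≤ s ∨ wb c t ≤ s') (hne : mb c s ≠ mb c s')
    (hk : t < tU c 1 (un c s') ∨ t < tU c 1 (un c s)) : kid2 c t s ≠ kid2 c t s' := by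
  have hsb : sb c s ≠ sb c s' := fun e => hne (by rw [← h.mb_sb p, e, h.mb_sb p'])
  have hold : ∀ x, x < wb c t → ∀ y, wb c t ≤ y → kid2 c t x ≠ kid2 c t y := by
    intro x hx y hy
    rw [kid2_old hx, kid2_top hy]
    rcases kidU_cases c t y with a | a | a | a | a | a
    · rw [a.2]; simp
    · rw [a.2.2]; simp
    · rw [a.2.2]; simp
    · rw [a.2.2.2]; simp
    · rw [a.2.2.2]; simp
    · rw [a.2.2]; simp
  rcases Nat.lt_or_ge s (wb c t) with h1 | h1
  · exact hold s h1 s' (by omega)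
  rcases Nat.lt_or_ge s' (wb c t) with h2 | h2
  · exact fun e => hold s' h2 s h1 e.symm
  rw [kid2_top h1, kid2_top h2]
  have m1 := tU_mono c (un c s) (show 1 ≤ 2 by norm_num)
  have m2 := tU_mono c (un c s') (show 1 ≤ 2 by norm_num)
  rcases kidU_cases c t s with a | a | a | a | a | a <;>
  rcases kidU_cases c t s' with b | b | b | b | b | b
  all_goals
    simp only [a, b, ne_eq, Kid2.T2.injEq, Kid2.C2.injEq, Kid2.mid.injEq, Kid2.T1.injEq,
      Kid2.C1.injEq, Kid2.cell.injEq, reduceCtorEq, not_false_eq_true, hne, hsb]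
  all_goals omega

/-- a unit in a stage `0, 1, 2` -/
lemma Big.unitAt (h : Big c t) {b j : ℕ} (hb : wb c t = b) (h3 : b + 3 * Wd c b ≤ t)
    (hst : (j = 0 ∧ t < tU c 1 b) ∨ (j = 1 ∧ tU c 1 b ≤ t ∧ t < tU c 2 b) ∨
      (j = 2 ∧ tU c 2 b ≤ t ∧ t < tU c 3 b)) : UnitAt c t b j := by
  have hc := h.hc
  have ht := h.nine
  have ht10 := h.ht
  have hw := wb_spec hc t
  subst hb
  obtain ⟨k1, k2⟩ := h.unit_top h3
  have hW := Wd_pos c (wb c t)
  have hp := wb_pos hc ht
  have e12 := tU_mono c (wb c t) (show 1 ≤ 2 by norm_num)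
  have hkid : ∀ s, wb c t ≤ s → s < wb c t + Wd c (wb c t) →
      kid2 c t s = unitKid c (wb c t) j s := by
    intro s s1 s2
    have e1 := eq_of_mem_unit hc hw.1 s1 s2
    have p : Pos c t s := h.pos (by omega) (by omega)
    rw [kid2_top s1]
    unfold kidU unitKid
    rw [e1]
    rcases hst with ⟨rfl, a⟩ | ⟨rfl, a⟩ | ⟨rfl, a⟩
    · rw [if_neg (by omega), if_neg (by omega), if_pos rfl]
      unfold kidB
      have g2 : mb c s < fb c t := lt_of_le_of_lt (mb_le c s) (by omega)
      rw [if_pos (tB_of_lt_fb (h.mb_mb p) g2)]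
    · rw [if_neg (by omega), if_pos (by omega), if_neg (by norm_num), if_pos rfl]
    · rw [if_pos (by omega), if_neg (by norm_num), if_neg (by norm_num), if_pos rfl]
  refine ⟨hw.1, hp, k1, ?_, hkid, ?_, ?_⟩
  · rw [if_neg (by omega)]
  · rw [kid2_old (by omega), hkid _ (le_refl _) (by omega)]
    unfold unitKid
    rcases hst with ⟨rfl, a⟩ | ⟨rfl, a⟩ | ⟨rfl, a⟩ <;> simp
  · have hend := kid2_above_unit (t := t) hc hw.1 (le_refl _) (by omega)
    rw [hkid _ (by omega) (by omega)]
    rcases hst with ⟨rfl, a⟩ | ⟨rfl, a⟩ | ⟨rfl, a⟩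
    · rw [← hkid _ (by omega) (by omega)]
      have p : Pos c t (wb c t + Wd c (wb c t) - 1) := h.pos (by omega) (by have := h.zb_le; omega)
      have p' : Pos c t (wb c t + Wd c (wb c t)) := h.pos (by omega) (by have := h.zb_le; omega)
      have hu : un c (wb c t + Wd c (wb c t)) = wb c t + Wd c (wb c t) := un_end hc hw.1
      have hm : mb c (wb c t + Wd c (wb c t)) = wb c t + Wd c (wb c t) :=
        h.gH.of_coarse h.gU h.HU p'.lo hu
      refine h.kid2_ne_mid p p' (Or.inl (by omega)) ?_ (Or.inr ?_)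
      · rw [hm]
        have := mb_le c (wb c t + Wd c (wb c t) - 1)
        omega
      · rw [eq_of_mem_unit hc hw.1 (by omega) (by omega)]
        exact a
    · unfold unitKid
      simpa using hend.2.1.symm
    · unfold unitKid
      simpa using hend.1.symm

/-- a mid block in a stage `0, 1, 2` -/
lemma Big.blockAt (h : Big c t) {f j : ℕ} (hf : fb c t = f) (h3 : f + 3 * Hd c f ≤ t)
    (hst : (j = 0 ∧ t < tB c 1 f) ∨ (j = 1 ∧ tB c 1 f ≤ t ∧ t < tB c 2 f) ∨
      (j = 2 ∧ tB c 2 f ≤ t ∧ t < tB c 3 f)) :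
    BlockAt c t f j ∧ t < tU c 1 (un c f) := by
  have hc := h.hc
  have ht := h.nine
  have ht10 := h.ht
  subst hf
  obtain ⟨q1, q2, q3, q4, q5, q6, q7⟩ := h.fb_facts
  have hw := h.wb_le_fb
  have hH := Hd_pos c (fb c t)
  have hzt := h.zb_le
  -- the unit of the block is not in action
  have hunit : t < tU c 1 (un c (fb c t)) := by
    by_contra hn
    obtain ⟨-, -, k3, -, k5⟩ := h.unit_act (s := fb c t) hw (by omega)
    omega
  have htop : fb c t + Hd c (fb c t) ≤ zb c t := by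
    obtain ⟨-, -, -, -, -, z1, z2, -⟩ := zone_facts hc ht
    have a := Gq_le_hh hc (E := epo c t) (e := ep c (fb c t)) (by omega)
      (by have := q1.lo; omega) q1.lo
    have b : 1024 * Gq c (epo c t) ≤ CC c ^ 5 * Gq c (epo c t) := by
      apply Nat.mul_le_mul_right
      have h4 := pow_le c (show 1 ≤ 5 by norm_num)
      rw [pow_one] at h4
      exact (CC_ge hc).trans h4
    have e : Hd c (fb c t) = hh c (ep c (fb c t)) := rfl
    have h8 := Gq_pred_le hc ht
    omega
  have e12 := tB_mono c (fb c t) (show 1 ≤ 2 by norm_num)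
  have e12' := tU_mono c (un c (fb c t)) (show 1 ≤ 2 by norm_num)
  have hkid : ∀ s, fb c t ≤ s → s < fb c t + Hd c (fb c t) →
      kid2 c t s = blockKid c (fb c t) j s := by
    intro s s1 s2
    obtain ⟨m1, m2⟩ := h.mb_of_mem q1 (s' := s) (by rw [q3]; exact s1) (by rw [q3]; exact s2)
    rw [q3] at m1
    have p : Pos c t s := ⟨by rw [m2]; exact q1.lo, by rw [m2]; exact q1.hi⟩
    have u1 : un c s = un c (fb c t) := by rw [← h.un_mb p, m1]
    rw [kid2_top (by omega)]
    unfold kidU kidB blockKid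
    rw [u1, m1, if_neg (by omega), if_neg (by omega)]
    have a3 := (fb_spec hc t).2
    rw [if_neg (by omega)]
    rcases hst with ⟨rfl, a⟩ | ⟨rfl, a⟩ | ⟨rfl, a⟩
    · rw [if_neg (by omega), if_neg (by omega), if_pos rfl]
    · rw [if_neg (by omega), if_pos (by omega), if_neg (by norm_num), if_pos rfl]
    · rw [if_pos (by omega), if_neg (by norm_num), if_neg (by norm_num), if_pos rfl]
  have hwp := wb_pos hc ht
  have hm0 : mb c (fb c t - 1) ≠ mb c (fb c t) := by
    rw [q3]
    have := mb_le c (fb c t - 1)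
    omega
  have hend : mb c (fb c t + Hd c (fb c t)) = fb c t + Hd c (fb c t) :=
    h.gH.gs_next hc q1.lo q3
  refine ⟨⟨q3, by omega, hw, htop, ?_, hkid, ?_, ?_⟩, hunit⟩
  · rw [if_neg (by omega)]
  · exact h.kid2_ne_mid q2 q1 (Or.inr hw) hm0 (Or.inl hunit)
  · have p : Pos c t (fb c t + Hd c (fb c t) - 1) := h.pos (by omega) (by omega)
    have p' : Pos c t (fb c t + Hd c (fb c t)) := h.pos (by omega) (by omega)
    refine h.kid2_ne_mid p p' (Or.inl (by omega)) ?_ (Or.inr ?_)
    · rw [hend]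
      have := mb_le c (fb c t + Hd c (fb c t) - 1)
      omega
    · obtain ⟨m1, m2⟩ := h.mb_of_mem q1 (s' := fb c t + Hd c (fb c t) - 1)
        (by rw [q3]; omega) (by rw [q3]; omega)
      rw [q3] at m1
      rw [← h.un_mb p, m1]
      exact hunit

end Pool.Agent.Helper29.E2
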