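import Mathlib
import Pool.Agent.Helper29.E2.NearS

/-!
# E-T (MP_12a1af_nt), phase 2: two close times
-/

namespace Pool.Agent.Helper29.E2

open Pool.Agent.Helper29.ETK
open Pool.Agent.ETS (IsRest)

variable {c : ℕ}

/-- the same comparisons give the same kinds -/
lemma kidU_same {K K' s : ℕ} (h1 : K' ≤ K)
    (hu : ∀ j, 1 ≤ j → j ≤ 3 → ¬ (K' < tU c j (un c s) ∧ tU c j (un c s) ≤ K))
    (hm : ∀ j, 1 ≤ j → j ≤ 3 → ¬ (K' < tB c j (mb c s) ∧ tB c j (mb c s) ≤ K)) :
    kidU c K s = kidU c K' s := by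
  have u1 := hu 1 (by norm_num) (by norm_num)
  have u2 := hu 2 (by norm_num) (by norm_num)
  have m1 := hm 1 (by norm_num) (by norm_num)
  have m2 := hm 2 (by norm_num) (by norm_num)
  have m3 := hm 3 (by norm_num) (by norm_num)
  clear hu hm
  unfold kidU kidB
  generalize tU c 1 (un c s) = x1 at *
  generalize tU c 2 (un c s) = x2 at *
  generalize tB c 1 (mb c s) = y1 at *
  generalize tB c 2 (mb c s) = y2 at *
  generalize tB c 3 (mb c s) = y3 at *
  by_cases a1 : x2 ≤ K'
  · rw [if_pos a1, if_pos (show x2 ≤ K by omega)]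
  rw [if_neg a1, if_neg (show ¬ x2 ≤ K by omega)]
  by_cases a2 : x1 ≤ K'
  · rw [if_pos a2, if_pos (show x1 ≤ K by omega)]
  rw [if_neg a2, if_neg (show ¬ x1 ≤ K by omega)]
  by_cases a3 : y3 ≤ K'
  · rw [if_pos a3, if_pos (show y3 ≤ K by omega)]
  rw [if_neg a3, if_neg (show ¬ y3 ≤ K by omega)]
  by_cases a4 : y2 ≤ K'
  · rw [if_pos a4, if_pos (show y2 ≤ K by omega)]
  rw [if_neg a4, if_neg (show ¬ y2 ≤ K by omega)]
  by_cases a5 : y1 ≤ K'
  · rw [if_pos a5, if_pos (show y1 ≤ K by omega)]
  rw [if_neg a5, if_neg (show ¬ y1 ≤ K by omega)]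

/-- a `T2` of the top zone -/
lemma Big.rest_of {t : ℕ} (h : Big c t) {s : ℕ} (hs : wb c t ≤ s) (hst : s ≤ t)
    (h1 : ¬ (tU c 2 (un c s) ≤ t ∧ un c s = wb c t))
    (h2 : ¬ (tB c 2 (mb c s) ≤ t ∧ mb c s = fb c t)) : Rest2 (kid2 c t s) := by
  rw [kid2_top hs]
  have hk := kidU_cases c t s
  generalize kidU c t s = k at hk
  have key : (∀ b, k ≠ .T2 b) → (∀ b, k ≠ .T1 b) → (∀ b, k ≠ .old b) → Rest2 k := by
    intro k1 k2 k3
    cases k with
    | old b => exact absurd rfl (k3 b)
    | T2 b => exact absurd rfl (k1 b)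
    | C2 b => trivial
    | mid b => trivial
    | T1 b => exact absurd rfl (k2 b)
    | C1 b => trivial
    | cell b => trivial
  apply key
  · rintro b rfl
    have a : tU c 2 (un c s) ≤ t := by
      rcases hk with a | a | a | a | a | a
      · exact a.1
      · exact absurd a.2.2 (by simp)
      · exact absurd a.2.2 (by simp)
      · exact absurd a.2.2.2 (by simp)
      · exact absurd a.2.2.2 (by simp)
      · exact absurd a.2.2 (by simp)
    obtain ⟨k1, -⟩ := h.unit_act hs ((tU_mono c _ (by norm_num)).trans a)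
    exact h1 ⟨a, k1⟩
  · rintro b rfl
    have a : tB c 2 (mb c s) ≤ t ∧ t < tB c 3 (mb c s) := by
      rcases hk with a | a | a | a | a | a
      · exact absurd a.2 (by simp)
      · exact absurd a.2.2 (by simp)
      · exact absurd a.2.2 (by simp)
      · exact ⟨a.2.1, a.2.2.1⟩
      · exact absurd a.2.2.2 (by simp)
      · exact absurd a.2.2 (by simp)
    obtain ⟨k1, -⟩ := h.block_act hs hst ((tB_mono c _ (by norm_num)).trans a.1) a.2
    exact h2 ⟨a.1, k1⟩
  · rintro b rfl
    rcases hk with a | a | a | a | a | a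
    · exact absurd a.2 (by simp)
    · exact absurd a.2.2 (by simp)
    · exact absurd a.2.2 (by simp)
    · exact absurd a.2.2.2 (by simp)
    · exact absurd a.2.2.2 (by simp)
    · exact absurd a.2.2 (by simp)

/-- a change of a unit between the two times -/
lemma near_unit {K K' b j : ℕ} (h' : Big c K') (h1 : K' ≤ K) (h2 : K < K' + gth c K)
    (hb : un c b = b) (hj1 : 1 ≤ j) (hj3 : j ≤ 3) (m1 : K' < tU c j b) (m2 : tU c j b ≤ K) :
    NearUnit c K K' b j (j - 1) := by
  have h := h'.mono h1
  have hc := h.hc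
  have hE := h.ht
  obtain ⟨r1, r2, r3, r4, r5, r6, r7, r8, r9, r10⟩ := merge_unit hc hE h1 h2 hb hj1 hj3 m1 m2
  have hG := Gq_pos c (epo c (b + 3 * Wd c b))
  have hW := Wd_pos c b
  -- `b + 3 W ≤ K'`
  have hb3 : b + 3 * Wd c b ≤ K' := by
    unfold tU at r10
    have : (12 + j) * Gq c (epo c (b + 3 * Wd c b)) =
      12 * Gq c (epo c (b + 3 * Wd c b)) + j * Gq c (epo c (b + 3 * Wd c b)) := by ring
    omega
  have s12 : tU c 2 b = tU c 1 b + Gq c (epo c (b + 3 * Wd c b)) := by unfold tU; ring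
  have s23 : tU c 3 b = tU c 2 b + Gq c (epo c (b + 3 * Wd c b)) := by unfold tU; ring
  have hj : j = 1 ∨ j = 2 ∨ j = 3 := by omega
  have hle := tU_le hc hb r1 (le_refl 3)
  -- the first unmerged unit at `K'`
  have hw' : wb c K' = b := by
    have a1 : wb c K' ≤ b := wb_le_of hb (by have := tU_mono c b hj3; omega)
    by_contra hne
    have a2 := wb_spec hc K'
    have a3 := tU_le hc a2.1 (eight_le_ep_wb hc h'.nine) (le_refl 3)
    have a4 := unit_add_le hc a2.1 hb (by omega)
    have a5 := Wd_mono (c := c) (show wb c K' ≤ b by omega)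
    omega
  -- the stage at `K'`
  have hst' : (j - 1 = 0 ∧ K' < tU c 1 b) ∨ (j - 1 = 1 ∧ tU c 1 b ≤ K' ∧ K' < tU c 2 b) ∨
      (j - 1 = 2 ∧ tU c 2 b ≤ K' ∧ K' < tU c 3 b) := by
    rcases hj with rfl | rfl | rfl
    · exact Or.inl ⟨rfl, m1⟩
    · exact Or.inr (Or.inl ⟨rfl, by omega, m1⟩)
    · exact Or.inr (Or.inr ⟨rfl, by omega, m1⟩)
  have hU' := h'.unitAt hw' hb3 hst'
  -- no other change
  have hno : ∀ b0 j0, un c b0 = b0 → 1 ≤ j0 → j0 ≤ 3 → b0 ≠ b →
      ¬ (K' < tU c j0 b0 ∧ tU c j0 b0 ≤ K) := by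
    rintro b0 j0 hb0 hj01 hj03 hne ⟨n1, n2⟩
    obtain ⟨t1, t2, t3, -⟩ := merge_unit hc hE h1 h2 hb0 hj01 hj03 n1 n2
    rw [← t2] at t3
    rw [← r2] at r3
    have e : b0 + 3 * Wd c b0 = b + 3 * Wd c b := by omega
    rcases Nat.lt_or_ge b0 b with h3 | h3
    · have := unit_add_le hc hb0 hb h3
      have := Wd_mono (c := c) h3.le
      omega
    · have := Wd_mono (c := c) h3
      omega
  have hnoB : ∀ f0 j0, mb c f0 = f0 → 1 ≤ j0 → j0 ≤ 3 →
      ¬ (K' < tB c j0 f0 ∧ tB c j0 f0 ≤ K) := by
    rintro f0 j0 hf0 hj01 hj03 ⟨n1, n2⟩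
    obtain ⟨t1, t2, t3, -⟩ := merge_block hc hE h1 h2 hf0 hj01 hj03 n1 n2
    exact parity hc hb r1 hf0 t1 r2 r3 t2 t3
  -- the unit at `K`
  have hrest := rest_of_ph hc h.nine h'.nine r5 (by omega) (by omega)
  have hww := wb_mono hc (c := c) h1
  obtain ⟨k1, k2⟩ := h'.unit_top (by rw [hw']; exact hb3)
  rw [hw'] at k1
  have hzm := gs_zb hc h'.nine h1
  have hU : UnitAt c K b j := by
    rcases Nat.lt_or_ge j 3 with h3 | h3
    · have e0 : K < tU c 3 b := by
        rcases hj with rfl | rfl | rfl <;> omega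
      have hw : wb c K = b := le_antisymm (wb_le_of hb e0) (by rw [← hw']; exact hww)
      refine h.unitAt hw (by omega) ?_
      rcases hj with rfl | rfl | rfl
      · exact Or.inr (Or.inl ⟨rfl, m2, by omega⟩)
      · exact Or.inr (Or.inr ⟨rfl, m2, by omega⟩)
      · omega
    · have h3 : j = 3 := by omega
      subst h3
      have hb1 := (lt_wb_iff hc h.nine hb).mpr m2
      have hbe := un_end hc hb
      have hw : wb c K = b + Wd c b := by
        apply le_antisymm
        · apply wb_le_of hbe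
          have a1 := lt_tU c 3 (b + Wd c b)
          have a2 := Wd_mono (c := c) (show b ≤ b + Wd c b by omega)
          omega
        · exact unit_add_le hc hb (wb_spec hc K).1 hb1
      have hkid : ∀ s, b ≤ s → s < b + Wd c b → kid2 c K s = .old (.RTh (b + Wd c b)) := by
        intro s s1 s2
        have e1 := eq_of_mem_unit hc hb s1 s2
        rw [kid2_old (by omega), kid_rest hc h.nine (fun b _ => not_acts_of_ph (by omega) b)]
        have hb16 : 16 ≤ lg c b := by unfold ep at r1; omega
        have hnot : ¬ exU c K (j0 c b + 1) b := by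
          intro h
          unfold exU at h
          have a := opp_le c (cls c (gl c (j0 c b + 1) b)) K
          have d : b + 5 * CC c ^ j0 c b ≤ Ut c (j0 c b + 1) b := by
            unfold Ut
            have := le_sl c (b + Wd c b - gl c (j0 c b + 1) b)
            have := gl_le c (j0 c b + 1) b
            rw [Nat.add_sub_cancel]
            omega
          have e : Wd c b ≤ CC c ^ j0 c b := pow_le c (by unfold j0; omega)
          omega
        have hlev : lev c K b = ep c b := by
          rcases lev_cases (c := c) K b hb16 with h3 | h3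
          · exact h3
          · exfalso
            apply hnot
            exact (exU_iff hc (by omega) hb hb16 (by omega)
              (by have := j0_le_lg (c := c) (b := b) hb16; omega)).mpr (by omega)
        have hnP : ¬ isP c K b := not_isP_of_lev hb16 (by rw [hlev]; unfold j0; omega)
        unfold rk
        rw [e1, if_neg hnP]
        unfold va
        rw [hlev]
        have e3 : gl c (ep c b) b = un c b := rfl
        rw [e3, hb]
        rfl
      refine ⟨hb, hU'.pos, by omega, by rw [hw]; rfl, ?_,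
        ?_, ?_⟩
      · intro s s1 s2
        rw [hkid s s1 s2]
        unfold unitKid
        simp
      · rw [hkid b (le_refl _) (by omega), kid2_old (by have := hU'.pos; omega)]
        have hp := hU'.pos
        intro heq
        simp only [Kid2.old.injEq] at heq
        rw [(hrest (b - 1)).1] at heq
        have hok := (kidOK hc h'.nine).RTh (b - 1) _ (by omega) heq
        omega
      · rw [hkid _ (by omega) (by omega)]
        have := (kid2_above_unit (t := K) hc hb (le_refl _) (by omega)).2.2 (.RTh (b + Wd c b))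
        exact fun e => this e.symm
  refine ⟨by omega, hj3, by omega, hU, hU', ?_, ?_⟩
  · -- outside of the unit
    intro s hs hout
    have hzt := h'.zb_le
    rcases hout with hout | hout
    · rw [kid2_old (by omega), kid2_old (by omega)]
      exact ⟨by rw [(hrest s).1], (hrest s).2⟩
    · have hu := un_of_ge hc hb hout
      have p' : Pos c K' s := h'.pos (by omega) (by omega)
      have hwK : wb c K ≤ b + Wd c b := by
        rw [hU.wb]
        split_ifs <;> omega
      refine ⟨?_, ?_⟩
      · rw [kid2_top (by omega), kid2_top (by omega)]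
        exact kidU_same h1 (fun j0 a1 a2 => hno _ _ (un_un hc s) a1 a2 (by omega))
          (fun j0 a1 a2 => hnoB _ _ (h'.mb_mb p') a1 a2)
      · apply h'.rest_of (by omega) (by omega)
        · rintro ⟨a1, a2⟩
          omega
        · rintro ⟨a1, a2⟩
          -- a mid block in the stage `2`
          have e8 := eight_le_ep_fb hc h'.nine
          have f1 := fb_spec hc K'
          rw [a2] at a1
          obtain ⟨t1, t2, -⟩ := block_stage hc f1.1 e8 ((tB_mono c _ (by norm_num)).trans a1) f1.2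
          exact parity hc hb r1 f1.1 e8 (r7.trans r2) (r6.trans r3) t1 t2
  · apply om_same hc hE h1 h2 r6 r7
    · have a1 := bd_unit hc hb r1 r2 r3
      have a2 := lt_sst c K
      have a3 := Gq_pos c (epo c K)
      omega
    · right; omega

/-- a change of a mid block between the two times -/
lemma near_block {K K' f j : ℕ} (h' : Big c K') (h1 : K' ≤ K) (h2 : K < K' + gth c K)
    (hf : mb c f = f) (hj1 : 1 ≤ j) (hj3 : j ≤ 3) (m1 : K' < tB c j f) (m2 : tB c j f ≤ K) :
    NearBlock c K K' f j (j - 1) := by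
  have h := h'.mono h1
  have hc := h.hc
  have hE := h.ht
  have hE' := h'.ht
  obtain ⟨r1, r2, r3, r4, r5, r6, r7, r8, r9, r10⟩ := merge_block hc hE h1 h2 hf hj1 hj3 m1 m2
  have hG := Gq_pos c (epo c (f + 3 * Hd c f))
  have hH := Hd_pos c f
  have hf3 : f + 3 * Hd c f ≤ K' := by
    unfold tB at r10
    have : (4 + j) * Gq c (epo c (f + 3 * Hd c f)) =
      4 * Gq c (epo c (f + 3 * Hd c f)) + j * Gq c (epo c (f + 3 * Hd c f)) := by ring
    omega
  have s12 : tB c 2 f = tB c 1 f + Gq c (epo c (f + 3 * Hd c f)) := by unfold tB; ring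
  have s23 : tB c 3 f = tB c 2 f + Gq c (epo c (f + 3 * Hd c f)) := by unfold tB; ring
  have hj : j = 1 ∨ j = 2 ∨ j = 3 := by omega
  have hle := tB_le hc hf r1 (le_refl 3)
  have hw' : fb c K' = f := by
    have a1 : fb c K' ≤ f := fb_le_of hf (by have := tB_mono c f hj3; omega)
    by_contra hne
    have a2 := fb_spec hc K'
    have e8 := eight_le_ep_fb hc h'.nine
    have a3 := tB_le hc a2.1 e8 (le_refl 3)
    have a4 : fb c K' + Hd c (fb c K') ≤ f :=
      (gridH c hc).add_le_of_lt hc (by omega) e8 a2.1 hf (by omega)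
    have a5 := Hd_mono hc e8 (show fb c K' ≤ f by omega)
    omega
  have hst' : (j - 1 = 0 ∧ K' < tB c 1 f) ∨ (j - 1 = 1 ∧ tB c 1 f ≤ K' ∧ K' < tB c 2 f) ∨
      (j - 1 = 2 ∧ tB c 2 f ≤ K' ∧ K' < tB c 3 f) := by
    rcases hj with rfl | rfl | rfl
    · exact Or.inl ⟨rfl, m1⟩
    · exact Or.inr (Or.inl ⟨rfl, by omega, m1⟩)
    · exact Or.inr (Or.inr ⟨rfl, by omega, m1⟩)
  obtain ⟨hU', hun'⟩ := h'.blockAt hw' hf3 hst'
  have hno : ∀ f0 j0, mb c f0 = f0 → 1 ≤ j0 → j0 ≤ 3 → f0 ≠ f →
      ¬ (K' < tB c j0 f0 ∧ tB c j0 f0 ≤ K) := by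
    rintro f0 j0 hf0 hj01 hj03 hne ⟨n1, n2⟩
    obtain ⟨t1, t2, t3, -⟩ := merge_block hc hE h1 h2 hf0 hj01 hj03 n1 n2
    have e : f0 + 3 * Hd c f0 = f + 3 * Hd c f := by omega
    rcases Nat.lt_or_ge f0 f with h3 | h3
    · have := Hd_mono hc t1 h3.le
      omega
    · have := Hd_mono hc r1 h3
      omega
  have hnoU : ∀ b0 j0, un c b0 = b0 → 1 ≤ j0 → j0 ≤ 3 →
      ¬ (K' < tU c j0 b0 ∧ tU c j0 b0 ≤ K) := by
    rintro b0 j0 hb0 hj01 hj03 ⟨n1, n2⟩
    obtain ⟨t1, t2, t3, -⟩ := merge_unit hc hE h1 h2 hb0 hj01 hj03 n1 n2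
    exact parity hc hb0 t1 hf r1 t2 t3 r2 r3
  have hrest := rest_of_ph hc h.nine h'.nine r5 (by omega) (by omega)
  -- the merged units are the same
  have hww : wb c K = wb c K' := by
    apply le_antisymm
    · apply wb_le_of (wb_spec hc K').1
      by_contra hn
      exact hnoU _ 3 (wb_spec hc K').1 (by norm_num) (le_refl 3) ⟨(wb_spec hc K').2, by omega⟩
    · exact wb_mono hc h1
  have hzm := gs_zb hc h'.nine h1
  have hzt := h'.zb_le
  have hun : K < tU c 1 (un c f) := by
    by_contra hn
    exact hnoU _ 1 (un_un hc f) (le_refl 1) (by norm_num) ⟨hun', by omega⟩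
  have hwf := h'.wb_le_fb
  rw [hw'] at hwf
  have p : Pos c K' f := h'.pos (by omega) (by omega)
  have hU : BlockAt c K f j := by
    rcases Nat.lt_or_ge j 3 with h3 | h3
    · have e0 : K < tB c 3 f := by
        rcases hj with rfl | rfl | rfl <;> omega
      have hw : fb c K = f := le_antisymm (fb_le_of hf e0) (by rw [← hw']; exact fb_mono hc h1)
      refine (h.blockAt hw (by omega) ?_).1
      rcases hj with rfl | rfl | rfl
      · exact Or.inr (Or.inl ⟨rfl, m2, by omega⟩)
      · exact Or.inr (Or.inr ⟨rfl, m2, by omega⟩)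
      · omega
    · have h3 : j = 3 := by omega
      subst h3
      have hb1 := (lt_fb_iff hc h.nine hf).mpr m2
      have hbe : mb c (f + Hd c f) = f + Hd c f := (gridH c hc).gs_next hc r1 hf
      have hw : fb c K = f + Hd c f := by
        apply le_antisymm
        · apply fb_le_of hbe
          have a1 := lt_tB c 3 (f + Hd c f)
          have a2 := Hd_mono hc r1 (show f ≤ f + Hd c f by omega)
          omega
        · exact (gridH c hc).add_le_of_lt hc (by omega) r1 hf (fb_spec hc K).1 hb1
      have hkid : ∀ s, f ≤ s → s < f + Hd c f → kid2 c K s = .mid f := by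
        intro s s1 s2
        obtain ⟨n1, n2⟩ := h'.mb_of_mem p (s' := s) (by rw [hf]; exact s1) (by rw [hf]; exact s2)
        rw [hf] at n1
        have ps : Pos c K' s := ⟨by rw [n2]; exact p.lo, by rw [n2]; exact p.hi⟩
        have u1 : un c s = un c f := by rw [← h'.un_mb ps, n1]
        have e12 := tU_mono c (un c f) (show 1 ≤ 2 by norm_num)
        rw [kid2_top (by omega)]
        unfold kidU kidB
        rw [u1, n1, if_neg (by omega), if_neg (by omega), if_pos m2]
      have htop := hU'.top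
      have pK : Pos c K f := h.pos (by omega) (by omega)
      have pK1 : Pos c K (f - 1) := h.pos (by omega) (by omega)
      have hfp := hU'.pos
      refine ⟨hf, hfp, by omega, by omega, by rw [hw]; rfl, ?_, ?_, ?_⟩
      · intro s s1 s2
        rw [hkid s s1 s2]
        unfold blockKid
        simp
      · refine h.kid2_ne_mid pK1 pK (Or.inr (by omega)) ?_ (Or.inl hun)
        rw [hf]
        have := mb_le c (f - 1)
        omega
      · have q : Pos c K (f + Hd c f - 1) := h.pos (by omega) (by omega)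
        have q' : Pos c K (f + Hd c f) := h.pos (by omega) (by omega)
        refine h.kid2_ne_mid q q' (Or.inl (by omega)) ?_ (Or.inr ?_)
        · rw [hbe]
          have := mb_le c (f + Hd c f - 1)
          omega
        · obtain ⟨n1, n2⟩ := h'.mb_of_mem p (s' := f + Hd c f - 1) (by rw [hf]; omega)
            (by rw [hf]; omega)
          rw [hf] at n1
          have ps : Pos c K' (f + Hd c f - 1) := ⟨by rw [n2]; exact p.lo, by rw [n2]; exact p.hi⟩
          rw [← h'.un_mb ps, n1]
          exact hun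
  refine ⟨by omega, hj3, by omega, hww, hU, hU', ?_, ?_⟩
  · intro s hs hout
    rcases Nat.lt_or_ge s (wb c K') with h3 | h3
    · rw [kid2_old (by omega), kid2_old (by omega)]
      exact ⟨by rw [(hrest s).1], (hrest s).2⟩
    · have p' : Pos c K' s := h'.pos (by omega) (by omega)
      have hne : mb c s ≠ f := by
        intro e
        have a1 := mb_le c s
        have a2 := lt_mb hc s
        have a3 : Hd c s = Hd c f := by
          unfold Hd
          rw [← h'.ep_mb p', e]
        omega
      refine ⟨?_, ?_⟩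
      · rw [kid2_top (by omega), kid2_top (by omega)]
        exact kidU_same h1 (fun j0 a1 a2 => hnoU _ _ (un_un hc s) a1 a2)
          (fun j0 a1 a2 => hno _ _ (h'.mb_mb p') a1 a2 hne)
      · apply h'.rest_of (by omega) (by omega)
        · rintro ⟨a1, a2⟩
          have e8 := eight_le_ep_wb hc h'.nine
          have f1 := wb_spec hc K'
          rw [a2] at a1
          obtain ⟨t1, t2, -⟩ := unit_stage hc f1.1 e8 ((tU_mono c _ (by norm_num)).trans a1) f1.2
          exact parity hc f1.1 e8 hf r1 t1 t2 (r7.trans r2) (r6.trans r3)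
        · rintro ⟨a1, a2⟩
          rw [hw'] at a2
          exact hne a2
  · apply om_same hc hE h1 h2 r6 r7
    · have a1 := bd_block hc hf r1 r2 r3
      have a2 := lt_sst c K
      have a3 := Gq_pos c (epo c K)
      omega
    · right; omega

/-- no merge between the two times -/
lemma near_none {K K' : ℕ} (h' : Big c K') (h1 : K' ≤ K) (h2 : K < K' + gth c K)
    (hnoU : ∀ b0 j0, un c b0 = b0 → 1 ≤ j0 → j0 ≤ 3 → ¬ (K' < tU c j0 b0 ∧ tU c j0 b0 ≤ K))
    (hnoB : ∀ f0 j0, mb c f0 = f0 → 1 ≤ j0 → j0 ≤ 3 → ¬ (K' < tB c j0 f0 ∧ tB c j0 f0 ≤ K)) :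
    NearRest c K K' ∨ (∃ g b v σ σ', NearCell c K K' g b v σ σ') ∨
    (∃ b j j', NearUnit c K K' b j j') ∨ ∃ f j j', NearBlock c K K' f j j' := by
  have h := h'.mono h1
  have hc := h.hc
  have hE := h.ht
  have hE' := h'.ht
  have hnc := near_cases hc hE h1 h2
  have hww : wb c K = wb c K' := by
    apply le_antisymm
    · apply wb_le_of (wb_spec hc K').1
      by_contra hn
      exact hnoU _ 3 (wb_spec hc K').1 (by norm_num) (le_refl 3) ⟨(wb_spec hc K').2, by omega⟩
    · exact wb_mono hc h1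
  have hff : fb c K = fb c K' := by
    apply le_antisymm
    · apply fb_le_of (fb_spec hc K').1
      by_contra hn
      exact hnoB _ 3 (fb_spec hc K').1 (by norm_num) (le_refl 3) ⟨(fb_spec hc K').2, by omega⟩
    · exact fb_mono hc h1
  have hzm := gs_zb hc h'.nine h1
  have hzt := h'.zb_le
  have htop : ∀ s, wb c K' ≤ s → s < zb c K' → kid2 c K s = kid2 c K' s := by
    intro s s1 s2
    have p' : Pos c K' s := h'.pos (by omega) (by omega)
    rw [kid2_top (by omega), kid2_top (by omega)]
    exact kidU_same h1 (fun j0 a1 a2 => hnoU _ _ (un_un hc s) a1 a2)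
      (fun j0 a1 a2 => hnoB _ _ (h'.mb_mb p') a1 a2)
  have hw' := wb_spec hc K'
  have hf' := fb_spec hc K'
  have e8 := eight_le_ep_wb hc h'.nine
  have e8' := eight_le_ep_fb hc h'.nine
  by_cases hU2 : tU c 2 (wb c K') ≤ K'
  · -- a unit in the stage `2` at both times
    right; right; left
    refine ⟨wb c K', 2, 2, ?_⟩
    have hK3 : K < tU c 3 (wb c K') := by
      by_contra hn
      exact hnoU _ 3 hw'.1 (by norm_num) (le_refl 3) ⟨hw'.2, by omega⟩
    have a12 := tU_mono c (wb c K') (show 1 ≤ 2 by norm_num)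
    obtain ⟨t1, t2, t3⟩ := unit_stage hc hw'.1 e8 (t := K') (by omega) hw'.2
    obtain ⟨u1, u2, u3⟩ := unit_stage hc hw'.1 e8 (t := K) (by omega) hK3
    have hp6 : ph c K' = 6 ∧ ph c K = 6 := by omega
    have hO : sameO c K' K := by
      rcases hnc.2 with n | n
      · exact n.1
      · omega
    have hrest := rest_of_ph hc h.nine h'.nine hO (by omega) (by omega)
    have a3 := lt_tU c 2 (wb c K')
    refine ⟨Or.inl rfl, by norm_num, Or.inl (le_refl 2), h.unitAt hww (by omega)
      (Or.inr (Or.inr ⟨rfl, by omega, hK3⟩)), h'.unitAt rfl (by omega)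
      (Or.inr (Or.inr ⟨rfl, hU2, hw'.2⟩)), ?_, ?_⟩
    · intro s hs hout
      rcases Nat.lt_or_ge s (wb c K') with h3 | h3
      · rw [kid2_old (by omega), kid2_old (by omega)]
        exact ⟨by rw [(hrest s).1], (hrest s).2⟩
      · refine ⟨htop s h3 hs, ?_⟩
        apply h'.rest_of h3 (by omega)
        · rintro ⟨b1, b2⟩
          have := un_of_ge hc hw'.1 (s := s) (by omega)
          have := Wd_pos c (wb c K')
          omega
        · rintro ⟨b1, b2⟩
          rw [b2] at b1
          obtain ⟨v1, v2, -⟩ := block_stage hc hf'.1 e8' ((tB_mono c _ (by norm_num)).trans b1)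
            hf'.2
          exact parity hc hw'.1 e8 hf'.1 e8' t1 t2 v1 v2
    · apply om_same hc hE h1 h2 (by rw [t2, u2]) (by rw [t1, u1])
      · have a1 := bd_unit hc hw'.1 e8 u1 u2
        have a2 := lt_sst c K
        have a3 := Gq_pos c (epo c K)
        omega
      · left; omega
  by_cases hB2 : tB c 2 (fb c K') ≤ K'
  · -- a mid block in the stage `2` at both times
    right; right; right
    refine ⟨fb c K', 2, 2, ?_⟩
    have hK3 : K < tB c 3 (fb c K') := by
      by_contra hn
      exact hnoB _ 3 hf'.1 (by norm_num) (le_refl 3) ⟨hf'.2, by omega⟩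
    have a12 := tB_mono c (fb c K') (show 1 ≤ 2 by norm_num)
    obtain ⟨t1, t2, t3⟩ := block_stage hc hf'.1 e8' (t := K') (by omega) hf'.2
    obtain ⟨u1, u2, u3⟩ := block_stage hc hf'.1 e8' (t := K) (by omega) hK3
    have hp6 : ph c K' = 6 ∧ ph c K = 6 := by omega
    have hO : sameO c K' K := by
      rcases hnc.2 with n | n
      · exact n.1
      · omega
    have hrest := rest_of_ph hc h.nine h'.nine hO (by omega) (by omega)
    have a3 := lt_tB c 2 (fb c K')
    refine ⟨Or.inl rfl, by norm_num, Or.inl (le_refl 2), hww, (h.blockAt hff (by omega)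
      (Or.inr (Or.inr ⟨rfl, by omega, hK3⟩))).1, (h'.blockAt rfl (by omega)
      (Or.inr (Or.inr ⟨rfl, hB2, hf'.2⟩))).1, ?_, ?_⟩
    · intro s hs hout
      rcases Nat.lt_or_ge s (wb c K') with h3 | h3
      · rw [kid2_old (by omega), kid2_old (by omega)]
        exact ⟨by rw [(hrest s).1], (hrest s).2⟩
      · refine ⟨htop s h3 hs, ?_⟩
        have p' : Pos c K' s := h'.pos (by omega) (by omega)
        apply h'.rest_of h3 (by omega)
        · rintro ⟨b1, b2⟩
          rw [b2] at b1
          exact hU2 b1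
        · rintro ⟨b1, b2⟩
          have a1 := mb_le c s
          have a2 := lt_mb hc s
          have a3 : Hd c s = Hd c (fb c K') := by
            unfold Hd
            rw [← h'.ep_mb p', b2]
          omega
    · apply om_same hc hE h1 h2 (by rw [t2, u2]) (by rw [t1, u1])
      · have a1 := bd_block hc hf'.1 e8' u1 u2
        have a2 := lt_sst c K
        have a3 := Gq_pos c (epo c K)
        omega
      · left; omega
  -- the top zone is at rest
  have htopr : ∀ s, wb c K' ≤ s → s < zb c K' → Rest2 (kid2 c K' s) := by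
    intro s s1 s2
    apply h'.rest_of s1 (by omega)
    · rintro ⟨b1, b2⟩
      rw [b2] at b1
      exact hU2 b1
    · rintro ⟨b1, b2⟩
      rw [b2] at b1
      exact hB2 b1
  rcases nearOld hc hE h'.nine h1 h2 hww with
    hr | ⟨g, b, v, σ, σ', adj, k1, k2, cA, cB, ⟨hph, hph1⟩, hout⟩
  · left
    refine ⟨hww, fun s hs => ?_⟩
    rcases Nat.lt_or_ge s (wb c K') with h3 | h3
    · rw [kid2_old (by omega), kid2_old (by omega)]
      exact ⟨by rw [(hr s h3).1], (hr s h3).2⟩
    · exact ⟨htop s h3 hs, htopr s h3 hs⟩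
  · right; left
    refine ⟨g, b, v, σ, σ', hww, adj, k1, k2, cA, cB, fun s hs ho => ?_, ?_⟩
    · rcases Nat.lt_or_ge s (wb c K') with h3 | h3
      · rw [kid2_old (by omega), kid2_old (by omega)]
        exact ⟨by rw [hout s h3 ho], cB.out s h3 ho⟩
      · exact ⟨htop s h3 hs, htopr s h3 hs⟩
    · rcases hnc.2 with ⟨n1, n2, n3, n4, n5⟩ | ⟨n1, n2, n3, n4⟩
      · have b1 := ph_bounds (c := c) K
        have b2 := sst_add_le hc (t := K) (by omega)
        have b3 := Gq_pos c (epo c K)
        have b4 : ph c K * Gq c (epo c K) ≤ 3 * Gq c (epo c K) :=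
          Nat.mul_le_mul_right _ (by omega)
        by_cases hpp : ph c K = ph c K' + 1
        · exact Or.inl (om_same hc hE h1 h2 n4 n5 (by omega) (Or.inr hpp))
        · have hpe : ph c K = ph c K' := by omega
          by_cases h1p : ph c K = 1
          · exact Or.inr (hph1 h1p (by omega))
          · exact Or.inl (om_same hc hE h1 h2 n4 n5 (by omega) (Or.inl ⟨hpe, by omega⟩))
      · exact Or.inl (om_cross hc hE h1 h2 n4)

/-- two close times -/
theorem nearK2 {K K' : ℕ} (h' : Big c K') (h1 : K' ≤ K) (h2 : K < K' + gth c K) :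
    NearK2 c K K' where
  zbm := gs_zb h'.hc h'.nine h1
  omA := h'.om_at
  omB := h'.om_near h1 h2
  omC := (h'.mono h1).om_at
  act := by
    by_cases hU : ∃ b j, un c b = b ∧ 1 ≤ j ∧ j ≤ 3 ∧ K' < tU c j b ∧ tU c j b ≤ K
    · obtain ⟨b, j, hb, j1, j3, m1, m2⟩ := hU
      exact Or.inr (Or.inr (Or.inl ⟨b, j, j - 1, near_unit h' h1 h2 hb j1 j3 m1 m2⟩))
    by_cases hB : ∃ f j, mb c f = f ∧ 1 ≤ j ∧ j ≤ 3 ∧ K' < tB c j f ∧ tB c j f ≤ K
    · obtain ⟨f, j, hf, j1, j3, m1, m2⟩ := hB
      exact Or.inr (Or.inr (Or.inr ⟨f, j, j - 1, near_block h' h1 h2 hf j1 j3 m1 m2⟩))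
    refine near_none h' h1 h2 ?_ ?_
    · rintro b0 j0 e1 e2 e3 ⟨e4, e5⟩
      exact hU ⟨b0, j0, e1, e2, e3, e4, e5⟩
    · rintro f0 j0 e1 e2 e3 ⟨e4, e5⟩
      exact hB ⟨f0, j0, e1, e2, e3, e4, e5⟩

end Pool.Agent.Helper29.E2
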