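import Mathlib
import Pool.Agent.Helper29.E2.Om

/-!
# E-T (MP_12a1af_nt), phase 2: the small cell below `Omega`
-/

namespace Pool.Agent.Helper29.E2

open Pool.Agent.Helper29.ETK

variable {c t : ℕ}

/-- the region below `Omega` is a small cell, too -/
theorem Big.om_below (h : Big c t) : OmAt c t (sp c (om c t)) ∧
    sp c (om c t) + Ld c (sp c (om c t)) = om c t := by
  have hc := h.hc
  have ht := h.nine
  have ht10 := h.ht
  obtain ⟨p1, p2, p3, p4, p5, p6, p7, p8⟩ := h.om_pos
  obtain ⟨q1, q2, q3, q4, q5, q6, q7⟩ := h.fb_facts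
  have hw := h.wb_le_fb
  have hwp := wb_pos hc ht
  have hzt := h.zb_le
  have hGp := Gq_pred_le hc ht
  have e0 : epo c t ≤ eom c t := by
    rcases eom_cases hc (t := t) (by omega) with h3 | h3 <;> omega
  have e1 : Gq c (epo c t) ≤ Gq c (eom c t) := Gq_mono hc (by omega) e0
  have e2 := h.Gq_eom (s := fb c t - 1) (by omega) (by omega)
  have e3 := h.Gq_eom (s := fb c t) (by omega) (by omega)
  have hG := Gq_pos c (eom c t)
  have g := h.gL
  have pb : Pos c t (om c t - 1) := h.pos (by omega) (by omega)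
  have b3 : sb c (om c t - 1) + Ld c (om c t - 1) = om c t :=
    g.prev hc (by have := pb.lo; omega) pb.lo p4 (by omega)
  have b4 : ep c (sp c (om c t)) = ep c (om c t - 1) := h.ep_sb pb
  have b6 : Ld c (sp c (om c t)) = Ld c (om c t - 1) := by unfold Ld; rw [b4]
  have b7 : sp c (om c t) = sb c (om c t - 1) := rfl
  have b8 := Ld_le_Gq hc ht pb.lo pb.hi
  have b9 : Ld c (om c t - 1) ≤ Ld c (om c t) :=
    Ld_mono hc (by have := pb.lo; omega) (by omega)
  refine ⟨h.omAt_of (h.sb_sb pb) (by omega) ?_ (by omega), by omega⟩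
  intro hB
  have := lt_tB c 1 (fb c t)
  omega

end Pool.Agent.Helper29.E2
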