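import Mathlib
import Pool.Agent.Helper16.E2.Acts
import Pool.Agent.Helper29.E2.NearT
import Pool.Agent.Helper29.E2.OmB
import Pool.Agent.Helper99.E2.Far1
import Pool.Agent.E2S.Kinds

/-!
# E-T (MP_12a1af_nt), phase 2: the T-states of the layouts
-/

open Finset

namespace Pool.Agent.Helper29.E2

open Pool.Agent.ETS (Codes Reg IsRest runs IsCut runs_split' Pl)
open Pool.Agent.Helper29.ETK
open Pool.Agent.E2 (Reg2 TS tsL layL body bodyTo toRegs2 zoneReg NoTL tsL_append unitRegs blockRegs
  cellRegs Act Lvl GoodCut2 act_rest act_cell act_unit act_block tsL_mid rest_noT mids cells)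

variable {c : ℕ}

theorem oneK {t : ℕ} (hb : Big c t) (h1 : CC c ^ (2 * 40 + 4) ≤ t) : E2S.OneK c 40 t where
  K := kidOK hb.hc hb.nine
  S := kidSize hb.hc hb.nine
  R := kid_R_sizes hb.hc hb.nine
  t := h1

/-! ### T-states of the chunks -/

lemma noT_mids (e H : ℕ) : ∀ (n b : ℕ), NoTL (mids e H n b)
  | 0, _ => by intro r hr; simp [mids] at hr
  | n + 1, b => by
    intro r hr
    simp only [mids, List.mem_cons] at hr
    rcases hr with rfl | hr
    · rfl
    · exact noT_mids e H n _ r hr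

lemma noT_cells (l : ℕ) : ∀ (n b : ℕ), NoTL (cells l n b)
  | 0, _ => by intro r hr; simp [cells] at hr
  | n + 1, b => by
    intro r hr
    simp only [cells, List.mem_cons] at hr
    rcases hr with rfl | hr
    · rfl
    · exact noT_cells l n _ r hr

lemma ts_unit (c b j : ℕ) : tsL (unitRegs c b j) = if j = 2 then .W (ep c b) else .none := by
  unfold unitRegs
  by_cases h0 : j = 0
  · rw [if_pos h0, (noT_mids _ _ _ _).tsL, if_neg (by omega)]
  rw [if_neg h0]
  by_cases h1 : j = 1
  · rw [if_pos h1, if_neg (by omega)]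
    simp [tsL, Reg2.ts]
  rw [if_neg h1]
  by_cases h2 : j = 2
  · rw [if_pos h2, if_pos h2]
    simp [tsL, Reg2.ts]
  rw [if_neg h2, if_neg h2]
  simp [tsL, Reg2.ts]

lemma ts_block (c f j : ℕ) : tsL (blockRegs c f j) = if j = 2 then .H (ep c f) else .none := by
  unfold blockRegs
  by_cases h0 : j = 0
  · rw [if_pos h0, (noT_cells _ _ _).tsL, if_neg (by omega)]
  rw [if_neg h0]
  by_cases h1 : j = 1
  · rw [if_pos h1, if_neg (by omega)]
    simp [tsL, Reg2.ts]
  rw [if_neg h1]
  by_cases h2 : j = 2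
  · rw [if_pos h2, if_pos h2]
    simp [tsL, Reg2.ts]
  rw [if_neg h2, if_neg h2]
  simp [tsL, Reg2.ts]

lemma ts_cell (c g b v σ : ℕ) : tsL ((cellRegs c g b v σ).map .old) =
    if σ = 1 then .W (ep c b) else if σ = 3 ∧ b + Wd c b < v then .W (ep c (b + Wd c b))
      else .none := by
  unfold cellRegs
  by_cases h0 : σ = 0
  · subst h0
    unfold Pl
    by_cases h5 : g < b
    · simp [tsL, Reg2.ts, h5]
    · simp [tsL, Reg2.ts, h5]
  by_cases h1 : σ = 1
  · subst h1
    simp [tsL, Reg2.ts]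
  by_cases h2 : σ = 2
  · subst h2
    by_cases h5 : b + Wd c b < v
    · simp [tsL, Reg2.ts, h5]
    · simp [tsL, Reg2.ts, h5]
  by_cases h3 : σ = 3
  · subst h3
    by_cases h5 : b + Wd c b < v
    · simp [tsL, Reg2.ts, h5]
    · simp [tsL, Reg2.ts, h5]
  by_cases h5 : b + Wd c b < v
  · simp [tsL, Reg2.ts, h0, h1, h2, h3, h5]
  · simp [tsL, Reg2.ts, h0, h1, h2, h3, h5]

/-! ### the layout above the cut `om c K'` -/

lemma OmAt.cut {t o : ℕ} (h : OmAt c t o) (T : TopOK c t) (hp : 0 < o) :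
    kid2 c t (o - 1) ≠ kid2 c t o := by
  have hL := Ld_pos c o
  have h1 := h.kid o (le_refl _) (by omega)
  rw [h1]
  intro h2
  have h3 := h.top
  have := (T.cell (o - 1) o (by omega) h2).2.2.1
  omega

lemma OmAt.above {t o : ℕ} (h : OmAt c t o) (T : TopOK c t) {s : ℕ} (h1 : o ≤ s)
    (h2 : s < zb c t) : ∃ p, kid2 c t s = .cell p := by
  have hL := Ld_pos c o
  have h3 := h.kid o (le_refl _) (by omega)
  have h4 := T.mono o s h1 h2
  rw [h3] at h4
  generalize kid2 c t s = k at h4
  cases k with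
  | cell p => exact ⟨p, rfl⟩
  | old k => simp [rank2] at h4
  | T2 b => simp [rank2] at h4
  | C2 b => simp [rank2] at h4
  | mid b => simp [rank2] at h4
  | T1 b => simp [rank2] at h4
  | C1 b => simp [rank2] at h4

/-- the T-state is that of the part below `o` -/
lemma OmAt.ts {t o : ℕ} (h : OmAt c t o) (T : TopOK c t) (hp : 0 < o) :
    tsL (layL c t) = tsL (bodyTo c t 0 o) := by
  have hL := Ld_pos c o
  have h3 := h.top
  have hcut : IsCut (kid2 c t) 0 (zb c t) o := Or.inr (Or.inr ⟨hp, h.cut T hp⟩)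
  have h4 : body c t = bodyTo c t 0 o ++ bodyTo c t o (zb c t) := by
    show bodyTo c t 0 (zb c t) = _
    unfold bodyTo
    rw [runs_split' _ (Nat.zero_le _) (by omega) hcut, List.flatMap_append]
  have h5 : NoTL (bodyTo c t o (zb c t)) := rest_noT (fun s s1 s2 => by
    obtain ⟨p, hp⟩ := h.above T s1 s2
    rw [hp]
    trivial)
  have h6 : NoTL [zoneReg c t] := by
    intro r hr
    simp only [List.mem_singleton] at hr
    subst hr
    rfl
  unfold layL
  rw [h4, List.append_assoc, tsL_append, (h5.append h6).tsL]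
  split_ifs with h7
  · exact h7.symm
  · rfl

lemma ts_act {K K' o x0 x1 : ℕ} {X X' : List Reg2} (h : OmAt c K o) (h' : OmAt c K' o)
    (T : TopOK c K) (T' : TopOK c K') (hp : 0 < o) (ha : Act c K K' o x0 x1 X X') :
    tsL (layL c K) = tsL X ∧ tsL (layL c K') = tsL X' := by
  obtain ⟨s1, s2⟩ := ha.split
  rw [h.ts T hp, h'.ts T' hp, s1, s2, tsL_mid ha.noT1 ha.noT2, tsL_mid ha.noT1 ha.noT2]
  exact ⟨rfl, rfl⟩

/-- the common facts for two close times -/
lemma near_lvl {K K' : ℕ} (h' : Big c K') (h1 : K' ≤ K) (h2 : K < K' + gth c K) :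
    0 < om c K' ∧ Lvl c K K' (om c K') ∧ om c K' ≤ zb c K' := by
  have N := nearK2 h' h1 h2
  have T := topOK (h'.mono h1)
  have T' := topOK h'
  have hwp := wb_pos h'.hc h'.nine
  have hop : 0 < om c K' := by have := N.omA.wb; omega
  have hL := Ld_pos c (om c K')
  exact ⟨hop,
    { w1 := ⟨by have := N.omB.top; omega, Or.inr (Or.inr (N.omB.cut T hop))⟩
      w2 := ⟨by have := N.omA.top; omega, Or.inr (Or.inr (N.omA.cut T' hop))⟩
      b1 := N.omB.wb
      b2 := N.omA.wb }, by have := N.omA.top; omega⟩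

theorem ts_rest {K K' : ℕ} (h' : Big c K') (h1 : K' ≤ K) (h2 : K < K' + gth c K)
    (hr : NearRest c K K') : tsL (layL c K) = .none ∧ tsL (layL c K') = .none := by
  have N := nearK2 h' h1 h2
  obtain ⟨hop, hLvl, hw⟩ := near_lvl h' h1 h2
  have := ts_act N.omB N.omA (topOK (h'.mono h1)) (topOK h') hop (act_rest hr hLvl hw)
  exact ⟨this.1, this.2⟩

theorem ts_cell' {K K' g b v σ σ' : ℕ} (h' : Big c K') (h1 : K' ≤ K) (h2 : K < K' + gth c K)
    (hn : NearCell c K K' g b v σ σ') :
    tsL (layL c K) = tsL ((cellRegs c g b v σ).map .old) ∧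
      tsL (layL c K') = tsL ((cellRegs c g b v σ').map .old) := by
  have h := h'.mono h1
  have N := nearK2 h' h1 h2
  obtain ⟨hop, hLvl, hw⟩ := near_lvl h' h1 h2
  exact ts_act N.omB N.omA (topOK h) (topOK h') hop
      (act_cell (kidOK h.hc h.nine) (kidOK h.hc h'.nine) hn hLvl hw)

lemma unit_pos {K b j : ℕ} (h : Big c K) (hn : UnitAt c K b j) : Pos c K b := by
  have hc := h.hc
  have hW := Wd_pos c b
  have hb := hn.ub
  have htop := hn.top
  have hz := h.zb_le
  have hwb := hn.wb
  have hwb2 : wb c K ≤ b + Wd c b := by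
    rw [hwb]
    split_ifs
    · exact le_refl _
    · omega
  have p := h.pos (s := b + Wd c b - 1) (by omega) (by omega)
  have hun : un c (b + Wd c b - 1) = b := eq_of_mem_unit hc hb (by omega) (by omega)
  have hep : ep c (b + Wd c b - 1) = ep c b := by rw [← ep_un hc, hun]
  have p1 := p.lo
  have p2 := p.hi
  rw [hep] at p1 p2
  exact ⟨p1, p2⟩

theorem ts_unit' {K K' b j j' : ℕ} (h' : Big c K') (h1 : K' ≤ K) (h2 : K < K' + gth c K)
    (hn : NearUnit c K K' b j j') : tsL (layL c K) = tsL (unitRegs c b j) ∧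
      tsL (layL c K') = tsL (unitRegs c b j') := by
  have h := h'.mono h1
  have hc := h.hc
  have N := nearK2 h' h1 h2
  obtain ⟨hop, hLvl, hw⟩ := near_lvl h' h1 h2
  have hW := Wd_pos c b
  have hb := hn.unit'.ub
  have hwb := hn.unit'.wb
  have hwb2 : wb c K' ≤ b + Wd c b := by
    rw [hwb]
    split_ifs
    · exact le_refl _
    · omega
  have hbw : b + Wd c b ≤ om c K' := by
    by_contra hlt
    obtain ⟨p, hp⟩ := N.omA.above (topOK h') (s := b + Wd c b - 1) (by omega)
      (by have := hn.unit'.top; omega)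
    rw [hn.unit'.kid _ (by omega) (by omega)] at hp
    unfold unitKid at hp
    split_ifs at hp
  have plo := (unit_pos h' hn.unit').lo
  have hk := h'.hk
  have hkm := kk_mono plo
  have ht10 := h'.ht
  exact ts_act N.omB N.omA (topOK h) (topOK h') hop
    (act_unit hc hn hLvl hw hbw (by omega) (by omega))

lemma block_pos {K f j : ℕ} (h : Big c K) (hn : BlockAt c K f j) : Pos c K f := by
  have hH := Hd_pos c f
  have htop := hn.top
  have hz := h.zb_le
  exact h.pos (s := f) (by have := hn.wb; omega) (by omega)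

theorem ts_block' {K K' f j j' : ℕ} (h' : Big c K') (h1 : K' ≤ K) (h2 : K < K' + gth c K)
    (hn : NearBlock c K K' f j j') : tsL (layL c K) = tsL (blockRegs c f j) ∧
      tsL (layL c K') = tsL (blockRegs c f j') := by
  have h := h'.mono h1
  have hc := h.hc
  have N := nearK2 h' h1 h2
  obtain ⟨hop, hLvl, hw⟩ := near_lvl h' h1 h2
  have hH := Hd_pos c f
  have htop := hn.block'.top
  have hj := hn.hj
  have hadj := hn.adj
  have hact := hn.act
  have hz := N.zbm
  have hbw : f + Hd c f ≤ om c K' := by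
    by_contra hlt
    obtain ⟨p, hp⟩ := N.omB.above (topOK h) (s := f + Hd c f - 1) (by omega) (by omega)
    rw [hn.block.kid _ (by omega) (by omega)] at hp
    unfold blockKid at hp
    have hj0 : j ≠ 0 := by omega
    rw [if_neg hj0] at hp
    split_ifs at hp
  have ht10 := h'.ht
  have plo := (block_pos h' hn.block').lo
  exact ts_act N.omB N.omA (topOK h) (topOK h') hop (act_block hc hn hLvl hw hbw (by omega))

/-- **the T-states of two close times** -/
theorem ts_near {K K' : ℕ} (h' : Big c K') (h1 : K' ≤ K) (h2 : K < K' + gth c K) :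
    (tsL (layL c K) = .none ∧ tsL (layL c K') = .none) ∨
    (om c K = om c K' ∧
      ((∃ g b v σ σ', NearCell c K K' g b v σ σ' ∧
          tsL (layL c K) = tsL ((cellRegs c g b v σ).map .old) ∧
          tsL (layL c K') = tsL ((cellRegs c g b v σ').map .old)) ∨
        (∃ b j j', NearUnit c K K' b j j' ∧ tsL (layL c K) = tsL (unitRegs c b j) ∧
          tsL (layL c K') = tsL (unitRegs c b j')) ∨
        (∃ f j j', NearBlock c K K' f j j' ∧ tsL (layL c K) = tsL (blockRegs c f j) ∧
          tsL (layL c K') = tsL (blockRegs c f j')))) := by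
  rcases (nearK2 h' h1 h2).act with hr | ⟨g, b, v, σ, σ', hn⟩ | ⟨b, j, j', hn⟩ | ⟨f, j, j', hn⟩
  · exact Or.inl (ts_rest h' h1 h2 hr)
  · have ht := ts_cell' h' h1 h2 hn
    rcases hn.om with ho | ⟨ho1, ho2⟩
    · exact Or.inr ⟨ho, Or.inl ⟨g, b, v, σ, σ', hn, ht⟩⟩
    · left
      rw [ts_cell, ts_cell, ho1, ho2] at ht
      simpa using ht
  · exact Or.inr ⟨hn.om, Or.inr (Or.inl ⟨b, j, j', hn, ts_unit' h' h1 h2 hn⟩)⟩
  · exact Or.inr ⟨hn.om, Or.inr (Or.inr ⟨f, j, j', hn, ts_block' h' h1 h2 hn⟩)⟩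

/-- **the T-state of one time** (statement of helper16) -/
theorem ts_lay {K : ℕ} (h : Big c K) :
    (∀ K', NearRest c K K' → K' = K → tsL (layL c K) = .none) ∧
    (∀ g b v σ, NearCell c K K g b v σ σ → tsL (layL c K) =
      if σ = 1 then .W (ep c b) else if σ = 3 ∧ b + Wd c b < v then .W (ep c (b + Wd c b))
        else .none) ∧
    (∀ b j, NearUnit c K K b j j → tsL (layL c K) = if j = 2 then .W (ep c b) else .none) ∧
    (∀ f j, NearBlock c K K f j j → tsL (layL c K) = if j = 2 then .H (ep c f) else .none) := by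
  have hg : K < K + gth c K := by have := gth_pos c K; omega
  refine ⟨?_, ?_, ?_, ?_⟩
  · rintro K' hn rfl
    exact (ts_rest h le_rfl hg hn).1
  · intro g b v σ hn
    rw [(ts_cell' h le_rfl hg hn).1, ts_cell]
  · intro b j hn
    rw [(ts_unit' h le_rfl hg hn).1, ts_unit]
  · intro f j hn
    rw [(ts_block' h le_rfl hg hn).1, ts_block]

end Pool.Agent.Helper29.E2
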