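import Mathlib
import Pool.Agent.E2S.Geo
import Pool.Agent.Helper29.E2.TsL

/-!
# E-T (MP_12a1af_nt), phase 2: the facts about the T-states and Omega
-/

open Finset

namespace Pool.Agent.Helper29.E2

open Pool.Agent.ETS (Codes Reg IsRest runs IsCut runs_split' Pl)
open Pool.Agent.Helper29.ETK
open Pool.Agent.E2 (Reg2 TS tsL layL body bodyTo toRegs2 zoneReg NoTL tsL_append unitRegs blockRegs
  cellRegs Act Lvl GoodCut2 act_rest act_cell act_unit act_block tsL_mid rest_noT mids cells)
open Pool.Agent.E2S (TsHyp BigK)

variable {c : ℕ}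

lemma cell_ep (hc : 10 ≤ c) {K b : ℕ} (h : K ≤ CC c ^ 4 * b) (hK : 0 < K) :
    epo c K ≤ ep c b + 2 := by
  have hC := CC_pos c
  have hb : b ≠ 0 := by
    rintro rfl
    simp at h
    omega
  have h1 : lg c K < lg c b + 5 := by
    apply lg_lt (by omega)
    have h2 := lt_lg hc b
    calc K ≤ CC c ^ 4 * b := h
      _ < CC c ^ 4 * CC c ^ (lg c b + 1) := Nat.mul_lt_mul_of_pos_left h2 (Nat.pow_pos hC)
      _ = CC c ^ (lg c b + 5) := by rw [← pow_add]; congr 1; omega
  unfold epo ep
  omega

theorem tsHyp {K1 : ℕ} (hb : BigK c K1) : TsHyp c K1 := by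
  have hbig : ∀ K, K1 ≤ K → Big c K := fun K hK => hb.big.mono hK
  have hc := hb.big.hc
  have hself : ∀ K, K < K + gth c K := fun K => by have := gth_pos c K; omega
  refine ⟨?_, ?_, ?_, ?_, ?_⟩
  · -- W
    intro K hK e he
    have h := hbig K hK
    have hE := hb.epo hK
    have hwb := wb_le hc h.nine
    have hwp := wb_pos hc h.nine
    rcases ts_near h le_rfl (hself K) with hn | ⟨-, hn | hn | hn⟩
    · rw [hn.1] at he
      cases he
    · obtain ⟨g, b, v, σ, σ', hn, ht, -⟩ := hn
      rw [ht, ts_cell] at he
      have hlow := cell_ep hc hn.cell.low (by omega)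
      have hbv := hn.cell.hb
      have hv := hn.cell.hv
      split_ifs at he with h1 h2
      · injection he with he
        subst he
        exact ⟨by omega, ep_mono (by omega)⟩
      · injection he with he
        subst he
        have := ep_mono (c := c) (show b ≤ b + Wd c b by omega)
        exact ⟨by omega, ep_mono (by omega)⟩
    · obtain ⟨b, j, j', hn, ht, -⟩ := hn
      rw [ht, ts_unit] at he
      have p := unit_pos h hn.unit
      have p1 := p.lo
      have htop := hn.unit.top
      have hz := h.zb_le
      split_ifs at he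
      injection he with he
      subst he
      exact ⟨by omega, ep_mono (by omega)⟩
    · obtain ⟨f, j, j', hn, ht, -⟩ := hn
      rw [ht, ts_block] at he
      split_ifs at he
  · -- H
    intro K hK e he
    have h := hbig K hK
    rcases ts_near h le_rfl (hself K) with hn | ⟨-, hn | hn | hn⟩
    · rw [hn.1] at he
      cases he
    · obtain ⟨g, b, v, σ, σ', hn, ht, -⟩ := hn
      rw [ht, ts_cell] at he
      split_ifs at he
    · obtain ⟨b, j, j', hn, ht, -⟩ := hn
      rw [ht, ts_unit] at he
      split_ifs at he
    · obtain ⟨f, j, j', hn, ht, -⟩ := hn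
      rw [ht, ts_block] at he
      have p := block_pos h hn.block
      have p1 := p.lo
      have htop := hn.block.top
      have hz := h.zb_le
      split_ifs at he
      injection he with he
      subst he
      exact ⟨by omega, ep_mono (by omega)⟩
  · -- om
    intro K K' h1 h2 h3 h4
    rcases ts_near (hbig K' h1) h2 h3 with hn | hn
    · exact absurd h4 (by simp [hn.1, hn.2])
    · exact hn.1
  · -- same
    intro K K' h1 h2 h3 h4 h5
    rcases ts_near (hbig K' h1) h2 h3 with hn | ⟨-, hn | hn | hn⟩
    · exact absurd hn.1 h4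
    · obtain ⟨g, b, v, σ, σ', hn, ht, ht'⟩ := hn
      have : σ = σ' := by
        rw [ht, ts_cell] at h4
        rw [ht', ts_cell] at h5
        have hadj := hn.adj
        split_ifs at h4 h5 <;> first | omega | exact absurd rfl h4 | exact absurd rfl h5
      rw [ht, ht', this]
    · obtain ⟨b, j, j', hn, ht, ht'⟩ := hn
      have : j = j' := by
        rw [ht, ts_unit] at h4
        rw [ht', ts_unit] at h5
        split_ifs at h4 h5 <;> first | omega | exact absurd rfl h4 | exact absurd rfl h5
      rw [ht, ht', this]
    · obtain ⟨f, j, j', hn, ht, ht'⟩ := hn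
      have : j = j' := by
        rw [ht, ts_block] at h4
        rw [ht', ts_block] at h5
        split_ifs at h4 h5 <;> first | omega | exact absurd rfl h4 | exact absurd rfl h5
      rw [ht, ht', this]
  · -- omle
    intro K hK
    have h := hbig K hK
    have hz := h.zb_le
    have ho := h.om_at
    have := ho.top
    exact ⟨ho.wb, by omega⟩

end Pool.Agent.Helper29.E2
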